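import Pool.Agent.J4.H98.SP.Hill

/-!
# Blocks: many turns near an attracting periodic point
-/

set_option autoImplicit false

open Filter Set Topology

namespace Pool.Agent.J4.H98.SP

open Pool.Agent.J4.H85.IS Pool.Agent.J4.H85.LE

variable {A G : ℕ → ℝ → ℝ} {K : ℕ} {ε σ c a b r q : ℝ}

/-- comparison over `m` turns, above -/
theorem turn_le (HA : Ch A K) {τ : ℝ} {m : ℕ} (hG : ∀ i < m * K, ∀ t, |G i t - A i t| ≤ τ)
    {t t' : ℝ} (ht : t ≤ t') : orb G (m * K) t 0 ≤ (g A K τ)^[m] t' := by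
  have h1 := orb_le (h := G) (h' := A) (fun i => (h_mono HA.incr i).monotone) (ε := τ) (m * K)
    (fun i hi t => by
      have := (abs_le.1 (hG i hi t)).2
      linarith) t t' 0 ht
  rw [zero_add, orb_mul HA] at h1
  exact h1

theorem le_turn (HA : Ch A K) {τ : ℝ} {m : ℕ} (hG : ∀ i < m * K, ∀ t, |G i t - A i t| ≤ τ)
    {t t' : ℝ} (ht : t' ≤ t) : (g A K (-τ))^[m] t' ≤ orb G (m * K) t 0 := by
  have h1 := le_orb (h := G) (h' := A) (fun i => (h_mono HA.incr i).monotone) (ε := τ) (m * K)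
    (fun i hi t => by
      have := (abs_le.1 (hG i hi t)).1
      linarith) t t' 0 ht
  rw [zero_sub, orb_mul HA] at h1
  exact h1

/-- moves to the left where the level is large -/
theorem turn_left (HA : Ch A K) {τ x y : ℝ} (hτ : 0 < τ) (hxy : x ≤ y)
    (hL : ∀ z ∈ Icc x y, 2 * τ ≤ lev A K z) {m : ℕ} (hm : y - x < m * τ)
    (hG : ∀ i < m * K, ∀ t, |G i t - A i t| ≤ τ) {t : ℝ} (ht : t ≤ y) :
    orb G (m * K) t 0 < x := by
  refine lt_of_le_of_lt (turn_le HA hG le_rfl) ?_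
  refine move_left (g_mono HA τ).monotone hτ hxy (fun z hz => ?_) hm ht
  have h1 := hL z hz
  have h2 := lev_down HA (t := z) (s := τ) (by linarith)
  show orb A K z τ ≤ z - τ
  linarith

/-- moves to the right where the level is very negative -/
theorem turn_right (HA : Ch A K) {τ x y : ℝ} (hτ : 0 < τ) (hxy : x ≤ y)
    (hL : ∀ z ∈ Icc x y, lev A K z ≤ -(2 * τ)) {m : ℕ} (hm : y - x < m * τ)
    (hG : ∀ i < m * K, ∀ t, |G i t - A i t| ≤ τ) {t : ℝ} (ht : x ≤ t) :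
    y < orb G (m * K) t 0 := by
  refine lt_of_lt_of_le ?_ (le_turn HA hG le_rfl)
  refine move_right (g_mono HA (-τ)).monotone hτ hxy (fun z hz => ?_) hm ht
  have h1 := hL z hz
  have h2 := lev_up HA (t := z) (s := -τ) (by linarith)
  show z + τ ≤ orb A K z (-τ)
  linarith

/-- **From the trap into the window.** -/
theorem trap_window (HA : Ch A K) {L' : ℝ → ℝ} (hε : 0 < ε)
    (W : Hill (lev A K) L' (2 * ε) c a b r q) {m : ℕ} (hm : 1 < m * ε)
    (hG : ∀ i < m * K, ∀ t, |G i t - A i t| ≤ ε) {t : ℝ} (ht : t ∈ Icc r q) :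
    orb G (m * K) t 0 ∈ Ioo a b :=
  ⟨turn_right HA hε W.ra.le (fun z hz => by linarith [W.low z hz]) (by linarith [W.lenl]) hG ht.1,
    turn_left HA hε W.bq.le (fun z hz => W.high z hz) (by linarith [W.lenr]) hG ht.2⟩

/-- **Deep in the block the orbits in the window come close to the centre.** -/
theorem window_centre (HA : Ch A K) {L' : ℝ → ℝ} (hε : 0 < ε)
    (W : Hill (lev A K) L' (2 * ε) c a b r q) {κ : ℝ} (hκ : 0 < κ) :
    ∃ τ : ℝ, 0 < τ ∧ τ ≤ ε ∧ ∃ m : ℕ, ∀ G : ℕ → ℝ → ℝ,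
      (∀ i < m * K, ∀ t, |G i t - A i t| ≤ τ) → ∀ t ∈ Icc a b, |orb G (m * K) t 0 - c| ≤ κ := by
  -- the points next to the centre
  set x1 := min (c + κ) b with hx1
  set x2 := max (c - κ) a with hx2
  have hc1 : c < x1 := lt_min (by linarith) W.cb
  have hc2 : x2 < c := max_lt (by linarith) W.ac
  have h1b : x1 ≤ b := min_le_right _ _
  have h2a : a ≤ x2 := le_max_right _ _
  obtain ⟨z1, hz1, hmin1⟩ := (isCompact_Icc (a := x1) (b := b)).exists_isMinOn
    ⟨x1, le_rfl, h1b⟩ (lev_cont HA).continuousOn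
  obtain ⟨z2, hz2, hmax2⟩ := (isCompact_Icc (a := a) (b := x2)).exists_isMaxOn
    ⟨x2, h2a, le_rfl⟩ (lev_cont HA).continuousOn
  have hp1 : 0 < lev A K z1 := W.pos z1 ⟨lt_of_lt_of_le hc1 hz1.1, hz1.2⟩
  have hp2 : lev A K z2 < 0 := W.neg z2 ⟨hz2.1, lt_of_le_of_lt hz2.2 hc2⟩
  set τ := min ε (min (lev A K z1 / 2) (-lev A K z2 / 2)) with hτ
  have hτ0 : 0 < τ := lt_min hε (lt_min (by linarith) (by linarith))
  have hτ1 : 2 * τ ≤ lev A K z1 := by
    have : τ ≤ lev A K z1 / 2 := (min_le_right _ _).trans (min_le_left _ _)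
    linarith
  have hτ2 : lev A K z2 ≤ -(2 * τ) := by
    have : τ ≤ -lev A K z2 / 2 := (min_le_right _ _).trans (min_le_right _ _)
    linarith
  obtain ⟨m, hm⟩ := exists_nat_gt ((b - a) / τ)
  have hm' : b - a < m * τ := by
    rwa [div_lt_iff₀ hτ0] at hm
  refine ⟨τ, hτ0, min_le_left _ _, m, fun G hG t ht => ?_⟩
  have h3 := turn_left HA hτ0 h1b (fun z hz => hτ1.trans (hmin1 hz)) (m := m) (by linarith) hG ht.2
  have h4 := turn_right HA hτ0 h2a (fun z hz => (hmax2 hz).trans hτ2) (m := m) (by linarith) hG ht.1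
  rw [abs_le]
  constructor
  · have : c - κ ≤ x2 := le_max_left _ _
    linarith
  · have : x1 ≤ c + κ := min_le_left _ _
    linarith

/-- the continuation of an increasing crossing -/
theorem centre_of {L L' : ℝ → ℝ} {δ : ℝ} (D : Reg L L' δ) (h0 : 0 < L' 0) {t : ℝ}
    (hL0 : |L 0| ≤ ε) (hε : 0 < ε) (hεδ : 2 * ε < δ) (ht : L t = 0)
    (hseg : ∀ z ∈ uIcc 0 t, |L z| < δ) :
    0 < L' t ∧ ∀ a b r q, Hill L L' (2 * ε) t a b r q → (0 : ℝ) ∈ Ioo a b := by
  obtain ⟨hl1, hl2⟩ := abs_le.1 hL0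
  have hno1 : ∀ m, m ∈ uIcc 0 t → ¬ δ ≤ L m := fun m hm h => by
    have := (abs_lt.1 (hseg m hm)).2
    linarith
  have hno2 : ∀ m, m ∈ uIcc 0 t → ¬ L m ≤ -δ := fun m hm h => by
    have := (abs_lt.1 (hseg m hm)).1
    linarith
  have hsub : ∀ {x y m : ℝ}, x ∈ uIcc 0 t → y ∈ uIcc 0 t → m ∈ Ioo x y → m ∈ uIcc 0 t :=
    fun {x y m} hx hy hm => by
      have : Icc x y ⊆ uIcc 0 t := Set.Icc_subset_uIcc.trans (Set.uIcc_subset_uIcc hx hy)
      exact this ⟨hm.1.le, hm.2.le⟩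
  have h0m : (0 : ℝ) ∈ uIcc 0 t := left_mem_uIcc
  have htm : t ∈ uIcc 0 t := right_mem_uIcc
  refine ⟨?_, fun a b r q W => ?_⟩
  · have hne : L' t ≠ 0 := D.ne t (by rw [ht, abs_zero]; linarith)
    rcases lt_or_gt_of_ne hne with h | h
    · exfalso
      rcases lt_trichotomy 0 t with h1 | h1 | h1
      · obtain ⟨m, hm, hm1⟩ := D.up_down h1 (by linarith) h0 h
        exact hno1 m (hsub h0m htm hm) hm1
      · rw [← h1] at h
        linarith
      · obtain ⟨m, hm, hm1⟩ := D.down_up h1 (by rw [ht]; linarith) h h0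
        exact hno2 m (hsub htm h0m hm) hm1
    · exact h
  · have hda : 0 < L' a := (W.win a ⟨le_rfl, (W.ac.trans W.cb).le⟩).2
    have hdb : 0 < L' b := (W.win b ⟨(W.ac.trans W.cb).le, le_rfl⟩).2
    constructor
    · by_contra h
      push Not at h
      rcases h.eq_or_lt with h1 | h1
      · have := W.La
        rw [← h1] at this
        linarith
      · have hat : a ∈ uIcc 0 t := by
          rw [uIcc_of_le (by linarith [W.ac])]
          exact ⟨h, W.ac.le⟩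
        obtain ⟨m, hm, hm1⟩ := D.ge_up h1 (by rw [W.La]; linarith) (by rw [W.La]; linarith) hda
        exact hno2 m (hsub h0m hat hm) hm1
    · by_contra h
      push Not at h
      rcases h.eq_or_lt with h1 | h1
      · have := W.Lb
        rw [h1] at this
        linarith
      · have hbt : b ∈ uIcc 0 t := by
          rw [uIcc_of_ge (by linarith [W.cb])]
          exact ⟨W.cb.le, h⟩
        obtain ⟨m, hm, hm1⟩ := D.up_le h1 (by rw [W.Lb]; linarith) hdb (by rw [W.Lb]; linarith)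
        exact hno1 m (hsub hbt h0m hm) hm1

/-- windows and traps of two crossings interlock -/
theorem interlock {L1 L1' L2 L2' : ℝ → ℝ} {σ c1 a1 b1 r1 q1 c2 a2 b2 r2 q2 : ℝ}
    (W1 : Hill L1 L1' σ c1 a1 b1 r1 q1) (W2 : Hill L2 L2' σ c2 a2 b2 r2 q2) (hσ : 0 < σ)
    (h1 : (0 : ℝ) ∈ Ioo a1 b1) (h2 : (0 : ℝ) ∈ Ioo a2 b2)
    (hX : ∀ t, |L1 t| ≤ σ → 0 < L1' t → |L2 t| ≤ σ → L2' t < 0 → False) :
    r2 < a1 ∧ b1 < q2 := by
  constructor
  · by_contra h
    push Not at h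
    have h3 := W1.win r2 ⟨h, by linarith [W2.ra, h2.1, h1.2]⟩
    exact hX r2 h3.1 h3.2 (by rw [W2.Lr, abs_neg, abs_of_pos hσ]) W2.dr
  · by_contra h
    push Not at h
    have h3 := W1.win q2 ⟨by linarith [W2.bq, h2.2, h1.1], h⟩
    exact hX q2 h3.1 h3.2 (by rw [W2.Lq, abs_of_pos hσ]) W2.dq

/-- an increasing zero -/
theorem exists_zero {L L' : ℝ → ℝ} {δ : ℝ} (D : Reg L L' δ) (hδ : 0 < δ) {x y : ℝ} (hxy : x ≤ y)
    (hx : L x < 0) (hy : 0 < L y) : ∃ t ∈ Ioo x y, L t = 0 ∧ 0 < L' t := by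
  have hS : IsCompact (Icc x y ∩ {t | 0 ≤ L t}) :=
    isCompact_Icc.inter_right (isClosed_le continuous_const D.cont)
  obtain ⟨t, ⟨ht, htL⟩, htmin⟩ := hS.exists_isLeast ⟨y, ⟨hxy, le_rfl⟩, hy.le⟩
  have htL' : 0 ≤ L t := htL
  have hxt : x < t := lt_of_le_of_ne ht.1 (by rintro rfl; linarith)
  have hbef : ∀ z, x ≤ z → z < t → L z < 0 := by
    intro z h1 h2
    by_contra h
    push Not at h
    have := htmin ⟨⟨h1, h2.le.trans ht.2⟩, h⟩
    linarith
  have hLt : L t = 0 := by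
    refine le_antisymm ?_ htL'
    have h1 : ∀ᶠ z in 𝓝[<] t, L z ≤ 0 := by
      filter_upwards [Ioo_mem_nhdsLT hxt] with z hz
      exact (hbef z hz.1.le hz.2).le
    exact le_of_tendsto D.cont.continuousWithinAt h1
  have hty : t < y := lt_of_le_of_ne ht.2 (by rintro rfl; linarith)
  refine ⟨t, ⟨hxt, hty⟩, hLt, ?_⟩
  have hne : L' t ≠ 0 := D.ne t (by rw [hLt, abs_zero]; exact hδ)
  rcases lt_or_gt_of_ne hne with h | h
  · exfalso
    obtain ⟨z, hz, hz1⟩ := D.left_gt hxt h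
    have := hbef z hz.1.le hz.2
    linarith
  · exact h

end Pool.Agent.J4.H98.SP
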