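import Pool.Agent.J4.H98.SP.Defs

/-!
# The branch of a level function through a point of small level reaches the level zero
-/

set_option autoImplicit false
set_option linter.unusedSectionVars false

open Filter Set Topology

namespace Pool.Agent.J4.H98.SP

open Pool.Agent.J4.H85.IS Pool.Agent.J4.H85.LE

namespace Br

/-- a decreasing branch with a positive value -/
theorem core {L L' : ℝ → ℝ} {δ : ℝ} (D : Reg L L' δ) (hper : L 1 = L 0) (h0 : 0 < L 0)
    (h1 : L 0 < δ) (hd : L' 0 < 0) :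
    ∃ t, 0 ≤ t ∧ L t = 0 ∧ ∀ z ∈ Icc 0 t, 0 ≤ L z ∧ L z ≤ L 0 := by
  obtain ⟨m, hm, hm'⟩ := D.down_ge one_pos h1 hd (by rw [hper])
  set S := Icc 0 m ∩ {t | L t ≤ 0} with hS
  have hSc : IsCompact S := isCompact_Icc.inter_right (isClosed_le D.cont continuous_const)
  obtain ⟨t, ⟨ht, hle⟩, hmin⟩ := hSc.exists_isLeast ⟨m, ⟨hm.1.le, le_rfl⟩, by
    show L m ≤ 0
    linarith⟩
  have hle' : L t ≤ 0 := hle
  have hbef : ∀ z, 0 ≤ z → z < t → 0 < L z := by
    intro z hz1 hz2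
    by_contra h
    push Not at h
    have := hmin ⟨⟨hz1, hz2.le.trans ht.2⟩, h⟩
    linarith
  have ht0 : 0 < t := lt_of_le_of_ne ht.1 (by rintro rfl; linarith)
  have hzero : L t = 0 := by
    refine le_antisymm hle' ?_
    have h2 : ∀ᶠ z in 𝓝[<] t, (0 : ℝ) ≤ L z := by
      filter_upwards [Ioo_mem_nhdsLT ht0] with z hz
      exact (hbef z hz.1.le hz.2).le
    exact ge_of_tendsto (D.cont.continuousWithinAt (s := Iio t) (x := t)) h2
  refine ⟨t, ht.1, hzero, fun z hz => ⟨?_, ?_⟩⟩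
  · rcases hz.2.lt_or_eq with h | h
    · exact (hbef z hz.1 h).le
    · rw [h, hzero]
  · by_contra hcon
    push Not at hcon
    have hz0 : 0 < z := lt_of_le_of_ne hz.1 (by rintro rfl; linarith)
    obtain ⟨w, hw, hw1⟩ := D.down_ge hz0 h1 hd hcon.le
    have := hbef w hw.1.le (hw.2.trans_le hz.2)
    linarith

theorem reflect {L L' : ℝ → ℝ} {δ : ℝ} (D : Reg L L' δ) :
    Reg (fun t => L (-t)) (fun t => -L' (-t)) δ := by
  refine ⟨fun t => ?_, fun t ht => neg_ne_zero.2 (D.ne (-t) ht)⟩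
  have h1 := (D.der (-t)).comp t (hasDerivAt_neg t)
  refine h1.congr_deriv ?_
  ring

/-- a branch with a positive value -/
theorem pos {L L' : ℝ → ℝ} {δ : ℝ} (D : Reg L L' δ) (hper : ∀ t, L (t + 1) = L t) (h0 : 0 < L 0)
    (h1 : L 0 < δ) : ∃ t, L t = 0 ∧ ∀ z ∈ uIcc 0 t, 0 ≤ L z ∧ L z ≤ L 0 := by
  have hne := D.ne 0 (by rw [abs_of_pos h0]; exact h1)
  rcases lt_or_gt_of_ne hne with h | h
  · obtain ⟨t, ht, h2, h3⟩ := core D (by have := hper 0; rwa [zero_add] at this) h0 h1 h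
    refine ⟨t, h2, fun z hz => h3 z ?_⟩
    rwa [uIcc_of_le ht] at hz
  · obtain ⟨t, ht, h2, h3⟩ := core (reflect D) (by
      have := hper (-1)
      rw [neg_add_cancel] at this
      simp [this]) (by simpa using h0) (by simpa using h1) (by simpa using h)
    refine ⟨-t, h2, fun z hz => ?_⟩
    rw [uIcc_of_ge (by linarith : -t ≤ 0)] at hz
    have := h3 (-z) ⟨by linarith [hz.2], by linarith [hz.1]⟩
    simpa using this

end Br

open Br in
theorem branch {L L' : ℝ → ℝ} {δ : ℝ} (D : Reg L L' δ) (hper : ∀ t, L (t + 1) = L t)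
    (h0 : |L 0| < δ) : ∃ t, L t = 0 ∧ ∀ z ∈ uIcc 0 t, |L z| ≤ |L 0| := by
  rcases lt_trichotomy (L 0) 0 with h | h | h
  · obtain ⟨t, h1, h2⟩ := pos D.neg (fun t => by simp [hper t]) (by linarith : 0 < -L 0) (by
      rw [abs_of_neg h] at h0
      exact h0)
    refine ⟨t, by linarith, fun z hz => ?_⟩
    obtain ⟨h3, h4⟩ := h2 z hz
    rw [abs_of_neg h, abs_of_nonpos (by linarith)]
    linarith
  · refine ⟨0, h, fun z hz => ?_⟩
    rw [uIcc_self, mem_singleton_iff] at hz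
    rw [hz]
  · obtain ⟨t, h1, h2⟩ := pos D hper h (by
      rw [abs_of_pos h] at h0
      exact h0)
    refine ⟨t, h1, fun z hz => ?_⟩
    obtain ⟨h3, h4⟩ := h2 z hz
    rw [abs_of_pos h, abs_of_nonneg h3]
    exact h4

end Pool.Agent.J4.H98.SP
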