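import Pool.Agent.J4.H98.SP.Key2

/-!
# Closing of orbit segments of attracting periodic points
-/

set_option autoImplicit false
set_option linter.unusedSectionVars false

open Filter Set Topology

universe u v

namespace Pool.Agent.J4.H98.SP

open Pool.Agent.J4.H85.IS Pool.Agent.J4.H85.LE

variable {N : Type u} {B : Type v} {ψ : ℝ → N → N} {F : N → N} {ρ : N → ℝ} {π : N → B} {f : B → B}

section metric

variable [MetricSpace N] [CompactSpace N] [MetricSpace B] [CompactSpace B]

theorem closes (C : Circ ψ F ρ π f) {e₀ : ℝ} (he : 0 < e₀) (hX : ExpansiveWith f e₀)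
    (hS : PeriodicShadowing f) {δ : ℝ} (hδ : 0 < δ) (hδ1 : δ ≤ 1) (hnd : NDN ψ F ρ δ) :
    ∃ κ : ℝ, 0 < κ ∧ Closes F (AttPer F ρ) κ := by
  obtain ⟨κ, hκ, hkey⟩ := key C he hX hS hδ hδ1 hnd
  obtain ⟨η1, hη1, hcross⟩ := cross_levels C he hX hS hδ hδ1 (nd_of_ndn C hnd)
  obtain ⟨η2, hη2, hflow⟩ := flow_unif C hη1
  set ε := min (min (κ / 2) (η2 / 2)) (δ / 8) with hε
  have hε0 : 0 < ε := by positivity
  have hε1 : ε ≤ κ / 2 := (min_le_left _ _).trans (min_le_left _ _)
  have hε2 : ε ≤ η2 / 2 := (min_le_left _ _).trans (min_le_right _ _)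
  have hε3 : ε ≤ δ / 8 := min_le_right _ _
  obtain ⟨η3, hη3, hsh⟩ := shadow_tr C hS hε0
  refine ⟨η3, hη3, fun P hP M hM hPM => ?_⟩
  -- the periodic pseudo-orbit
  obtain ⟨x, e, T, hxy⟩ := hsh (fun i => F^[i % M] P) M hM (fun i => by
    show F^[(i + M) % M] P = F^[i % M] P
    rw [Nat.add_mod_right]) (fun i => by
    show dist (F (F^[i % M] P)) (F^[(i + 1) % M] P) < η3
    have hlt : i % M < M := Nat.mod_lt _ (by omega)
    rw [← Function.iterate_succ_apply' F (i % M) P]
    rcases Nat.lt_or_ge (i % M + 1) M with h2 | h2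
    · have : (i + 1) % M = i % M + 1 := by
        rw [← Nat.mod_add_mod, Nat.mod_eq_of_lt h2]
      rw [this, Nat.succ_eq_add_one, dist_self]
      exact hη3
    · have h3 : i % M + 1 = M := by omega
      have h4 : (i + 1) % M = 0 := by
        rw [← Nat.mod_add_mod, h3, Nat.mod_self]
      rw [h4, Nat.succ_eq_add_one, h3]
      exact hPM)
  have hx0 : dist P (x 0) < ε := by
    have := hxy 0
    rw [dist_comm] at this
    simpa using this
  obtain ⟨a, TP, l0, l1⟩ := att_track C hP
  have HB := fm_ch C T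
  have nB := nd_of_ndn C hnd _ _ M HB (fm_maps C T) (by simpa using T.perx 0)
  have DB := reg _ HB nB
  have lB : |lev (fm ψ ρ x e) M 0| ≤ ε := level_small HB fun i => by
    rw [fm_zero]
    exact T.small _
  have htype : 0 < lev' (fm ψ ρ x e) M 0 := by
    have hne := DB.ne 0 (by linarith)
    rcases lt_or_gt_of_ne hne with h | h
    · exfalso
      refine no_common C hcross (TP.mono hε0.le) T (fun t => ?_) (σ := ε) (by linarith) 0 ?_ l1 lB h
      · refine hflow t _ _ ?_
        show dist P (x 0) < η2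
        linarith
      · rw [l0, abs_zero]
        exact hε0.le
    · exact h
  obtain ⟨t, ht0, hts⟩ := branch DB (lev_per HB) (by linarith)
  have hseg : ∀ z ∈ uIcc 0 t, |lev (fm ψ ρ x e) M z| < δ := fun z hz => by linarith [hts z hz]
  have htp := (centre_of DB htype lB hε0 (by linarith) ht0 hseg).1
  have c1 := hkey _ _ a _ _ M (TP.mono hκ.le) (T.mono (by linarith)) (by
    show dist P (x 0) < κ
    linarith) l1 htype 0 t l0 (fun z hz => by
      rw [uIcc_self, mem_singleton_iff] at hz
      rw [hz, l0, abs_zero]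
      exact hδ) ht0 hseg
  rw [C.act.zero] at c1
  exact ⟨ψ t (x 0), att_of C T ht0 htp, per_of C T ht0, c1⟩

end metric

end Pool.Agent.J4.H98.SP
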