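import Pool.Agent.J4.H85.IS.Chains

/-!
# Spectral decomposition for maps with circle fibres: definitions
-/

set_option autoImplicit false
set_option linter.unusedSectionVars false

open Filter Set Topology

universe u v

namespace Pool.Agent.J4.H98.SP

open Pool.Agent.J4.H85.IS Pool.Agent.J4.H85.LE

/-- the periodic points of the maps `ψ_s ∘ F`, `|s| < δ`, are hyperbolic along the fibres -/
def NDN {N : Type u} (ψ : ℝ → N → N) (F : N → N) (ρ : N → ℝ) (δ : ℝ) : Prop :=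
  ∀ s : ℝ, |s| < δ → ∀ (k : ℕ) (p : N), 1 ≤ k → (fun y => ψ s (F y))^[k] p = p →
    ∏ i ∈ Finset.range k, ρ ((fun y => ψ s (F y))^[i] p) ≠ 1

/-- closed tracks with small jumps along the fibres -/
structure Tr {N : Type u} (ψ : ℝ → N → N) (F : N → N) (x : ℕ → N) (e : ℕ → ℝ) (K : ℕ) (κ : ℝ) :
    Prop where
  one : 1 ≤ K
  perx : ∀ i, x (i + K) = x i
  pere : ∀ i, e (i + K) = e i
  step : ∀ i, F (x i) = ψ (e i) (x (i + 1))
  small : ∀ i, |e i| ≤ κ

/-- the fibre maps of a track: `F (ψ_t (x i)) = ψ_(fm i t) (x (i + 1))` -/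
noncomputable def fm {N : Type u} (ψ : ℝ → N → N) (ρ : N → ℝ) (x : ℕ → N) (e : ℕ → ℝ) (i : ℕ)
    (t : ℝ) : ℝ := theta ψ ρ (x i) t + e i

variable {N : Type u} {B : Type v} {ψ : ℝ → N → N} {F : N → N} {ρ : N → ℝ} {π : N → B} {f : B → B}

theorem fm_maps [TopologicalSpace N] [TopologicalSpace B] (C : Circ ψ F ρ π f) {x : ℕ → N}
    {e : ℕ → ℝ} {K : ℕ} {κ : ℝ} (T : Tr ψ F x e K κ) (i : ℕ) (t : ℝ) :
    F (ψ t (x i)) = ψ (fm ψ ρ x e i t) (x (i + 1)) := by
  rw [C.maps, T.step, ← C.act.add]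
  rfl

theorem fm_der [TopologicalSpace N] [TopologicalSpace B] (C : Circ ψ F ρ π f) (x : ℕ → N)
    (e : ℕ → ℝ) (i : ℕ) (t : ℝ) : deriv (fm ψ ρ x e i) t = ρ (ψ t (x i)) :=
  ((C.theta_der _ t).add_const _).deriv

theorem fm_zero [TopologicalSpace N] (x : ℕ → N) (e : ℕ → ℝ) (i : ℕ) : fm ψ ρ x e i 0 = e i := by
  unfold fm
  rw [Circ.theta_zero, zero_add]

theorem fm_ch [TopologicalSpace N] [TopologicalSpace B] (C : Circ ψ F ρ π f) {x : ℕ → N}
    {e : ℕ → ℝ} {K : ℕ} {κ : ℝ} (T : Tr ψ F x e K κ) : Ch (fm ψ ρ x e) K where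
  smooth i := (C.theta_smooth _).add contDiff_const
  incr i t := by
    rw [fm_der C]
    exact C.pos _
  pos _ := one_pos
  perT i t := by
    show theta ψ ρ (x i) (t + 1) + e i = theta ψ ρ (x i) t + e i + 1
    rw [C.theta_per]
    ring
  one := T.one
  perk _ := rfl
  shift i t := by
    show theta ψ ρ (x (i + K)) (t + 0) + e (i + K) = theta ψ ρ (x i) t + e i + 0
    rw [T.perx, T.pere]
    ring_nf

/-- the shifted track -/
theorem Tr.shift {x : ℕ → N} {e : ℕ → ℝ} {K : ℕ} {κ : ℝ} (T : Tr ψ F x e K κ) (j : ℕ) :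
    Tr ψ F (fun i => x (j + i)) (fun i => e (j + i)) K κ where
  one := T.one
  perx i := by
    rw [← add_assoc]
    exact T.perx _
  pere i := by
    rw [← add_assoc]
    exact T.pere _
  step i := T.step _
  small i := T.small _

/-- the points of `A` travel between all neighbourhoods of `P` and of `Q` -/
def Conn {N : Type u} [MetricSpace N] (F : N → N) (A : Set N) (P Q : N) : Prop :=
  ∀ ε : ℝ, 0 < ε → ∃ R ∈ A, ∃ n : ℕ, dist R P < ε ∧ dist (F^[n] R) Q < ε

/-- `S` is a basic piece: closed, not empty, invariant, and `F` is topologically transitive on `S` -/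
structure Basic {N : Type u} [TopologicalSpace N] (F : N → N) (S : Set N) : Prop where
  closed : IsClosed S
  nonempty : S.Nonempty
  inv : F '' S = S
  trans : ∀ U V : Set N, IsOpen U → IsOpen V → (U ∩ S).Nonempty → (V ∩ S).Nonempty →
    ∃ x ∈ U ∩ S, ∃ n : ℕ, F^[n] x ∈ V

/-- there is a chain with jumps less than `ε` from `a` to `b` -/
def EC {N : Type u} [MetricSpace N] (F : N → N) (ε : ℝ) (a b : N) : Prop :=
  ∃ (y : ℕ → N) (n : ℕ), 1 ≤ n ∧ y 0 = a ∧ y n = b ∧ ∀ i < n, dist (F (y i)) (y (i + 1)) < ε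

end Pool.Agent.J4.H98.SP
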