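import Mathlib
import Pool.Agent.J4.H98.SP.Defs

set_option autoImplicit false
set_option linter.unusedSectionVars false

open Filter Set Topology

universe u v

namespace Pool.Agent.J4.H98.SP.C

variable {N : Type u} [MetricSpace N] {F : N → N}

lemma ec_single {ε : ℝ} {a b : N} (h : dist (F a) b < ε) : EC F ε a b := by
  refine ⟨fun i => if i = 0 then a else b, 1, le_rfl, by simp, by simp, fun i hi => ?_⟩
  obtain rfl : i = 0 := by omega
  simpa using h

lemma ec_trans {ε : ℝ} {a b c : N} (h1 : EC F ε a b) (h2 : EC F ε b c) : EC F ε a c := by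
  obtain ⟨y, n, hn, ya, yb, hy⟩ := h1
  obtain ⟨z, m, hm, zb, zc, hz⟩ := h2
  refine ⟨fun i => if i < n then y i else z (i - n), n + m, by omega, ?_, ?_, fun i hi => ?_⟩
  · simp only
    rw [if_pos (by omega)]
    exact ya
  · simp only
    rw [if_neg (by omega), Nat.add_sub_cancel_left]
    exact zc
  · simp only
    by_cases h1 : i < n
    · rw [if_pos h1]
      by_cases h2 : i + 1 < n
      · rw [if_pos h2]
        exact hy i h1
      · rw [if_neg h2]
        have e : i + 1 = n := by omega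
        have h3 := hy i h1
        rw [e, yb] at h3
        rw [e, Nat.sub_self, zb]
        exact h3
    · rw [if_neg h1, if_neg (by omega)]
      have e : i + 1 - n = (i - n) + 1 := by omega
      rw [e]
      exact hz (i - n) (by omega)

lemma ec_iter {ε : ℝ} (hε : 0 < ε) {z y : N} {n : ℕ} (hn : 1 ≤ n) (h : dist (F^[n] z) y < ε) :
    EC F ε z y := by
  refine ⟨fun i => if i < n then F^[i] z else y, n, hn, ?_, ?_, fun i hi => ?_⟩
  · simp only
    rw [if_pos (by omega)]
    rfl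
  · simp only
    rw [if_neg (by omega)]
  · simp only
    rw [if_pos hi]
    by_cases h2 : i + 1 < n
    · rw [if_pos h2, Function.iterate_succ_apply', dist_self]
      exact hε
    · rw [if_neg h2, ← Function.iterate_succ_apply' F i z]
      have e : i.succ = n := by omega
      rw [e]
      exact h

lemma ec_basic {S : Set N} (hB : Basic F S) {x y : N} (hx : x ∈ S) (hy : y ∈ S) {ε : ℝ}
    (hε : 0 < ε) : EC F ε x y := by
  have hFx : F x ∈ S := by
    rw [← hB.inv]
    exact mem_image_of_mem F hx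
  obtain ⟨z, hz, n, hn⟩ := hB.trans (Metric.ball (F x) (ε / 2)) (Metric.ball y (ε / 2)) Metric.isOpen_ball
    Metric.isOpen_ball ⟨F x, Metric.mem_ball_self (by positivity), hFx⟩
    ⟨y, Metric.mem_ball_self (by positivity), hy⟩
  have h1 : dist (F x) z < ε / 2 := by
    have := Metric.mem_ball.1 hz.1
    rwa [dist_comm]
  have h2 : dist (F^[n] z) y < ε / 2 := Metric.mem_ball.1 hn
  rcases Nat.eq_zero_or_pos n with h0 | h0
  · rw [h0] at h2
    apply ec_single
    have h3 : dist z y < ε / 2 := h2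
    linarith [dist_triangle (F x) z y]
  · exact ec_trans (ec_single (by linarith)) (ec_iter hε h0 (by linarith))

end Pool.Agent.J4.H98.SP.C

namespace Pool.Agent.J4.H98.SP

variable {N : Type u} {F : N → N}

theorem classes [MetricSpace N] [CompactSpace N] (hc : Continuous F) {ι : Type} [Finite ι]
    {Λ : ι → Set N} (hB : ∀ i, Basic F (Λ i))
    (hno : ∃ η : ℝ, 0 < η ∧ ∀ (y : ℕ → N) (M : ℕ), 1 ≤ M → (∀ i, y (i + M) = y i) →
      (∀ i, dist (F (y i)) (y (i + 1)) < η) → ∀ i j a b, y i ∈ Λ a → y j ∈ Λ b → a = b)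
    (hcr : ∀ x, (∀ ε : ℝ, 0 < ε → EC F ε x x) →
      ∃ Q ∈ ⋃ a, Λ a, ∀ ε : ℝ, 0 < ε → EC F ε x Q ∧ EC F ε Q x) :
    (∀ a, ∀ x ∈ Λ a, ∀ y ∈ Λ a, ∀ ε : ℝ, 0 < ε → EC F ε x y) ∧
    ∀ x, (∀ ε : ℝ, 0 < ε → EC F ε x x) →
      ∃! a, ∀ y ∈ Λ a, ∀ ε : ℝ, 0 < ε → EC F ε x y ∧ EC F ε y x := by
  have h1 : ∀ a, ∀ x ∈ Λ a, ∀ y ∈ Λ a, ∀ ε : ℝ, 0 < ε → EC F ε x y :=
    fun a x hx y hy ε hε => C.ec_basic (hB a) hx hy hε
  refine ⟨h1, fun x hx => ?_⟩
  obtain ⟨Q, hQ, hQx⟩ := hcr x hx
  obtain ⟨a, ha⟩ := mem_iUnion.1 hQ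
  refine ⟨a, fun y hy ε hε => ⟨C.ec_trans (hQx ε hε).1 (h1 a Q ha y hy ε hε),
    C.ec_trans (h1 a y hy Q ha ε hε) (hQx ε hε).2⟩, ?_⟩
  intro b hb
  obtain ⟨η, hη, hno⟩ := hno
  obtain ⟨P, hP⟩ := (hB b).nonempty
  obtain ⟨h2, h3⟩ := hb P hP η hη
  obtain ⟨h4, h5⟩ := hQx η hη
  obtain ⟨y, n, hn, y0, yn, hy⟩ := C.ec_trans h3 h4
  obtain ⟨z, m, hm, z0, zm, hz⟩ := C.ec_trans h5 h2
  -- the closed chain
  obtain ⟨Y, hY⟩ : ∃ Y : ℕ → N, Y = fun i => if i < n then y i else z (i - n) := ⟨_, rfl⟩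
  have hY1 : ∀ i, i < n → Y i = y i := fun i hi => by rw [hY]; exact if_pos hi
  have hY2 : ∀ i, n ≤ i → Y i = z (i - n) := fun i hi => by rw [hY]; exact if_neg (by omega)
  have hY0 : Y 0 = P := by rw [hY1 0 (by omega), y0]
  have hYM : Y (n + m) = P := by rw [hY2 _ (by omega), Nat.add_sub_cancel_left, zm]
  have hYn : Y n = Q := by rw [hY2 _ le_rfl, Nat.sub_self, z0]
  have hYs : ∀ i < n + m, dist (F (Y i)) (Y (i + 1)) < η := by
    intro i hi
    by_cases g1 : i < n
    · rw [hY1 i g1]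
      by_cases g2 : i + 1 < n
      · rw [hY1 _ g2]
        exact hy i g1
      · have e : i + 1 = n := by omega
        have h6 := hy i g1
        rw [e, yn] at h6
        rw [e, hYn]
        exact h6
    · rw [hY2 i (by omega), hY2 (i + 1) (by omega)]
      have e : i + 1 - n = (i - n) + 1 := by omega
      rw [e]
      exact hz (i - n) (by omega)
  have hM : 0 < n + m := by omega
  have h7 := hno (fun i => Y (i % (n + m))) (n + m) (by omega)
    (fun i => by simp only [Nat.add_mod_right]) (fun i => by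
      have hr := Nat.mod_lt i hM
      have h8 := hYs (i % (n + m)) hr
      by_cases g : i % (n + m) + 1 < n + m
      · have e : (i + 1) % (n + m) = i % (n + m) + 1 := by
          rw [Nat.add_mod, Nat.mod_eq_of_lt (a := 1) (by omega), Nat.mod_eq_of_lt g]
        rw [e]
        exact h8
      · have e : i % (n + m) + 1 = n + m := by omega
        have e2 : (i + 1) % (n + m) = 0 := by
          have : (i + 1) ≡ (i % (n + m) + 1) [MOD (n + m)] := ((Nat.mod_modEq i (n + m)).symm).add_right 1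
          rw [e] at this
          have h9 : (i + 1) % (n + m) = (n + m) % (n + m) := this
          rwa [Nat.mod_self] at h9
        rw [e2, hY0]
        rw [e, hYM] at h8
        exact h8) 0 n b a
    (by simpa only [Nat.zero_mod, hY0] using hP)
    (by
      rw [Nat.mod_eq_of_lt (by omega), hYn]
      exact ha)
  exact h7

end Pool.Agent.J4.H98.SP
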