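import Pool.Agent.J4.H98.SP.Defs

/-!
# Finite closed covers of transitive pieces
-/

set_option autoImplicit false

open Filter Set Topology

universe u v

namespace Pool.Agent.J4.H98.SP

theorem cover_piece {B : Type v} [TopologicalSpace B] {f : B → B} {S : Set B} (hS : Basic f S)
    {ι : Type} [Finite ι] {D : ι → Set B} (hcl : ∀ a, IsClosed (D a))
    (hinv : ∀ a, ∀ x ∈ D a, f x ∈ D a) (hcov : S ⊆ ⋃ a, D a) : ∃ a, S ⊆ D a := by
  classical
  cases nonempty_fintype ι
  by_contra hcon
  push Not at hcon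
  have hit : ∀ a n, ∀ x ∈ D a, f^[n] x ∈ D a := by
    intro a n x hx
    induction n with
    | zero => exact hx
    | succ n ih =>
      rw [Function.iterate_succ_apply']
      exact hinv a _ ih
  have key : ∀ T : Finset ι, ((⋂ a ∈ T, (D a)ᶜ) ∩ S).Nonempty := by
    intro T
    induction T using Finset.induction_on with
    | empty =>
      obtain ⟨x, hx⟩ := hS.nonempty
      exact ⟨x, by simp, hx⟩
    | insert a T _ ih =>
      obtain ⟨y, hyS, hyD⟩ := Set.not_subset.1 (hcon a)
      obtain ⟨x, ⟨hxa, hxS⟩, n, hn⟩ := hS.trans (D a)ᶜ (⋂ b ∈ T, (D b)ᶜ) (hcl a).isOpen_compl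
        (isOpen_biInter_finset fun b _ => (hcl b).isOpen_compl) ⟨y, hyD, hyS⟩ ih
      refine ⟨x, ?_, hxS⟩
      simp only [Finset.mem_insert, iInter_iInter_eq_or_left, mem_inter_iff, mem_iInter]
      refine ⟨hxa, fun b hb hxb => ?_⟩
      simp only [mem_iInter] at hn
      exact hn b hb (hit b n x hxb)
  obtain ⟨x, hx, hxS⟩ := key Finset.univ
  obtain ⟨a, ha⟩ := mem_iUnion.1 (hcov hxS)
  simp only [Finset.mem_univ, iInter_true, mem_iInter] at hx
  exact hx a ha

end Pool.Agent.J4.H98.SP
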