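import Pool.Agent.J4.H98.SP.Defs

/-!
# Chains along an arc of a fibre which consists of periodic points of the maps `ψ_s ∘ F`
-/

set_option autoImplicit false
set_option linter.unusedSectionVars false

open Filter Set Topology

universe u v

namespace Pool.Agent.J4.H98.SP

open Pool.Agent.J4.H85.IS Pool.Agent.J4.H85.LE

variable {N : Type u} {B : Type v} {ψ : ℝ → N → N} {F : N → N} {ρ : N → ℝ} {π : N → B} {f : B → B}

namespace Walk

theorem ec_trans [MetricSpace N] {ε : ℝ} {a b c : N} (h1 : EC F ε a b) (h2 : EC F ε b c) :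
    EC F ε a c := by
  obtain ⟨y, n, hn, y0, yn, hy⟩ := h1
  obtain ⟨y', n', hn', y0', yn', hy'⟩ := h2
  refine ⟨fun i => if i < n then y i else y' (i - n), n + n', by omega, ?_, ?_, ?_⟩
  · show (if 0 < n then y 0 else y' (0 - n)) = a
    rw [if_pos (by omega), y0]
  · show (if n + n' < n then y (n + n') else y' (n + n' - n)) = c
    rw [if_neg (by omega), Nat.add_sub_cancel_left, yn']
  · intro i hi
    show dist (F (if i < n then y i else y' (i - n)))
      (if i + 1 < n then y (i + 1) else y' (i + 1 - n)) < ε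
    by_cases h : i < n
    · rw [if_pos h]
      by_cases h' : i + 1 < n
      · rw [if_pos h']
        exact hy i h
      · have h3 : i + 1 = n := by omega
        rw [if_neg h', h3, Nat.sub_self, y0', ← yn, ← h3]
        exact hy i h
    · rw [if_neg h, if_neg (by omega), show i + 1 - n = i - n + 1 by omega]
      exact hy' (i - n) (by omega)

/-- the flow is uniformly close to the identity for small times -/
theorem small [MetricSpace N] [CompactSpace N] (hc : Continuous fun q : ℝ × N => ψ q.1 q.2)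
    (h0 : ∀ y, ψ 0 y = y) {ε : ℝ} (hε : 0 < ε) :
    ∃ κ : ℝ, 0 < κ ∧ ∀ s : ℝ, |s| ≤ κ → ∀ y, dist y (ψ s y) < ε := by
  have hopen : IsOpen {q : ℝ × N | dist q.2 (ψ q.1 q.2) < ε} :=
    isOpen_lt (continuous_snd.dist hc) continuous_const
  obtain ⟨u, v, hu, hv, hu0, hv0, huv⟩ := generalized_tube_lemma (isCompact_singleton (x := (0 : ℝ)))
    (isCompact_univ (X := N)) hopen (by
      rintro ⟨s, y⟩ ⟨hs, -⟩
      rw [mem_singleton_iff] at hs
      simp only at hs
      show dist y (ψ s y) < ε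
      rw [hs, h0, dist_self]
      exact hε)
  obtain ⟨r, hr, hr1⟩ := Metric.isOpen_iff.1 hu 0 (hu0 rfl)
  refine ⟨r / 2, by linarith, fun s hs y => ?_⟩
  have h1 : s ∈ u := hr1 (by
    rw [Metric.mem_ball, Real.dist_eq, sub_zero]
    linarith)
  exact huv (show ((s, y) : ℝ × N) ∈ u ×ˢ v from ⟨h1, hv0 (mem_univ y)⟩)

/-- one step -/
theorem one [MetricSpace N] [MetricSpace B] (C : Circ ψ F ρ π f) {ε κ : ℝ}
    (hκ : ∀ s : ℝ, |s| ≤ κ → ∀ y, dist y (ψ s y) < ε / 2) {a b : N} {r : ℝ} (hr : |r| ≤ κ)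
    (hab : b = ψ r a) (ha : ∃ s : ℝ, |s| ≤ κ ∧ ∃ k : ℕ, 1 ≤ k ∧ (fun y => ψ s (F y))^[k] a = a) :
    EC F ε a b := by
  obtain ⟨s, hs, k, hk, hka⟩ := ha
  have hb : dist a b < ε / 2 := by
    rw [hab]
    exact hκ r hr a
  have hε : 0 < ε := by
    have := dist_nonneg (x := a) (y := b)
    linarith
  refine ⟨fun i => if i < k then (fun y => ψ s (F y))^[i] a else b, k, hk, ?_, ?_, ?_⟩
  · show (if 0 < k then (fun y => ψ s (F y))^[0] a else b) = a
    rw [if_pos (by omega)]
    rfl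
  · show (if k < k then (fun y => ψ s (F y))^[k] a else b) = b
    rw [if_neg (lt_irrefl k)]
  · intro i hi
    show dist (F (if i < k then (fun y => ψ s (F y))^[i] a else b))
      (if i + 1 < k then (fun y => ψ s (F y))^[i + 1] a else b) < ε
    rw [if_pos hi]
    have h1 := hκ s hs (F ((fun y => ψ s (F y))^[i] a))
    by_cases h : i + 1 < k
    · rw [if_pos h, Function.iterate_succ_apply']
      linarith
    · have h2 : i + 1 = k := by omega
      rw [if_neg h]
      have h3 : ψ s (F ((fun y => ψ s (F y))^[i] a)) = a := by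
        have := Function.iterate_succ_apply' (fun y => ψ s (F y)) i a
        rw [← this, Nat.succ_eq_add_one, h2]
        exact hka
      rw [h3] at h1
      have := dist_triangle (F ((fun y => ψ s (F y))^[i] a)) a b
      linarith

end Walk

open Walk in
theorem walk [MetricSpace N] [CompactSpace N] [MetricSpace B] [CompactSpace B]
    (C : Circ ψ F ρ π f) {ε : ℝ} (hε : 0 < ε) : ∃ κ : ℝ, 0 < κ ∧ ∀ (p : N) (t : ℝ),
      (∀ z ∈ uIcc 0 t, ∃ s : ℝ, |s| ≤ κ ∧ ∃ k : ℕ, 1 ≤ k ∧
        (fun y => ψ s (F y))^[k] (ψ z p) = ψ z p) →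
      EC F ε p (ψ t p) ∧ EC F ε (ψ t p) p := by
  obtain ⟨κ, hκ, hsmall⟩ := small C.cont C.act.zero (by linarith : 0 < ε / 2)
  refine ⟨κ, hκ, fun p t h => ?_⟩
  obtain ⟨n, hn⟩ := exists_nat_gt (|t| / κ)
  have hn0 : (0 : ℝ) < n := lt_of_le_of_lt (by positivity) hn
  have hn1 : 1 ≤ n := by
    have : (0 : ℝ) < n := hn0
    exact_mod_cast this
  have hstep : |t / n| ≤ κ := by
    rw [abs_div, abs_of_pos hn0, div_le_iff₀ hn0]
    rw [div_lt_iff₀ hκ] at hn
    linarith
  have hmem : ∀ i : ℕ, i ≤ n → (i : ℝ) * (t / n) ∈ uIcc 0 t := by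
    intro i hi
    have hi' : (i : ℝ) ≤ n := by exact_mod_cast hi
    have h1 : (i : ℝ) * (t / n) = (i / n) * t := by ring
    have h2 : (0 : ℝ) ≤ i / n := by positivity
    have h3 : (i : ℝ) / n ≤ 1 := by rw [div_le_one hn0]; exact hi'
    rw [h1]
    rcases le_total 0 t with ht | ht
    · rw [uIcc_of_le ht]
      exact ⟨by positivity, by nlinarith⟩
    · rw [uIcc_of_ge ht]
      exact ⟨by nlinarith, by nlinarith⟩
  have hfwd : ∀ i < n, EC F ε (ψ ((i : ℝ) * (t / n)) p) (ψ (((i + 1 : ℕ) : ℝ) * (t / n)) p) := by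
    intro i hi
    refine one C hsmall hstep ?_ (h _ (hmem i hi.le))
    rw [← C.act.add]
    congr 1
    push_cast
    ring
  have hbwd : ∀ i < n, EC F ε (ψ (((i + 1 : ℕ) : ℝ) * (t / n)) p) (ψ ((i : ℝ) * (t / n)) p) := by
    intro i hi
    refine one C hsmall (r := -(t / n)) (by rw [abs_neg]; exact hstep) ?_ (h _ (hmem (i + 1) hi))
    rw [← C.act.add]
    congr 1
    push_cast
    ring
  have key : ∀ i : ℕ, 1 ≤ i → i ≤ n →
      EC F ε (ψ (((0 : ℕ) : ℝ) * (t / n)) p) (ψ ((i : ℝ) * (t / n)) p) ∧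
        EC F ε (ψ ((i : ℝ) * (t / n)) p) (ψ (((0 : ℕ) : ℝ) * (t / n)) p) := by
    intro i hi
    induction i, hi using Nat.le_induction with
    | base => intro h1; exact ⟨hfwd 0 (by omega), hbwd 0 (by omega)⟩
    | succ i hi ih =>
      intro h1
      obtain ⟨h2, h3⟩ := ih (by omega)
      exact ⟨ec_trans h2 (hfwd i (by omega)), ec_trans (hbwd i (by omega)) h3⟩
  have h1 := key n hn1 le_rfl
  have e0 : ψ (((0 : ℕ) : ℝ) * (t / n)) p = p := by
    rw [Nat.cast_zero, zero_mul, C.act.zero]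
  have e1 : (n : ℝ) * (t / n) = t := by field_simp
  rwa [e0, e1] at h1

end Pool.Agent.J4.H98.SP
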