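import Pool.Agent.J4.H98.SP.Pt
import Pool.Agent.J4.H98.SP.Br
import Pool.Agent.J4.H98.SP.Walk

/-!
# Chain recurrent points are chain equivalent to limits of periodic points
-/

set_option autoImplicit false
set_option linter.unusedSectionVars false

open Filter Set Topology

universe u v

namespace Pool.Agent.J4.H98.SP

open Pool.Agent.J4.H85.IS Pool.Agent.J4.H85.LE

variable {N : Type u} {B : Type v} {ψ : ℝ → N → N} {F : N → N} {ρ : N → ℝ} {π : N → B} {f : B → B}

namespace Crp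

theorem ec_mono [MetricSpace N] {ε ε' : ℝ} {a b : N} (h : EC F ε a b) (hε : ε ≤ ε') :
    EC F ε' a b := by
  obtain ⟨y, n, hn, y0, yn, hy⟩ := h
  exact ⟨y, n, hn, y0, yn, fun i hi => (hy i hi).trans_le hε⟩

theorem ec_last [MetricSpace N] {ε ε' : ℝ} {a b b' : N} (h : EC F ε a b) (hb : dist b b' ≤ ε') :
    EC F (ε + ε') a b' := by
  obtain ⟨y, n, hn, y0, yn, hy⟩ := h
  have hε' : 0 ≤ ε' := dist_nonneg.trans hb
  refine ⟨fun i => if i < n then y i else b', n, hn, ?_, ?_, ?_⟩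
  · show (if 0 < n then y 0 else b') = a
    rw [if_pos (by omega), y0]
  · show (if n < n then y n else b') = b'
    rw [if_neg (lt_irrefl _)]
  · intro i hi
    show dist (F (if i < n then y i else b')) (if i + 1 < n then y (i + 1) else b') < ε + ε'
    rw [if_pos hi]
    by_cases h : i + 1 < n
    · rw [if_pos h]
      linarith [hy i hi]
    · rw [if_neg h]
      have h2 : i + 1 = n := by omega
      have h3 := hy i hi
      rw [h2, yn] at h3
      have := dist_triangle (F (y i)) b b'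
      linarith

theorem ec_first [MetricSpace N] {ε ε' : ℝ} {a a' b : N} (h : EC F ε a b)
    (ha : dist (F a') (F a) ≤ ε') : EC F (ε + ε') a' b := by
  obtain ⟨y, n, hn, y0, yn, hy⟩ := h
  have hε' : 0 ≤ ε' := dist_nonneg.trans ha
  refine ⟨fun i => if i = 0 then a' else y i, n, hn, ?_, ?_, ?_⟩
  · show (if 0 = 0 then a' else y 0) = a'
    rw [if_pos rfl]
  · show (if n = 0 then a' else y n) = b
    rw [if_neg (by omega), yn]
  · intro i hi
    show dist (F (if i = 0 then a' else y i)) (if i + 1 = 0 then a' else y (i + 1)) < ε + ε'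
    rw [if_neg (by omega : ¬ i + 1 = 0)]
    by_cases h : i = 0
    · rw [if_pos h, h]
      have h3 := hy 0 (by omega)
      rw [y0] at h3
      have := dist_triangle (F a') (F a) (y (0 + 1))
      linarith
    · rw [if_neg h]
      linarith [hy i hi]

/-- a closed chain, made periodic -/
theorem periodic [MetricSpace N] {η : ℝ} {x : N} (h : EC F η x x) :
    ∃ (y : ℕ → N) (M : ℕ), 1 ≤ M ∧ (∀ i, y (i + M) = y i) ∧ y 0 = x ∧
      ∀ i, dist (F (y i)) (y (i + 1)) < η := by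
  obtain ⟨z, n, hn, z0, zn, hz⟩ := h
  refine ⟨fun i => z (i % n), n, hn, fun i => ?_, ?_, fun i => ?_⟩
  · show z ((i + n) % n) = z (i % n)
    rw [Nat.add_mod_right]
  · show z (0 % n) = x
    rw [Nat.zero_mod, z0]
  · show dist (F (z (i % n))) (z ((i + 1) % n)) < η
    have h1 : i % n < n := Nat.mod_lt _ (by omega)
    have h2 : (i + 1) % n = (i % n + 1) % n := (Nat.mod_add_mod i n 1).symm
    by_cases h : i % n + 1 < n
    · rw [h2, Nat.mod_eq_of_lt h]
      exact hz _ h1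
    · have h3 : i % n + 1 = n := by omega
      have h4 := hz _ h1
      rw [h3, zn] at h4
      rw [h2, h3, Nat.mod_self, z0]
      exact h4

/-- for every `ε` there is a periodic point in the `ε`-chain class -/
theorem key [MetricSpace N] [CompactSpace N] [MetricSpace B] [CompactSpace B]
    (C : Circ ψ F ρ π f) (hS : PeriodicShadowing f) {δ : ℝ} (hδ : 0 < δ) (hnd : NDN ψ F ρ δ)
    {x : N} (hx : ∀ ε : ℝ, 0 < ε → EC F ε x x) {ε : ℝ} (hε : 0 < ε) :
    ∃ Q ∈ {p | ∃ k, 1 ≤ k ∧ F^[k] p = p}, EC F ε x Q ∧ EC F ε Q x := by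
  obtain ⟨κ, hκ, hwalk⟩ := walk C hε
  have hFu : UniformContinuous F := CompactSpace.uniformContinuous_of_continuous C.contF
  obtain ⟨d, hd, hFd⟩ := Metric.uniformContinuous_iff.1 hFu (ε / 2) (by linarith)
  obtain ⟨ε', hε', hε'κ, hε'δ, hε'd, hε'ε⟩ : ∃ ε' : ℝ, 0 < ε' ∧ ε' ≤ κ ∧ ε' < δ ∧ ε' ≤ d ∧
      ε' ≤ ε / 2 := by
    refine ⟨min (min κ (δ / 2)) (min d (ε / 2)), ?_, ?_, ?_, ?_, ?_⟩
    · exact lt_min (lt_min hκ (by linarith)) (lt_min hd (by linarith))
    · exact (min_le_left _ _).trans (min_le_left _ _)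
    · exact ((min_le_left _ _).trans (min_le_right _ _)).trans_lt (by linarith)
    · exact (min_le_right _ _).trans (min_le_left _ _)
    · exact (min_le_right _ _).trans (min_le_right _ _)
  obtain ⟨η, hη, hsh⟩ := shadow_tr C hS hε'
  have hη2 : 0 < min η (ε / 2) := lt_min hη (by linarith)
  have hxx := hx _ hη2
  obtain ⟨y, M, hM, hper, hy0, hy⟩ := periodic hxx
  obtain ⟨X, e, T, hXy⟩ := hsh y M hM hper fun i => (hy i).trans_le (min_le_left _ _)
  have hX0 : dist (X 0) x < ε' := by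
    rw [← hy0]
    exact hXy 0
  have h1 : EC F ε x (X 0) := by
    refine ec_mono (ec_last (ec_mono hxx (min_le_right _ _)) (b' := X 0) (ε' := ε / 2) ?_)
      (by linarith)
    rw [dist_comm]
    linarith
  have h2 : EC F ε (X 0) x := by
    refine ec_mono (ec_first (ec_mono hxx (min_le_right _ _)) (a' := X 0) (ε' := ε / 2) ?_)
      (by linarith)
    exact (hFd (hX0.trans_le hε'd)).le
  have hCh := fm_ch C T
  have hlev0 : |lev (fm ψ ρ X e) M 0| ≤ ε' := level_small hCh fun i => by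
    rw [fm_zero]
    exact T.small i
  have hreg := reg (fm ψ ρ X e) hCh (nd_of_ndn C hnd X _ M hCh (fm_maps C T) (by
    have := T.perx 0
    rwa [zero_add] at this))
  obtain ⟨t, ht0, ht⟩ := branch hreg (fun t => lev_per hCh t) (hlev0.trans_lt hε'δ)
  have hw := hwalk (X 0) t fun z hz => ⟨lev (fm ψ ρ X e) M z, ((ht z hz).trans hlev0).trans hε'κ,
    M, hM, pt_fix C T z⟩
  exact ⟨ψ t (X 0), ⟨M, hM, per_of C T ht0⟩, Walk.ec_trans h1 hw.1, Walk.ec_trans hw.2 h2⟩

end Crp

open Crp in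
theorem cr_per [MetricSpace N] [CompactSpace N] [MetricSpace B] [CompactSpace B]
    (C : Circ ψ F ρ π f) (hS : PeriodicShadowing f) {δ : ℝ} (hδ : 0 < δ) (hnd : NDN ψ F ρ δ)
    {x : N} (hx : ∀ ε : ℝ, 0 < ε → EC F ε x x) :
    ∃ Q ∈ closure {p | ∃ k, 1 ≤ k ∧ F^[k] p = p}, ∀ ε : ℝ, 0 < ε → EC F ε x Q ∧ EC F ε Q x := by
  have hk : ∀ n : ℕ, ∃ Q ∈ {p | ∃ k, 1 ≤ k ∧ F^[k] p = p},
      EC F (1 / ((n : ℝ) + 1)) x Q ∧ EC F (1 / ((n : ℝ) + 1)) Q x := fun n =>
    key C hS hδ hnd hx (by positivity)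
  choose Q hQ hQ1 hQ2 using hk
  obtain ⟨a, -, φ, hφ, hlim⟩ := isCompact_univ.tendsto_subseq (x := Q) fun n => mem_univ _
  refine ⟨a, mem_closure_of_tendsto hlim (Eventually.of_forall fun n => hQ (φ n)), fun ε hε => ?_⟩
  have hFu : UniformContinuous F := CompactSpace.uniformContinuous_of_continuous C.contF
  obtain ⟨d, hd, hFd⟩ := Metric.uniformContinuous_iff.1 hFu (ε / 2) (by linarith)
  have e1 : ∀ᶠ n in atTop, dist (Q (φ n)) a < min d (ε / 2) :=
    (Metric.tendsto_nhds.1 hlim) _ (lt_min hd (by linarith))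
  have e2 : ∀ᶠ n : ℕ in atTop, 1 / ((φ n : ℝ) + 1) < ε / 2 :=
    (tendsto_one_div_add_atTop_nhds_zero_nat.comp hφ.tendsto_atTop).eventually
      (gt_mem_nhds (by linarith))
  obtain ⟨n, hn1, hn2⟩ := (e1.and e2).exists
  constructor
  · exact ec_mono (ec_last (ec_mono (hQ1 (φ n)) hn2.le) (hn1.trans_le (min_le_right _ _)).le)
      (by linarith)
  · refine ec_mono (ec_first (ec_mono (hQ2 (φ n)) hn2.le) (a' := a) (ε' := ε / 2) ?_) (by linarith)
    refine (hFd ?_).le
    rw [dist_comm]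
    exact hn1.trans_le (min_le_left _ _)

end Pool.Agent.J4.H98.SP
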