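import Pool.Agent.J4.H98.SP.MixDefs
/-! helper98, PROJECT SP, piece CYCINV (by helper18). -/
set_option autoImplicit false
open Filter Set Topology
universe u v
namespace Pool.Agent.J4.H98.SP

namespace CycInv

theorem per_mul {α : Type u} {T : ℕ → α} {m : ℕ} (h : ∀ j, T (j + m) = T j) (j c : ℕ) :
    T (j + c * m) = T j := by
  induction c with
  | zero => simp
  | succ c ih => rw [Nat.succ_mul, ← add_assoc, h, ih]

theorem per_mod {α : Type u} {T : ℕ → α} {m : ℕ} (h : ∀ j, T (j + m) = T j) {a b : ℕ}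
    (hab : a ≡ b [MOD m]) : T a = T b := by
  rw [← Nat.mod_add_div a m, ← Nat.mod_add_div b m, mul_comm m, mul_comm m, per_mul h, per_mul h, hab]

theorem mod_sq {m : ℕ} (hm : 1 ≤ m) (j : ℕ) : j * (m - 1) * (m - 1) ≡ j [MOD m] := by
  obtain ⟨k, rfl⟩ : ∃ k, m = k + 1 := ⟨m - 1, by omega⟩
  rw [Nat.add_sub_cancel, ← ZMod.natCast_eq_natCast_iff]
  have h1 : ((k : ℕ) : ZMod (k + 1)) = -1 := by
    have : ((k + 1 : ℕ) : ZMod (k + 1)) = 0 := ZMod.natCast_self (k + 1)
    push_cast at this
    exact eq_neg_of_add_eq_zero_left this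
  push_cast
  rw [h1]
  ring

end CycInv

/-! `T' j := T (j * (m - 1))`, since `j (m - 1) ≡ -j` mod `m`; `T k = T (k % m)`. Mixing of `F` on `T' j` for `(U, V)` from mixing of `G` for `(V, U)`:
if `x ∈ V ∩ T i`, `G^[n*m] x ∈ U` then `y = G^[n*m] x ∈ U ∩ T i` and `F^[n*m] y = x`. -/
theorem cyclic_inv {N : Type u} [TopologicalSpace N] {F G : N → N} (h1 : ∀ y, F (G y) = y)
    (h2 : ∀ y, G (F y) = y) {S : Set N} {m : ℕ} {T : ℕ → Set N} (h : CyclicMixing G S m T) :
    ∃ T' : ℕ → Set N, CyclicMixing F S m T' := by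
  have hF : ∀ j, F '' T (j + 1) = T j := by
    intro j
    rw [← h.image j, Set.image_image]
    simp [h1]
  have hF' : ∀ k, F '' T k = T (k + (m - 1)) := by
    intro k
    have hk : k + m = k + (m - 1) + 1 := by have := h.one; omega
    rw [← h.per k, hk, hF]
  have hG : ∀ (k i : ℕ) (x : N), x ∈ T i → G^[k] x ∈ T (i + k) := by
    intro k
    induction k with
    | zero => intro i x hx; simpa using hx
    | succ k ih =>
      intro i x hx
      rw [Function.iterate_succ_apply]
      have h3 : G x ∈ T (i + 1) := by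
        rw [← h.image i]
        exact Set.mem_image_of_mem G hx
      have h4 := ih (i + 1) (G x) h3
      rw [show i + (k + 1) = i + 1 + k by ring]
      exact h4
  refine ⟨fun j => T (j * (m - 1)), ?_⟩
  refine ⟨h.one, ?_, ?_, ?_, ?_, ?_, ?_⟩
  · intro j
    show T ((j + m) * (m - 1)) = T (j * (m - 1))
    rw [add_mul, mul_comm m (m - 1), CycInv.per_mul h.per]
  · intro j
    exact h.closed _
  · intro j
    show F '' T (j * (m - 1)) = T ((j + 1) * (m - 1))
    rw [hF', add_mul, one_mul]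
  · rw [← h.union]
    apply Set.Subset.antisymm
    · exact Set.iUnion_subset fun j => Set.subset_iUnion T (j * (m - 1))
    · refine Set.iUnion_subset fun j => ?_
      have h3 : T (j * (m - 1) * (m - 1)) = T j := CycInv.per_mod h.per (CycInv.mod_sq h.one j)
      rw [← h3]
      exact Set.subset_iUnion (fun j => T (j * (m - 1))) (j * (m - 1))
  · intro i j hi hj hij
    show Disjoint (T (i * (m - 1))) (T (j * (m - 1)))
    have e1 : T (i * (m - 1)) = T (i * (m - 1) % m) :=
      CycInv.per_mod h.per (Nat.mod_modEq _ _).symm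
    have e2 : T (j * (m - 1)) = T (j * (m - 1) % m) :=
      CycInv.per_mod h.per (Nat.mod_modEq _ _).symm
    rw [e1, e2]
    have hm : 0 < m := h.one
    refine h.disjoint _ _ (Nat.mod_lt _ hm) (Nat.mod_lt _ hm) ?_
    intro hcon
    apply hij
    have h3 : i * (m - 1) ≡ j * (m - 1) [MOD m] := hcon
    have h4 := h3.mul_right (m - 1)
    have h5 : i ≡ j [MOD m] := ((CycInv.mod_sq h.one i).symm.trans h4).trans (CycInv.mod_sq h.one j)
    exact Nat.ModEq.eq_of_lt_of_lt h5 hi hj
  · intro j U V hU hV hUj hVj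
    obtain ⟨n₀, hn₀⟩ := h.mixing (j * (m - 1)) V U hV hU hVj hUj
    refine ⟨n₀, fun n hn => ?_⟩
    obtain ⟨x, hx, hxU⟩ := hn₀ n hn
    refine ⟨G^[n * m] x, ⟨hxU, ?_⟩, ?_⟩
    · have h3 := hG (n * m) _ x hx.2
      rw [CycInv.per_mul h.per] at h3
      exact h3
    · have h3 : F^[n * m] (G^[n * m] x) = x := Function.LeftInverse.iterate h1 (n * m) x
      rw [h3]
      exact hx.1

end Pool.Agent.J4.H98.SP
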