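import Mathlib
import Pool.Agent.J4.H98.SP.Defs

/-! Project SP (helper98), piece DEC: finitely many classes of periodic points, the decomposition into basic pieces. -/

set_option autoImplicit false
set_option linter.unusedSectionVars false

open Filter Set Topology

universe u v

namespace Pool.Agent.J4.H98.SP.D

variable {N : Type u} {F : N → N}

lemma iter_mem {A : Set N} (hinv : ∀ p ∈ A, F p ∈ A) {p : N} (hp : p ∈ A) (n : ℕ) : F^[n] p ∈ A := by
  induction n with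
  | zero => exact hp
  | succ n ih =>
    rw [Function.iterate_succ_apply']
    exact hinv _ ih

lemma iter_per {p : N} {k : ℕ} (h : F^[k] p = p) (n : ℕ) : F^[n * k] p = p := by
  rw [mul_comm, Function.iterate_mul]
  exact Function.iterate_fixed h n

lemma conn_iter [MetricSpace N] {A : Set N} {p : N} (hp : p ∈ A) (n : ℕ) :
    Conn F A p (F^[n] p) := by
  intro ε hε
  exact ⟨p, hp, n, by rwa [dist_self], by rwa [dist_self]⟩

lemma conn_symm [MetricSpace N] {A : Set N} (hper : ∀ p ∈ A, ∃ k, 1 ≤ k ∧ F^[k] p = p)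
    (hinv : ∀ p ∈ A, F p ∈ A) {P Q : N} (h : Conn F A P Q) : Conn F A Q P := by
  intro ε hε
  obtain ⟨R, hR, n, h1, h2⟩ := h ε hε
  obtain ⟨k, hk, hkR⟩ := hper R hR
  refine ⟨F^[n] R, iter_mem hinv hR n, n * (k - 1), h2, ?_⟩
  rw [← Function.iterate_add_apply]
  have e : n * (k - 1) + n = n * k := by
    obtain ⟨k, rfl⟩ : ∃ l, k = l + 1 := ⟨k - 1, by omega⟩
    rw [Nat.add_sub_cancel]
    ring
  rw [e, iter_per hkR]
  exact h1

lemma conn_trans [MetricSpace N] (hc : Continuous F) {A : Set N}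
    (hper : ∀ p ∈ A, ∃ k, 1 ≤ k ∧ F^[k] p = p) (hinv : ∀ p ∈ A, F p ∈ A) {κ : ℝ} (hκ : 0 < κ)
    (hconn : ∀ P ∈ A, ∀ Q ∈ A, dist P Q < κ → Conn F A P Q) {P Q S : N}
    (h1 : Conn F A P Q) (h2 : Conn F A Q S) : Conn F A P S := by
  intro ε hε
  obtain ⟨ε', hε', hε2, hε3⟩ : ∃ ε' : ℝ, 0 < ε' ∧ ε' + ε' ≤ ε ∧ ε' + ε' ≤ κ :=
    ⟨min ε κ / 2, by positivity, by linarith [min_le_left ε κ], by linarith [min_le_right ε κ]⟩
  obtain ⟨R, hR, n, hR1, hR2⟩ := h1 ε' hε'
  obtain ⟨T, hT, m, hT1, hT2⟩ := h2 ε' hε'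
  obtain ⟨k, hk, hkR⟩ := hper R hR
  have hRA := iter_mem hinv hR n
  have hd : dist (F^[n] R) T < κ := by
    have := dist_triangle (F^[n] R) Q T
    rw [dist_comm Q T] at this
    linarith
  -- continuity of the iterates
  have ha := Metric.continuous_iff.1 (hc.iterate (n * (k - 1))) (F^[n] R) ε' hε'
  have hb := Metric.continuous_iff.1 (hc.iterate m) T ε' hε'
  obtain ⟨η₁, hη₁, ha⟩ := ha
  obtain ⟨η₂, hη₂, hb⟩ := hb
  obtain ⟨U, hU, l, hU1, hU2⟩ := hconn _ hRA _ hT hd (min η₁ η₂) (lt_min hη₁ hη₂)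
  obtain ⟨K, hK, hKU⟩ := hper U hU
  have e : n * (k - 1) + n = n * k := by
    obtain ⟨k, rfl⟩ : ∃ l, k = l + 1 := ⟨k - 1, by omega⟩
    rw [Nat.add_sub_cancel]
    ring
  have hRk : F^[n * (k - 1)] (F^[n] R) = R := by
    rw [← Function.iterate_add_apply, e, iter_per hkR]
  refine ⟨F^[n * (k - 1)] U, iter_mem hinv hU _, m + l + n * (k - 1) * (K - 1), ?_, ?_⟩
  · have h3 := ha U (hU1.trans_le (min_le_left _ _))
    rw [hRk] at h3
    have := dist_triangle (F^[n * (k - 1)] U) R P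
    linarith
  · rw [← Function.iterate_add_apply]
    have e2 : m + l + n * (k - 1) * (K - 1) + n * (k - 1) = m + (l + n * (k - 1) * K) := by
      obtain ⟨K, rfl⟩ : ∃ l, K = l + 1 := ⟨K - 1, by omega⟩
      rw [Nat.add_sub_cancel]
      ring
    rw [e2, Function.iterate_add_apply, Function.iterate_add_apply F l, iter_per hKU]
    have h3 := hb (F^[l] U) (hU2.trans_le (min_le_right _ _))
    have := dist_triangle (F^[m] (F^[l] U)) (F^[m] T) S
    linarith

end Pool.Agent.J4.H98.SP.D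

namespace Pool.Agent.J4.H98.SP

variable {N : Type u} {F : N → N}

theorem decompose [MetricSpace N] [CompactSpace N] (hc : Continuous F) {A : Set N}
    (hper : ∀ p ∈ A, ∃ k, 1 ≤ k ∧ F^[k] p = p) (hinv : ∀ p ∈ A, F p ∈ A) {κ : ℝ} (hκ : 0 < κ)
    (hconn : ∀ P ∈ A, ∀ Q ∈ A, dist P Q < κ → Conn F A P Q) :
    (∀ P ∈ A, ∀ Q ∈ A, Conn F A P Q → Conn F A Q P) ∧
    (∀ P ∈ A, ∀ Q ∈ A, ∀ S ∈ A, Conn F A P Q → Conn F A Q S → Conn F A P S) ∧
    ∃ (k : ℕ) (Λ : Fin k → Set N), (∀ i, Basic F (Λ i)) ∧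
      (∀ i j, i ≠ j → ∀ x ∈ Λ i, ∀ y ∈ Λ j, κ ≤ dist x y) ∧ (⋃ i, Λ i) = closure A ∧
      (∀ i, Λ i = closure (Λ i ∩ A)) ∧
      ∀ i, ∀ P ∈ A, ∀ Q ∈ A, P ∈ Λ i → (Conn F A P Q ↔ Q ∈ Λ i) := by
  classical
  have hsym : ∀ P Q, Conn F A P Q → Conn F A Q P := fun P Q h => D.conn_symm hper hinv h
  have htr : ∀ P Q S, Conn F A P Q → Conn F A Q S → Conn F A P S :=
    fun P Q S h1 h2 => D.conn_trans hc hper hinv hκ hconn h1 h2
  refine ⟨fun P _ Q _ h => hsym P Q h, fun P _ Q _ S _ h1 h2 => htr P Q S h1 h2, ?_⟩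
  -- the classes
  let s : Setoid A :=
    { r := fun P Q => Conn F A P.1 Q.1
      iseqv :=
        { refl := fun P => hconn P.1 P.2 P.1 P.2 (by rwa [dist_self])
          symm := fun h => hsym _ _ h
          trans := fun h1 h2 => htr _ _ _ h1 h2 } }
  have hfin : Finite (Quotient s) := by
    have htb : TotallyBounded (univ : Set N) := isCompact_univ.totallyBounded
    obtain ⟨t, ht, hcov⟩ := Metric.totallyBounded_iff.1 htb (κ / 2) (by positivity)
    have h1 : ∀ c : Quotient s, ∃ y ∈ t, dist c.out.1 y < κ / 2 := by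
      intro c
      have := hcov (mem_univ c.out.1)
      simp only [mem_iUnion, Metric.mem_ball, exists_prop] at this
      exact this
    choose g hg hgd using h1
    have := ht.to_subtype
    refine Finite.of_injective (fun c => (⟨g c, hg c⟩ : t)) ?_
    intro c c' hcc
    have h2 : g c = g c' := congrArg Subtype.val hcc
    have h3 : dist c.out.1 c'.out.1 < κ := by
      have h4 := hgd c
      have h5 := hgd c'
      rw [← h2, dist_comm] at h5
      linarith [dist_triangle c.out.1 (g c) c'.out.1]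
    have h4 : Conn F A c.out.1 c'.out.1 := hconn _ c.out.2 _ c'.out.2 h3
    have h5 : (⟦c.out⟧ : Quotient s) = ⟦c'.out⟧ := Quotient.sound h4
    rwa [Quotient.out_eq, Quotient.out_eq] at h5
  obtain ⟨k, ⟨e⟩⟩ := Finite.exists_equiv_fin (Quotient s)
  obtain ⟨C, hC⟩ : ∃ C : Fin k → Set N, C = fun i => {P | ∃ h : P ∈ A, e ⟦⟨P, h⟩⟧ = i} := ⟨_, rfl⟩
  have hCmem : ∀ i P, P ∈ C i ↔ ∃ h : P ∈ A, e ⟦⟨P, h⟩⟧ = i := by
    intro i P
    rw [hC]
    rfl
  have hCA : ∀ i, C i ⊆ A := fun i P hP => ((hCmem i P).1 hP).1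
  have hCiff : ∀ i, ∀ P ∈ C i, ∀ Q ∈ A, (Conn F A P Q ↔ Q ∈ C i) := by
    intro i P hP Q hQ
    obtain ⟨hPA, hPi⟩ := (hCmem i P).1 hP
    rw [hCmem]
    constructor
    · intro h
      refine ⟨hQ, ?_⟩
      rw [← hPi]
      have : (⟦⟨P, hPA⟩⟧ : Quotient s) = ⟦⟨Q, hQ⟩⟧ := Quotient.sound h
      rw [this]
    · rintro ⟨_, h⟩
      rw [← hPi] at h
      have := e.injective h
      exact hsym _ _ (Quotient.exact this)
  have hCcov : ∀ P ∈ A, ∃ i, P ∈ C i := fun P hP => ⟨e ⟦⟨P, hP⟩⟧, (hCmem _ P).2 ⟨hP, rfl⟩⟩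
  have hCne : ∀ i, (C i).Nonempty := by
    intro i
    refine ⟨(e.symm i).out.1, (hCmem _ _).2 ⟨(e.symm i).out.2, ?_⟩⟩
    have : (⟦(e.symm i).out⟧ : Quotient s) = e.symm i := Quotient.out_eq _
    rw [Subtype.coe_eta, this, Equiv.apply_symm_apply]
  have hCsep : ∀ i j, i ≠ j → ∀ P ∈ C i, ∀ Q ∈ C j, κ ≤ dist P Q := by
    intro i j hij P hP Q hQ
    by_contra hcon
    push Not at hcon
    have h1 := (hCiff i P hP Q (hCA j hQ)).1 (hconn P (hCA i hP) Q (hCA j hQ) hcon)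
    obtain ⟨_, h2⟩ := (hCmem i Q).1 h1
    obtain ⟨_, h3⟩ := (hCmem j Q).1 hQ
    exact hij (h2.symm.trans h3)
  have hCinv : ∀ i, F '' (C i) = C i := by
    intro i
    ext Q
    constructor
    · rintro ⟨P, hP, rfl⟩
      exact (hCiff i P hP _ (hinv P (hCA i hP))).1 (D.conn_iter (hCA i hP) 1)
    · intro hQ
      obtain ⟨m, hm, hmQ⟩ := hper Q (hCA i hQ)
      refine ⟨F^[m - 1] Q, (hCiff i Q hQ _ (D.iter_mem hinv (hCA i hQ) _)).1
        (D.conn_iter (hCA i hQ) _), ?_⟩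
      rw [← Function.iterate_succ_apply' F, Nat.succ_eq_add_one, Nat.sub_add_cancel hm]
      exact hmQ
  have hsep : ∀ i j, i ≠ j → ∀ x ∈ closure (C i), ∀ y ∈ closure (C j), κ ≤ dist x y := by
    intro i j hij x hx y hy
    by_contra hcon
    push Not at hcon
    obtain ⟨P, hP, hP2⟩ := Metric.mem_closure_iff.1 hx ((κ - dist x y) / 2) (by linarith)
    obtain ⟨Q, hQ, hQ2⟩ := Metric.mem_closure_iff.1 hy ((κ - dist x y) / 2) (by linarith)
    have h1 := hCsep i j hij P hP Q hQ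
    have h2 := dist_triangle P x Q
    have h3 := dist_triangle x y Q
    rw [dist_comm P x] at h2
    linarith
  have hAC : ∀ i, ∀ P ∈ A, P ∈ closure (C i) → P ∈ C i := by
    intro i P hP hPi
    obtain ⟨j, hj⟩ := hCcov P hP
    by_cases hij : i = j
    · rw [hij]
      exact hj
    · have := hsep i j hij P hPi P (subset_closure hj)
      rw [dist_self] at this
      linarith
  refine ⟨k, fun i => closure (C i), ?_, hsep, ?_, ?_, ?_⟩
  · intro i
    refine ⟨isClosed_closure, (hCne i).closure, ?_, ?_⟩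
    · rw [← hc.isClosedMap.closure_image_eq_of_continuous hc, hCinv]
    · rintro U V hU hV ⟨x, hxU, hx⟩ ⟨y, hyV, hy⟩
      obtain ⟨P, hPU, hP⟩ := mem_closure_iff.1 hx U hU hxU
      obtain ⟨Q, hQV, hQ⟩ := mem_closure_iff.1 hy V hV hyV
      obtain ⟨ε₁, hε₁, h1⟩ := Metric.isOpen_iff.1 hU P hPU
      obtain ⟨ε₂, hε₂, h2⟩ := Metric.isOpen_iff.1 hV Q hQV
      have h3 : Conn F A P Q := (hCiff i P hP Q (hCA i hQ)).2 hQ
      obtain ⟨R, hR, n, hR1, hR2⟩ := h3 (min (min ε₁ ε₂) κ) (lt_min (lt_min hε₁ hε₂) hκ)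
      have hRκ : dist R P < κ := hR1.trans_le (min_le_right _ _)
      refine ⟨R, ⟨h1 ?_, subset_closure ?_⟩, n, h2 ?_⟩
      · exact Metric.mem_ball.2 (hR1.trans_le ((min_le_left _ _).trans (min_le_left _ _)))
      · refine (hCiff i P hP R hR).1 (hconn P (hCA i hP) R hR ?_)
        rwa [dist_comm]
      · exact Metric.mem_ball.2 (hR2.trans_le ((min_le_left _ _).trans (min_le_right _ _)))
  · rw [← closure_iUnion_of_finite]
    congr 1
    ext P
    rw [mem_iUnion]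
    constructor
    · rintro ⟨i, hi⟩
      exact hCA i hi
    · exact hCcov P
  · intro i
    refine Subset.antisymm (closure_mono ?_) ?_
    · intro P hP
      exact ⟨subset_closure hP, hCA i hP⟩
    · exact closure_minimal (fun P hP => hP.1) isClosed_closure
  · intro i P hP Q hQ hPi
    rw [hCiff i P (hAC i P hP hPi) Q hQ]
    exact ⟨fun h => subset_closure h, hAC i Q hQ⟩

end Pool.Agent.J4.H98.SP
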