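import Pool.Agent.J4.H98.SP.Defs
import Pool.Agent.J4.H98.SP.Walk

/-! helper98, PROJECT SP, piece FILT: the filtration (by helper18). -/

set_option autoImplicit false
set_option linter.unusedSectionVars false

open Filter Set Topology

universe u v

namespace Pool.Agent.J4.H98.SP

namespace Filt

theorem ec_mono {N : Type u} [MetricSpace N] {F : N → N} {ε ε' : ℝ} (h : ε ≤ ε') {a b : N}
    (hab : EC F ε a b) : EC F ε' a b := by
  obtain ⟨y, n, hn, y0, yn, hy⟩ := hab
  exact ⟨y, n, hn, y0, yn, fun i hi => lt_of_lt_of_le (hy i hi) h⟩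

/-- a chain can be prolonged by one jump -/
theorem ec_step {N : Type u} [MetricSpace N] {F : N → N} {ε : ℝ} {a b c : N}
    (hab : EC F ε a b) (hbc : dist (F b) c < ε) : EC F ε a c := by
  refine Walk.ec_trans hab ⟨fun i => if i = 0 then b else c, 1, le_refl 1, by simp, by simp, ?_⟩
  intro i hi
  have : i = 0 := by omega
  subst this
  simpa using hbc

/-- the last jump may be changed -/
theorem ec_last {N : Type u} [MetricSpace N] {F : N → N} {ε : ℝ} {a b : N}
    (hab : EC F ε a b) : ∃ δ : ℝ, 0 < δ ∧ ∀ b', dist b b' < δ → EC F ε a b' := by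
  obtain ⟨y, n, hn, y0, yn, hy⟩ := hab
  have h1 := hy (n - 1) (by omega)
  rw [show n - 1 + 1 = n by omega, yn] at h1
  refine ⟨ε - dist (F (y (n - 1))) b, by linarith, ?_⟩
  intro b' hb'
  refine ⟨fun i => if i < n then y i else b', n, hn, ?_, ?_, ?_⟩
  · show (if 0 < n then y 0 else b') = a
    rw [if_pos (by omega), y0]
  · show (if n < n then y n else b') = b'
    rw [if_neg (by omega)]
  · intro i hi
    show dist (F (if i < n then y i else b')) (if i + 1 < n then y (i + 1) else b') < ε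
    rw [if_pos hi]
    by_cases h : i + 1 < n
    · rw [if_pos h]; exact hy i hi
    · rw [if_neg h]
      have : i = n - 1 := by omega
      subst this
      calc dist (F (y (n - 1))) b' ≤ dist (F (y (n - 1))) b + dist b b' := dist_triangle _ _ _
        _ < ε := by linarith

/-- there is a chain recurrent point -/
theorem exists_rec {N : Type u} [MetricSpace N] [CompactSpace N] {F : N → N} (hc : Continuous F)
    [Nonempty N] : ∃ z : N, ∀ ε : ℝ, 0 < ε → EC F ε z z := by
  obtain ⟨x0⟩ := (inferInstance : Nonempty N)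
  obtain ⟨z, -, hz⟩ := (isCompact_univ (X := N)).exists_mapClusterPt (f := atTop)
    (u := fun n : ℕ => F^[n] x0) (by simp)
  refine ⟨z, fun ε hε => ?_⟩
  obtain ⟨δ, hδ, hδF⟩ := Metric.continuousAt_iff.1 (hc.continuousAt (x := z)) ε hε
  have hfreq : ∀ r : ℝ, 0 < r → ∀ n0 : ℕ, ∃ n, n0 ≤ n ∧ dist (F^[n] x0) z < r := by
    intro r hr n0
    have h1 := (mapClusterPt_iff_frequently.1 hz) (Metric.ball z r) (Metric.ball_mem_nhds z hr)
    obtain ⟨n, hn, hn'⟩ := (Filter.frequently_atTop.1 h1) n0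
    exact ⟨n, hn, hn'⟩
  obtain ⟨n, -, hn⟩ := hfreq δ hδ 0
  obtain ⟨m, hm, hm'⟩ := hfreq ε hε (n + 2)
  refine ⟨fun i => if i = 0 then z else if i = m - n then z else F^[n + i] x0, m - n, by omega,
    by simp, ?_, ?_⟩
  · show (if m - n = 0 then z else if m - n = m - n then z else F^[n + (m - n)] x0) = z
    rw [if_neg (by omega), if_pos rfl]
  · intro i hi
    show dist (F (if i = 0 then z else if i = m - n then z else F^[n + i] x0))
      (if i + 1 = 0 then z else if i + 1 = m - n then z else F^[n + (i + 1)] x0) < ε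
    rw [if_neg (by omega : ¬ i + 1 = 0)]
    by_cases h0 : i = 0
    · subst h0
      rw [if_pos rfl, if_neg (by omega)]
      have h2 := hδF hn
      rw [dist_comm]
      rw [show n + (0 + 1) = n + 1 by ring, Function.iterate_succ_apply']
      exact h2
    · rw [if_neg h0, if_neg (by omega : ¬ i = m - n)]
      have h3 : F (F^[n + i] x0) = F^[n + (i + 1)] x0 := by
        rw [← Function.iterate_succ_apply' F (n + i) x0]
        rfl
      by_cases h1 : i + 1 = m - n
      · rw [if_pos h1, h3, h1, show n + (m - n) = m by omega]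
        exact hm'
      · rw [if_neg h1, h3, dist_self]
        exact hε

/-- numbering of a finite partial order -/
theorem numbering {k : ℕ} (r : Fin k → Fin k → Prop) (hrefl : ∀ a, r a a)
    (htrans : ∀ a b c, r a b → r b c → r a c) (hanti : ∀ a b, r a b → r b a → a = b) :
    ∃ σ : Fin k ≃ Fin k, ∀ i j, r (σ j) (σ i) → j ≤ i := by
  classical
  have : IsPartialOrder (Fin k) r :=
    { refl := hrefl, trans := htrans, antisymm := hanti }
  obtain ⟨s, hs, hrs⟩ := extend_partialOrder r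
  set rk : Fin k → Finset (Fin k) := fun a => Finset.univ.filter (fun b => s b a ∧ b ≠ a) with hrk
  have hlt : ∀ a b, s a b → a ≠ b → (rk a).card < (rk b).card := by
    intro a b hab hne
    apply Finset.card_lt_card
    rw [Finset.ssubset_iff_of_subset]
    · refine ⟨a, ?_, ?_⟩
      · rw [hrk]; simp only [Finset.mem_filter, Finset.mem_univ, true_and]; exact ⟨hab, hne⟩
      · rw [hrk]; simp
    · intro c hc
      rw [hrk] at hc ⊢
      simp only [Finset.mem_filter, Finset.mem_univ, true_and] at hc ⊢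
      refine ⟨hs.trans _ _ _ hc.1 hab, ?_⟩
      rintro rfl
      exact hne (hs.antisymm _ _ hab hc.1)
  have hk : ∀ a, (rk a).card < k := by
    intro a
    have h1 : (rk a).card < (Finset.univ : Finset (Fin k)).card := by
      apply Finset.card_lt_card
      rw [Finset.ssubset_univ_iff]
      intro h
      have : a ∈ rk a := by rw [h]; exact Finset.mem_univ a
      rw [hrk] at this
      simp at this
    simpa using h1
  let e : Fin k → Fin k := fun a => ⟨(rk a).card, hk a⟩
  have hinj : Function.Injective e := by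
    intro a b hab
    by_contra hne
    have h1 : (rk a).card = (rk b).card := congrArg Fin.val hab
    rcases hs.total a b with h | h
    · exact absurd h1 (hlt a b h hne).ne
    · exact absurd h1.symm (hlt b a h (Ne.symm hne)).ne
  have hbij : Function.Bijective e := (Finite.injective_iff_bijective).1 hinj
  refine ⟨(Equiv.ofBijective e hbij).symm, ?_⟩
  intro i j hr
  set a := (Equiv.ofBijective e hbij).symm i with ha
  set b := (Equiv.ofBijective e hbij).symm j with hb
  have hi : e a = i := (Equiv.ofBijective e hbij).apply_symm_apply i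
  have hj : e b = j := (Equiv.ofBijective e hbij).apply_symm_apply j
  rw [← hi, ← hj]
  by_cases hab : b = a
  · rw [hab]
  · exact (hlt b a (hrs _ _ hr) hab).le

end Filt

theorem filtration {N : Type u} [MetricSpace N] [CompactSpace N] {F : N → N} (hc : Continuous F)
    {k : ℕ} {Λ : Fin k → Set N} (hne : ∀ a, (Λ a).Nonempty)
    (h1 : ∀ a, ∀ x ∈ Λ a, ∀ y ∈ Λ a, ∀ ε : ℝ, 0 < ε → EC F ε x y)
    (h2 : ∀ x, (∀ ε : ℝ, 0 < ε → EC F ε x x) →
      ∃! a, ∀ y ∈ Λ a, ∀ ε : ℝ, 0 < ε → EC F ε x y ∧ EC F ε y x) :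
    ∃ (σ : Fin k ≃ Fin k) (U : ℕ → Set N), U 0 = ∅ ∧ U k = univ ∧ (∀ j, IsOpen (U j)) ∧
      (∀ j, ∀ x ∈ closure (U j), F x ∈ U j) ∧ (∀ j, U j ⊆ U (j + 1)) ∧
      ∀ (j : Fin k) (x : N), (∀ ε : ℝ, 0 < ε → EC F ε x x) →
        (x ∈ U (j + 1) ∧ x ∉ U j ↔ ∀ y ∈ Λ (σ j), ∀ ε : ℝ, 0 < ε → EC F ε x y ∧ EC F ε y x) := by
  classical
  choose p hp using hne
  -- the partial order
  have hself : ∀ a, ∀ y ∈ Λ a, ∀ ε : ℝ, 0 < ε → EC F ε (p a) y ∧ EC F ε y (p a) := fun a y hy ε hε =>
    ⟨h1 a _ (hp a) _ hy ε hε, h1 a _ hy _ (hp a) ε hε⟩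
  have hanti : ∀ a b, (∀ ε : ℝ, 0 < ε → EC F ε (p a) (p b)) → (∀ ε : ℝ, 0 < ε → EC F ε (p b) (p a)) →
      a = b := by
    intro a b hab hba
    obtain ⟨c, -, hcu⟩ := h2 (p a) (fun ε hε => h1 a _ (hp a) _ (hp a) ε hε)
    have e1 : a = c := hcu a (hself a)
    have e2 : b = c := hcu b (fun y hy ε hε =>
      ⟨Walk.ec_trans (hab ε hε) (hself b y hy ε hε).1, Walk.ec_trans (hself b y hy ε hε).2 (hba ε hε)⟩)
    rw [e1, e2]
  obtain ⟨σ, hσ⟩ := Filt.numbering (fun b a => ∀ ε : ℝ, 0 < ε → EC F ε (p a) (p b))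
    (fun a ε hε => h1 a _ (hp a) _ (hp a) ε hε)
    (fun a b c hab hbc ε hε => Walk.ec_trans (hbc ε hε) (hab ε hε))
    (fun a b hab hba => hanti a b hba hab)
  -- one ε for all pairs
  obtain ⟨ε, hε, hεall⟩ : ∃ ε : ℝ, 0 < ε ∧ ∀ a b, EC F ε (p a) (p b) →
      ∀ ε' : ℝ, 0 < ε' → EC F ε' (p a) (p b) := by
    have h3 : ∀ᶠ ε : ℝ in 𝓝[>] 0, ∀ a b, EC F ε (p a) (p b) →
      ∀ ε' : ℝ, 0 < ε' → EC F ε' (p a) (p b) := by
      rw [Filter.eventually_all]
      intro a
      rw [Filter.eventually_all]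
      intro b
      by_cases h : ∀ ε' : ℝ, 0 < ε' → EC F ε' (p a) (p b)
      · exact Filter.Eventually.of_forall fun _ _ => h
      · push Not at h
        obtain ⟨ε₀, hε₀, hn⟩ := h
        have h4 : Ioo (0 : ℝ) ε₀ ∈ 𝓝[>] (0 : ℝ) := Ioo_mem_nhdsGT hε₀
        filter_upwards [h4] with ε hε hEC
        exact absurd (Filt.ec_mono hε.2.le hEC) hn
    obtain ⟨ε, hε1, hε2⟩ := (h3.and self_mem_nhdsWithin).exists
    exact ⟨ε, hε2, hε1⟩
  set U : ℕ → Set N := fun j => {x | k ≤ j ∨ ∃ i : Fin k, (i : ℕ) < j ∧ ∃ y ∈ Λ (σ i), EC F ε y x}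
    with hU
  refine ⟨σ, U, ?_, ?_, ?_, ?_, ?_, ?_⟩
  · -- U 0 = ∅
    rw [Set.eq_empty_iff_forall_notMem]
    intro x hx
    rw [hU] at hx
    rcases hx with h | ⟨i, hi, -⟩
    · have hk : k = 0 := by omega
      subst hk
      have : Nonempty N := ⟨x⟩
      obtain ⟨z, hz⟩ := Filt.exists_rec hc
      obtain ⟨a, -, -⟩ := h2 z hz
      exact a.elim0
    · omega
  · rw [Set.eq_univ_iff_forall]
    intro x
    exact Or.inl le_rfl
  · intro j
    rw [Metric.isOpen_iff]
    intro x hx
    rcases hx with h | ⟨i, hi, y, hy, hyx⟩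
    · exact ⟨1, one_pos, fun _ _ => Or.inl h⟩
    · obtain ⟨δ, hδ, hδ'⟩ := Filt.ec_last hyx
      refine ⟨δ, hδ, fun b hb => Or.inr ⟨i, hi, y, hy, hδ' b ?_⟩⟩
      rw [dist_comm]
      exact hb
  · intro j x hx
    by_cases h : k ≤ j
    · exact Or.inl h
    · obtain ⟨δ, hδ, hδF⟩ := Metric.continuousAt_iff.1 (hc.continuousAt (x := x)) ε hε
      obtain ⟨b, hb, hxb⟩ := Metric.mem_closure_iff.1 hx δ hδ
      rcases hb with h' | ⟨i, hi, y, hy, hyb⟩
      · exact absurd h' h
      · refine Or.inr ⟨i, hi, y, hy, Filt.ec_step hyb (hδF ?_)⟩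
        rw [dist_comm]
        exact hxb
  · intro j x hx
    rcases hx with h | ⟨i, hi, h⟩
    · exact Or.inl (by omega)
    · exact Or.inr ⟨i, by omega, h⟩
  · intro j x hx
    obtain ⟨a, ha, hau⟩ := h2 x hx
    obtain ⟨l, rfl⟩ := σ.surjective a
    -- membership of x
    have hmem : ∀ j' : ℕ, x ∈ U j' ↔ (l : ℕ) < j' := by
      intro j'
      constructor
      · rintro (h | ⟨i, hi, y, hy, hyx⟩)
        · exact lt_of_lt_of_le l.2 h
        · have h3 : EC F ε (p (σ i)) (p (σ l)) :=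
            Walk.ec_trans (Walk.ec_trans (hself _ y hy ε hε).1 hyx) (ha _ (hp _) ε hε).1
          have h4 := hσ i l (hεall _ _ h3)
          have h5 : (l : ℕ) ≤ i := h4
          omega
      · intro h
        exact Or.inr ⟨l, h, p (σ l), hp _, (ha _ (hp _) ε hε).2⟩
    rw [hmem, hmem]
    constructor
    · rintro ⟨h3, h4⟩
      have : l = j := by
        apply Fin.ext
        omega
      rw [← this]
      exact ha
    · intro h
      have := hau (σ j) h
      have h3 : j = l := σ.injective this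
      rw [h3]
      omega

end Pool.Agent.J4.H98.SP
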