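import Pool.Agent.J4.H98.SP.Defs
import Pool.Agent.J4.H98.FibC

/-!
# The pieces of the nonwandering set are carried by an `Ω`-conjugacy
-/

set_option autoImplicit false
set_option linter.unusedSectionVars false

open Filter Set Topology

universe u v

namespace Pool.Agent.J4.H98.SP

open Pool.Agent.TH80.OMS

namespace Trans

theorem closed_omega {N : Type u} [TopologicalSpace N] {G : N → N} : IsClosed (Omega G) := by
  rw [← isOpen_compl_iff, isOpen_iff_mem_nhds]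
  intro x hx
  have hx' : ¬ ∀ W : Set N, IsOpen W → x ∈ W → ∃ k : ℕ, 1 ≤ k ∧ ∃ y ∈ W, G^[k] y ∈ W := hx
  push Not at hx'
  obtain ⟨W, hW, hxW, h⟩ := hx'
  filter_upwards [hW.mem_nhds hxW] with y hy hcon
  obtain ⟨k', hk', w, hw, hw'⟩ := hcon W hW hy
  exact h k' hk' w hw hw'

end Trans

theorem transfer {N : Type u} [TopologicalSpace N] [T2Space N] [CompactSpace N] {F G : N → N}
    (hF : Continuous F) (hG : Continuous G) (h : Omega F ≃ₜ Omega G)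
    (hh : ∀ x y : Omega F, F x = y → G (h x) = h y) {k : ℕ} {Λ : Fin k → Set N}
    (hB : ∀ a, Basic F (Λ a)) (hd : ∀ a b, a ≠ b → Disjoint (Λ a) (Λ b))
    (hU : (⋃ a, Λ a) = Omega F) (hP : ∀ a, Λ a = closure (Λ a ∩ Per F)) :
    ∃ Λ' : Fin k → Set N, (∀ a, Basic G (Λ' a)) ∧ (∀ a b, a ≠ b → Disjoint (Λ' a) (Λ' b)) ∧
      (⋃ a, Λ' a) = Omega G ∧ ∀ a, Λ' a = closure (Λ' a ∩ Per G) := by
  have hsub : ∀ a, Λ a ⊆ Omega F := fun a => by
    rw [← hU]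
    exact subset_iUnion Λ a
  have hs := conj_symm hF h hh
  have hcs2 : Continuous fun y : Omega G => ((h.symm y : Omega F) : N) :=
    continuous_subtype_val.comp h.symm.continuous
  have hc2 : Continuous fun x : Omega F => ((h x : Omega G) : N) :=
    continuous_subtype_val.comp h.continuous
  have hit := conj_iter hF h hh
  have hFit : ∀ a, ∀ x ∈ Λ a, ∀ n : ℕ, F^[n] x ∈ Λ a := by
    intro a x hx n
    induction n with
    | zero => exact hx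
    | succ n ih =>
      rw [Function.iterate_succ_apply', ← (hB a).inv]
      exact mem_image_of_mem F ih
  set Λ' : Fin k → Set N := fun a => {y | ∃ hy : y ∈ Omega G, ((h.symm ⟨y, hy⟩ : Omega F) : N) ∈ Λ a}
    with hΛ'
  have hmem : ∀ a, ∀ x (hx : x ∈ Omega F), x ∈ Λ a → ((h ⟨x, hx⟩ : Omega G) : N) ∈ Λ' a := by
    intro a x hx hxa
    refine ⟨(h ⟨x, hx⟩).2, ?_⟩
    have e1 : (⟨((h ⟨x, hx⟩ : Omega G) : N), (h ⟨x, hx⟩).2⟩ : Omega G) = h ⟨x, hx⟩ := rfl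
    rw [e1, h.symm_apply_apply]
    exact hxa
  have hcl : ∀ a, IsClosed (Λ' a) := by
    intro a
    have e1 : Λ' a = Subtype.val '' ((fun y : Omega G => ((h.symm y : Omega F) : N)) ⁻¹' Λ a) := by
      ext y
      constructor
      · rintro ⟨hy, h1⟩
        exact ⟨⟨y, hy⟩, h1, rfl⟩
      · rintro ⟨z, h1, rfl⟩
        exact ⟨z.2, h1⟩
    rw [e1]
    exact Trans.closed_omega.isClosedEmbedding_subtypeVal.isClosedMap _
      ((hB a).closed.preimage hcs2)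
  -- open sets are carried back
  have hopen : ∀ U : Set N, IsOpen U → ∃ U₀ : Set N, IsOpen U₀ ∧
      ∀ x (hx : x ∈ Omega F), x ∈ U₀ ↔ ((h ⟨x, hx⟩ : Omega G) : N) ∈ U := by
    intro U hU'
    obtain ⟨U₀, hU₀, he⟩ := isOpen_induced_iff.1 (hU'.preimage hc2)
    refine ⟨U₀, hU₀, fun x hx => ?_⟩
    have := Set.ext_iff.1 he ⟨x, hx⟩
    exact this
  have hne : ∀ a (U U₀ : Set N), (∀ x (hx : x ∈ Omega F), x ∈ U₀ ↔ ((h ⟨x, hx⟩ : Omega G) : N) ∈ U) →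
      (U ∩ Λ' a).Nonempty → (U₀ ∩ Λ a).Nonempty := by
    rintro a U U₀ hUU ⟨y, hyU, hy, hya⟩
    refine ⟨((h.symm ⟨y, hy⟩ : Omega F) : N), (hUU _ (h.symm ⟨y, hy⟩).2).2 ?_, hya⟩
    have e1 : (⟨((h.symm ⟨y, hy⟩ : Omega F) : N), (h.symm ⟨y, hy⟩).2⟩ : Omega F) = h.symm ⟨y, hy⟩ := rfl
    rw [e1, h.apply_symm_apply]
    exact hyU
  refine ⟨Λ', fun a => ⟨hcl a, ?_, ?_, ?_⟩, ?_, ?_, ?_⟩
  · obtain ⟨x, hx⟩ := (hB a).nonempty
    exact ⟨_, hmem a x (hsub a hx) hx⟩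
  · refine Subset.antisymm ?_ ?_
    · rintro _ ⟨z, ⟨hz, hza⟩, rfl⟩
      have h1 : G z ∈ Omega G := omega_maps hG hz
      refine ⟨h1, ?_⟩
      rw [← hs ⟨z, hz⟩ ⟨G z, h1⟩ rfl, ← (hB a).inv]
      exact mem_image_of_mem F hza
    · rintro y ⟨hy, hya⟩
      rw [← (hB a).inv] at hya
      obtain ⟨x, hx, hxy⟩ := hya
      refine ⟨_, hmem a x (hsub a hx) hx, ?_⟩
      rw [hh ⟨x, hsub a hx⟩ (h.symm ⟨y, hy⟩) hxy, h.apply_symm_apply]
  · intro U V hU' hV' hUne hVne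
    obtain ⟨U₀, hU₀, hUU⟩ := hopen U hU'
    obtain ⟨V₀, hV₀, hVV⟩ := hopen V hV'
    obtain ⟨x, ⟨hxU, hxa⟩, n, hxV⟩ := (hB a).trans U₀ V₀ hU₀ hV₀ (hne a U U₀ hUU hUne)
      (hne a V V₀ hVV hVne)
    have hn := hFit a x hxa n
    refine ⟨((h ⟨x, hsub a hxa⟩ : Omega G) : N), ⟨(hUU x (hsub a hxa)).1 hxU,
      hmem a x (hsub a hxa) hxa⟩, n, ?_⟩
    rw [hit n ⟨x, hsub a hxa⟩ ⟨F^[n] x, hsub a hn⟩ rfl]
    exact (hVV _ (hsub a hn)).1 hxV
  · intro a b hab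
    rw [Set.disjoint_left]
    rintro y ⟨hy, hya⟩ ⟨hy', hyb⟩
    exact Set.disjoint_left.1 (hd a b hab) hya hyb
  · refine Subset.antisymm ?_ ?_
    · intro y hy
      obtain ⟨a, hy, -⟩ := mem_iUnion.1 hy
      exact hy
    · intro y hy
      obtain ⟨a, ha⟩ := mem_iUnion.1 (hU.symm.subset (h.symm ⟨y, hy⟩).2)
      exact mem_iUnion.2 ⟨a, hy, ha⟩
  · intro a
    refine Subset.antisymm ?_ ((hcl a).closure_subset_iff.2 inter_subset_left)
    rintro y ⟨hy, hya⟩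
    rw [mem_closure_iff]
    intro W hW hyW
    obtain ⟨W₀, hW₀, hWW⟩ := hopen W hW
    have hya' := hya
    rw [hP a, mem_closure_iff] at hya'
    have h1 : ((h.symm ⟨y, hy⟩ : Omega F) : N) ∈ W₀ := by
      refine (hWW _ (h.symm ⟨y, hy⟩).2).2 ?_
      have e1 : (⟨((h.symm ⟨y, hy⟩ : Omega F) : N), (h.symm ⟨y, hy⟩).2⟩ : Omega F) = h.symm ⟨y, hy⟩ :=
        rfl
      rw [e1, h.apply_symm_apply]
      exact hyW
    obtain ⟨q, hqW, hqa, m, hm, hqm⟩ := hya' W₀ hW₀ h1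
    exact ⟨((h ⟨q, hsub a hqa⟩ : Omega G) : N), (hWW q (hsub a hqa)).1 hqW,
      hmem a q (hsub a hqa) hqa, m, hm, hit m ⟨q, hsub a hqa⟩ ⟨q, hsub a hqa⟩ hqm⟩

end Pool.Agent.J4.H98.SP
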