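import Pool.Agent.J4.H98.SP.Defs

/-!
# Uniqueness of the decomposition into basic pieces
-/

set_option autoImplicit false
set_option linter.unusedSectionVars false

open Filter Set Topology

universe u v

namespace Pool.Agent.J4.H98.SP

namespace UNIQ

theorem iter_mem {N : Type u} {F : N → N} {S : Set N} (h : F '' S = S) {x : N} (hx : x ∈ S) (n : ℕ) :
    F^[n] x ∈ S := by
  induction n with
  | zero => exact hx
  | succ n ih =>
    rw [Function.iterate_succ_apply']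
    rw [← h]
    exact ⟨_, ih, rfl⟩

theorem sub_aux {N : Type u} [TopologicalSpace N] {F : N → N} {k k' : ℕ} {Λ : Fin k → Set N}
    {Λ' : Fin k' → Set N} (hB : ∀ a, Basic F (Λ a)) (hB' : ∀ a, Basic F (Λ' a))
    (hd' : ∀ a b, a ≠ b → Disjoint (Λ' a) (Λ' b))
    (hU : (⋃ a, Λ a) = ⋃ a, Λ' a) (a : Fin k) : ∃ b, Λ a ⊆ Λ' b := by
  obtain ⟨x, hx⟩ := (hB a).nonempty
  have hcov : ∀ z ∈ Λ a, ∃ b, z ∈ Λ' b := by
    intro z hz
    have : z ∈ ⋃ a, Λ' a := by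
      rw [← hU]
      exact mem_iUnion.mpr ⟨a, hz⟩
    exact mem_iUnion.mp this
  obtain ⟨b, hb⟩ := hcov x hx
  refine ⟨b, ?_⟩
  intro z hz
  by_contra hzb
  have hUo : IsOpen (⋃ c : {c : Fin k' // c ≠ b}, Λ' c)ᶜ := by
    exact (isClosed_iUnion_of_finite fun c : {c : Fin k' // c ≠ b} => (hB' c).closed).isOpen_compl
  have hVo : IsOpen (Λ' b)ᶜ := (hB' b).closed.isOpen_compl
  have hxU : x ∈ (⋃ c : {c : Fin k' // c ≠ b}, Λ' c)ᶜ := by
    intro h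
    obtain ⟨c, hc⟩ := mem_iUnion.mp h
    exact Set.disjoint_left.mp (hd' c b c.2) hc hb
  obtain ⟨w, ⟨hwU, hwa⟩, n, hn⟩ := (hB a).trans _ _ hUo hVo ⟨x, hxU, hx⟩ ⟨z, hzb, hz⟩
  obtain ⟨c, hc⟩ := hcov w hwa
  have hcb : c = b := by
    by_contra hne
    exact hwU (mem_iUnion.mpr ⟨⟨c, hne⟩, hc⟩)
  subst hcb
  exact hn (iter_mem (hB' c).inv hc n)

theorem eq_of_sub {N : Type u} [TopologicalSpace N] {F : N → N} {k : ℕ} {Λ : Fin k → Set N}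
    (hB : ∀ a, Basic F (Λ a)) (hd : ∀ a b, a ≠ b → Disjoint (Λ a) (Λ b)) {a a' : Fin k}
    (h : Λ a ⊆ Λ a') : a = a' := by
  by_contra hne
  obtain ⟨x, hx⟩ := (hB a).nonempty
  exact Set.disjoint_left.mp (hd a a' hne) hx (h hx)

theorem half {N : Type u} [TopologicalSpace N] {F : N → N} {k k' : ℕ} {Λ : Fin k → Set N}
    {Λ' : Fin k' → Set N} (hB : ∀ a, Basic F (Λ a)) (hB' : ∀ a, Basic F (Λ' a))
    (hd : ∀ a b, a ≠ b → Disjoint (Λ a) (Λ b)) (hd' : ∀ a b, a ≠ b → Disjoint (Λ' a) (Λ' b))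
    (hU : (⋃ a, Λ a) = ⋃ a, Λ' a) : k ≤ k' ∧ ∀ a, ∃ b, Λ a = Λ' b := by
  have h1 : ∀ a, ∃ b, Λ a = Λ' b := by
    intro a
    obtain ⟨b, hb⟩ := sub_aux hB hB' hd' hU a
    obtain ⟨a', ha'⟩ := sub_aux hB' hB hd hU.symm b
    have := eq_of_sub hB hd (hb.trans ha')
    subst this
    exact ⟨b, hb.antisymm ha'⟩
  refine ⟨?_, h1⟩
  choose f hf using h1
  have hinj : Function.Injective f := by
    intro a a' h
    apply eq_of_sub hB hd
    rw [hf a, hf a', h]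
  simpa using Fintype.card_le_of_injective f hinj

end UNIQ

theorem uniq {N : Type u} [TopologicalSpace N] {F : N → N} {k k' : ℕ} {Λ : Fin k → Set N}
    {Λ' : Fin k' → Set N} (hB : ∀ a, Basic F (Λ a)) (hB' : ∀ a, Basic F (Λ' a))
    (hd : ∀ a b, a ≠ b → Disjoint (Λ a) (Λ b)) (hd' : ∀ a b, a ≠ b → Disjoint (Λ' a) (Λ' b))
    (hU : (⋃ a, Λ a) = ⋃ a, Λ' a) : k = k' ∧ ∀ a, ∃ b, Λ a = Λ' b := by
  obtain ⟨h1, h2⟩ := UNIQ.half hB hB' hd hd' hU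
  obtain ⟨h3, _⟩ := UNIQ.half hB' hB hd' hd hU.symm
  exact ⟨le_antisymm h1 h3, h2⟩

end Pool.Agent.J4.H98.SP
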