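import Pool.Agent.J4.H98.SP.Mfd
import Pool.Agent.J4.H98.SP.Trans
import Pool.Agent.J4.H98.SP.Uniq

/-!
# Spectral decomposition of `Ω`-stable diffeomorphisms with circle fibres
-/

set_option autoImplicit false
set_option linter.unusedSectionVars false

open scoped Manifold ContDiff Topology
open Filter Set

universe u v

namespace Pool.Agent.J4.H98.SP

open Pool.Agent.J4.H85.IS Pool.Agent.J4.H85.LE
open Pool.Agent.TH80.OMS Pool.Agent.TH80.CLX
open Pool.Agent.H718R2.G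
open Pool.Agent.N102.UF (flow_fam)
open Pool.Agent.TH290.CL (IsFlow)
open Pool.Agent.R774.OS (CR)
open Pool.Agent.J4.H98.Fib

variable {n : ℕ} {N : Type u} [TopologicalSpace N] [T2Space N] [CompactSpace N]
  [ChartedSpace (V n) N] [IsManifold (𝓡 n) ∞ N]

/-- The nonwandering set of `G` is the disjoint union of `k` closed invariant transitive sets, in which
the periodic points are dense. -/
def Pieces {N : Type u} [TopologicalSpace N] (G : N → N) (k : ℕ) : Prop :=
  ∃ Λ : Fin k → Set N, (∀ a, Basic G (Λ a)) ∧ (∀ a b, a ≠ b → Disjoint (Λ a) (Λ b)) ∧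
    (⋃ a, Λ a) = Omega G ∧ ∀ a, Λ a = closure (Λ a ∩ Per G)

theorem att_sub_per {N : Type u} {F : N → N} {ρ : N → ℝ} : AttPer F ρ ⊆ Per F := by
  rintro p ⟨k, hk, hp, -⟩
  exact ⟨k, hk, hp⟩

theorem rep_sub_per {N : Type u} {F : N → N} {ρ : N → ℝ} : RepPer F ρ ⊆ Per F := by
  rintro p ⟨k, hk, hp, -⟩
  exact ⟨k, hk, hp⟩

theorem SpectralNoCycles.per {N : Type u} [TopologicalSpace N] {G : N → N} {ρ : N → ℝ} {k : ℕ}
    {Λ : Fin k → Set N} (h : SpectralNoCycles G ρ Λ) (a : Fin k) :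
    Λ a = closure (Λ a ∩ Per G) := by
  apply Subset.antisymm
  · rcases h.types a with h1 | h1
    · refine h1.subset.trans (closure_mono ?_)
      exact inter_subset_inter_right _ att_sub_per
    · refine h1.subset.trans (closure_mono ?_)
      exact inter_subset_inter_right _ rep_sub_per
  · exact closure_minimal inter_subset_left (h.basic a).closed

theorem main {B : Type v} [MetricSpace B] [CompactSpace B] {r : ℕ∞} (hr : 1 ≤ r)
    {F : DiffM n N r} (hF : OmegaStable n N r F) {ψ : ℝ → N → N} (hψ : IsFlow n N ψ)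
    {ρ : N → ℝ} {π : N → B} {f : B → B} (C : Circ ψ (F : N → N) ρ π f)
    (hX : ExpansiveOnPer f) (hS : PeriodicShadowing f) :
    ∃ (k : ℕ) (Λ : Fin k → Set N), SpectralNoCycles (F : N → N) ρ Λ ∧
      (∃ ε : ℝ, 0 < ε ∧
        (∀ s : ℝ, |s| < ε → ∃ Λ : Fin k → Set N, SpectralNoCycles (fun y => ψ s (F y)) ρ Λ) ∧
        ∀ᶠ s in residual ℝ, |s| < ε → CR (fun y => ψ s (F y)) = Omega (fun y => ψ s (F y))) ∧
      ∃ U : Set (DiffM n N r), IsOpen[strongTop n N r] U ∧ F ∈ U ∧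
        ∀ G ∈ U, Pieces (G : N → N) k := by
  have hcs : ∀ {G : N → N}, Circ ψ G ρ π f → ∃ κ : ℝ, 0 < κ ∧ ∀ s : ℝ, |s| < κ →
      CentreShadowing (fun y => ψ s (G y)) ψ := fun hG => ⟨1, one_pos, fun s _ => circ_cs hψ hG hS s⟩
  obtain ⟨δ, hδ, hh⟩ := family_hyp hr hF hψ
  have hnd := ndn_of hψ C hh
  have hO := dense_cs r hr F hF hψ (circ_orbit C) (hcs C)
  obtain ⟨k, Λ, hΛ⟩ := spectral_of hψ C (G := (F.symm : N → N)) (fun y => F.apply_symm_apply y)
    (fun y => F.symm_apply_apply y) hX hS hδ hnd hO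
  obtain ⟨ε0, hε0, hgen⟩ := generic_cs r hr F hF hψ (circ_orbit C) (hcs C)
  obtain ⟨U, hU, hFU, hconj⟩ := hF
  have hU2 : ∀ G ∈ U, Pieces (G : N → N) k := by
    intro G hG
    obtain ⟨h, hh⟩ := hconj G hG
    exact transfer F.continuous G.continuous h hh hΛ.basic hΛ.disjoint hΛ.union hΛ.per
  refine ⟨k, Λ, hΛ, ?_, U, hU, hFU, hU2⟩
  -- the family
  obtain ⟨κ, hκ, hfamily⟩ : ∃ κ : ℝ, 0 < κ ∧ ∀ s : ℝ, |s| < κ → ∃ G : DiffM n N r, G ∈ U ∧
      (G : N → N) = fun y => ψ s (F y) := by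
    rcases isEmpty_or_nonempty N with hN | ⟨⟨z₀⟩⟩
    · refine ⟨1, one_pos, fun s _ => ⟨F, hFU, ?_⟩⟩
      funext y
      exact (hN.false y).elim
    · obtain ⟨H, hfam, hH, hH0⟩ := flow_fam hψ r F
      obtain ⟨κ, hκ, hmem⟩ := fam_mem r hr H hfam z₀ U hU (by rw [hH0]; exact hFU)
      refine ⟨κ, hκ, fun s hs => ⟨H s, hmem s (by rwa [Real.norm_eq_abs]), ?_⟩⟩
      funext y
      exact hH s y
  have hstab : ∀ G ∈ U, OmegaStable n N r G := by
    intro G hG
    refine ⟨U, hU, hG, fun g hg => ?_⟩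
    obtain ⟨a, ha⟩ := hconj G hG
    obtain ⟨b, hb⟩ := hconj g hg
    have hsym := conj_symm F.continuous a ha
    exact ⟨a.symm.trans b, fun x y hxy => hb _ _ (hsym x y hxy)⟩
  have hOs : ∀ s : ℝ, |s| < κ → Omega (fun y => ψ s (F y)) = closure (Per fun y => ψ s (F y)) := by
    intro s hs
    obtain ⟨G, hG, hGe⟩ := hfamily s hs
    have Cs : Circ ψ (G : N → N) ρ π f := by
      rw [hGe]
      exact C.fam s
    have := dense_cs r hr G (hstab G hG) hψ (circ_orbit Cs) (hcs Cs)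
    rwa [hGe] at this
  refine ⟨min ε0 (min κ (δ / 2)), by positivity, fun s hs => ?_, ?_⟩
  · have hs1 : |s| < κ := hs.trans_le ((min_le_right _ _).trans (min_le_left _ _))
    have hs2 : |s| < δ / 2 := hs.trans_le ((min_le_right _ _).trans (min_le_right _ _))
    obtain ⟨G, hG, hGe⟩ := hfamily s hs1
    obtain ⟨k', Λ', hΛ'⟩ := spectral_of hψ (C.fam s) (G := fun y => F.symm (ψ (-s) y))
      (fun y => by
        show ψ s (F (F.symm (ψ (-s) y))) = y
        rw [F.apply_symm_apply, ← C.act.add, add_neg_cancel, C.act.zero])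
      (fun y => by
        show F.symm (ψ (-s) (ψ s (F y))) = y
        rw [← C.act.add, neg_add_cancel, C.act.zero, F.symm_apply_apply])
      hX hS (half_pos hδ) (ndn_fam C hnd hs2) (hOs s hs1)
    obtain ⟨Λ'', g1, g2, g3, -⟩ := hU2 G hG
    rw [hGe] at g1 g3
    have hk := (uniq g1 hΛ'.basic g2 hΛ'.disjoint (by rw [g3, hΛ'.union])).1
    subst hk
    exact ⟨Λ', hΛ'⟩
  · filter_upwards [hgen] with s hs hsε
    rw [hs (hsε.trans_le (min_le_left _ _)),
      hOs s (hsε.trans_le ((min_le_right _ _).trans (min_le_left _ _)))]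

end Pool.Agent.J4.H98.SP
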