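import Pool.Agent.J4.H98.SP.Defs

/-!
# The hill and the valley next to an increasing crossing
-/

set_option autoImplicit false

open Filter Set Topology

namespace Pool.Agent.J4.H98.SP

open Pool.Agent.J4.H85.IS Pool.Agent.J4.H85.LE

variable {L L' : ℝ → ℝ} {δ : ℝ}

/-- to the right of an increasing crossing -/
theorem hill (D : Reg L L' δ) (hper : ∀ t, L (t + 1) = L t) {σ c : ℝ} (hσ0 : |L c| < σ)
    (hσ : σ < δ) (h0 : 0 < L' c) : ∃ α r, c < α ∧ α < r ∧ r ≤ α + 1 ∧ L α = σ ∧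
      (∀ z ∈ Icc c α, L c ≤ L z ∧ L z ≤ σ ∧ 0 < L' z) ∧ L r = σ ∧ L' r < 0 ∧
      ∀ z ∈ Icc α r, σ ≤ L z := by
  obtain ⟨hs1, hs2⟩ := abs_lt.1 hσ0
  have hσp : 0 < σ := lt_of_le_of_lt (abs_nonneg _) hσ0
  obtain ⟨m, hm, hm1⟩ := D.up_le (y := c) (x := c + 1) (by linarith) (by linarith) h0
    (by rw [hper])
  -- the first point with `L ≥ σ`
  have hS : IsCompact (Icc c m ∩ {t | σ ≤ L t}) :=
    isCompact_Icc.inter_right (isClosed_le continuous_const D.cont)
  obtain ⟨α, ⟨hα, hασ⟩, hαmin⟩ := hS.exists_isLeast ⟨m, ⟨hm.1.le, le_rfl⟩, by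
    show σ ≤ L m
    linarith⟩
  have hασ' : σ ≤ L α := hασ
  have hcα : c < α := lt_of_le_of_ne hα.1 (by rintro rfl; linarith)
  have hbef : ∀ z, c ≤ z → z < α → L z < σ := by
    intro z h1 h2
    by_contra h
    push Not at h
    have := hαmin ⟨⟨h1, h2.le.trans hα.2⟩, h⟩
    linarith
  have hLα : L α = σ := by
    refine le_antisymm ?_ hασ'
    have h1 : ∀ᶠ z in 𝓝[<] α, L z ≤ σ := by
      filter_upwards [Ioo_mem_nhdsLT hcα] with z hz
      exact (hbef z hz.1.le hz.2).le
    exact le_of_tendsto D.cont.continuousWithinAt h1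
  have hmid : ∀ z ∈ Icc c α, L c ≤ L z ∧ L z ≤ σ ∧ 0 < L' z := by
    intro z hz
    have hzσ : L z ≤ σ := by
      rcases hz.2.lt_or_eq with h | h
      · exact (hbef z hz.1 h).le
      · rw [h, hLα]
    have h1 : L c ≤ L z := by
      by_contra h
      push Not at h
      have hcz : c < z := lt_of_le_of_ne hz.1 (by rintro rfl; linarith)
      obtain ⟨w, hw, hw1⟩ := D.up_le hcz (by linarith) h0 h.le
      have := hbef w hw.1.le (hw.2.trans_le hz.2)
      linarith
    refine ⟨h1, hzσ, ?_⟩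
    have hne : L' z ≠ 0 := D.ne z (by rw [abs_lt]; constructor <;> linarith)
    rcases lt_or_gt_of_ne hne with h | h
    · exfalso
      have hcz : c < z := lt_of_le_of_ne hz.1 (by rintro rfl; linarith)
      obtain ⟨w, hw, hw1⟩ := D.up_down hcz (by linarith) h0 h
      have := hbef w hw.1.le (hw.2.trans_le hz.2)
      linarith
    · exact h
  have hα' : 0 < L' α := (hmid α ⟨hcα.le, le_rfl⟩).2.2
  -- the first point with `L ≥ δ`
  obtain ⟨m1, hm1, hm2⟩ := D.up_le (y := α) (x := α + 1) (by linarith) (by linarith) hα'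
    (by rw [hper])
  have hS2 : IsCompact (Icc α m1 ∩ {t | δ ≤ L t}) :=
    isCompact_Icc.inter_right (isClosed_le continuous_const D.cont)
  obtain ⟨q, ⟨hq, hqδ⟩, hqmin⟩ := hS2.exists_isLeast ⟨m1, ⟨hm1.1.le, le_rfl⟩, hm2⟩
  have hqδ' : δ ≤ L q := hqδ
  have hαq : α < q := lt_of_le_of_ne hq.1 (by rintro rfl; linarith)
  have hq1 : q < α + 1 := lt_of_le_of_lt hq.2 hm1.2
  have hbq : ∀ z, α ≤ z → z < q → L z < δ := by
    intro z h1 h2
    by_contra h
    push Not at h
    have := hqmin ⟨⟨h1, h2.le.trans hq.2⟩, h⟩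
    linarith
  have hup : ∀ z, α ≤ z → z ≤ q → σ ≤ L z := by
    intro z h1 h2
    rcases h1.eq_or_lt with h3 | h3
    · rw [← h3, hLα]
    · by_contra h
      push Not at h
      obtain ⟨w, hw, hw1⟩ := D.up_le h3 (by linarith) hα' (by linarith)
      have := hbq w hw.1.le (hw.2.trans_le h2)
      linarith
  -- the first point after `q` with `L ≤ σ`
  have hS3 : IsCompact (Icc q (α + 1) ∩ {t | L t ≤ σ}) :=
    isCompact_Icc.inter_right (isClosed_le D.cont continuous_const)
  obtain ⟨r, ⟨hr, hrσ⟩, hrmin⟩ := hS3.exists_isLeast ⟨α + 1, ⟨hq1.le, le_rfl⟩, by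
    show L (α + 1) ≤ σ
    rw [hper, hLα]⟩
  have hrσ' : L r ≤ σ := hrσ
  have hqr : q < r := lt_of_le_of_ne hr.1 (by rintro rfl; linarith)
  have hbr : ∀ z, q ≤ z → z < r → σ < L z := by
    intro z h1 h2
    by_contra h
    push Not at h
    have := hrmin ⟨⟨h1, h2.le.trans hr.2⟩, h⟩
    linarith
  have hLr : L r = σ := by
    refine le_antisymm hrσ' ?_
    have h1 : ∀ᶠ z in 𝓝[<] r, σ ≤ L z := by
      filter_upwards [Ioo_mem_nhdsLT hqr] with z hz
      exact (hbr z hz.1.le hz.2).le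
    exact ge_of_tendsto D.cont.continuousWithinAt h1
  refine ⟨α, r, hcα, hαq.trans hqr, hr.2, hLα, hmid, hLr, ?_, ?_⟩
  · have hne : L' r ≠ 0 := D.ne r (by rw [hLr, abs_of_pos hσp]; exact hσ)
    rcases lt_or_gt_of_ne hne with h | h
    · exact h
    · exfalso
      obtain ⟨w, hw, hw1⟩ := D.ge_up hqr (by linarith) (by linarith) h
      have := hbr w hw.1.le hw.2
      linarith
  · intro z hz
    rcases le_or_gt z q with h | h
    · exact hup z hz.1 h
    · rcases hz.2.lt_or_eq with h1 | h1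
      · exact (hbr z h.le h1).le
      · rw [h1, hLr]

/-- the window and the trap of an increasing crossing -/
structure Hill (L L' : ℝ → ℝ) (σ c a b r q : ℝ) : Prop where
  ac : a < c
  cb : c < b
  ra : r < a
  bq : b < q
  lenl : a - r ≤ 1
  lenr : q - b ≤ 1
  win : ∀ z ∈ Icc a b, |L z| ≤ σ ∧ 0 < L' z
  La : L a = -σ
  Lb : L b = σ
  pos : ∀ z ∈ Ioc c b, 0 < L z
  neg : ∀ z ∈ Ico a c, L z < 0
  Lq : L q = σ
  Lr : L r = -σ
  dq : L' q < 0
  dr : L' r < 0
  high : ∀ z ∈ Icc b q, σ ≤ L z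
  low : ∀ z ∈ Icc r a, L z ≤ -σ

theorem exists_hill (D : Reg L L' δ) (hper : ∀ t, L (t + 1) = L t) {σ c : ℝ} (hσ0 : 0 < σ)
    (hσ : σ < δ) (hc : L c = 0) (h0 : 0 < L' c) : ∃ a b r q, Hill L L' σ c a b r q := by
  obtain ⟨b, q, h1, h2, h3, h4, h5, h6, h7, h8⟩ := hill D hper (σ := σ) (c := c)
    (by rw [hc, abs_zero]; exact hσ0) hσ h0
  have D2 : Reg (fun t => -L (-t)) (fun t => L' (-t)) δ := by
    refine ⟨fun t => ?_, fun t ht => D.ne (-t) (by rwa [abs_neg] at ht)⟩
    have h1 := (D.der (-t)).comp t (hasDerivAt_neg t)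
    have h2 := h1.neg
    refine h2.congr_deriv ?_
    ring
  have hper2 : ∀ t, -L (-(t + 1)) = -L (-t) := by
    intro t
    have := hper (-(t + 1))
    rw [show -(t + 1) + 1 = -t by ring] at this
    rw [this]
  obtain ⟨a, r, g1, g2, g3, g4, g5, g6, g7, g8⟩ := hill D2 hper2 (σ := σ) (c := -c)
    (by rw [neg_neg, hc, neg_zero, abs_zero]; exact hσ0) hσ (by rw [neg_neg]; exact h0)
  simp only [neg_neg] at g4 g5 g6 g7 g8
  have hmono : ∀ z ∈ Ioc c b, 0 < L z := by
    intro z hz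
    have h9 := h5 z ⟨hz.1.le, hz.2⟩
    rw [hc] at h9
    refine lt_of_le_of_ne h9.1 ?_
    intro h10
    obtain ⟨w, hw, hw1⟩ := D.up_le hz.1 (by rw [hc]; linarith) h0 (by rw [hc, ← h10])
    have := (h5 w ⟨hw.1.le, hw.2.le.trans hz.2⟩).2.1
    linarith
  have hmono2 : ∀ z ∈ Ico (-a) c, L z < 0 := by
    intro z hz
    have h9 := g5 (-z) ⟨by linarith [hz.2], by linarith [hz.1]⟩
    rw [neg_neg, hc] at h9
    refine lt_of_le_of_ne (by linarith) ?_
    intro h10
    obtain ⟨w, hw, hw1⟩ := D.ge_up (y := z) (x := c) hz.2 (by rw [hc]; linarith)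
      (by rw [hc, h10]) h0
    have := (g5 (-w) ⟨by linarith [hw.2], by linarith [hw.1, hz.1]⟩).2.1
    rw [neg_neg] at this
    linarith
  refine ⟨-a, b, -r, q, ?_⟩
  exact
    { ac := by linarith
      cb := h1
      ra := by linarith
      bq := h2
      lenl := by linarith
      lenr := by linarith
      win := fun z hz => by
        rcases le_total c z with h | h
        · have h9 := h5 z ⟨h, hz.2⟩
          rw [hc] at h9
          exact ⟨by rw [abs_le]; constructor <;> linarith, h9.2.2⟩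
        · have h9 := g5 (-z) ⟨by linarith, by linarith [hz.1]⟩
          rw [neg_neg, hc] at h9
          exact ⟨by rw [abs_le]; constructor <;> linarith, h9.2.2⟩
      La := by linarith
      Lb := h4
      pos := hmono
      neg := hmono2
      Lq := h6
      Lr := by linarith
      dq := h7
      dr := g7
      high := h8
      low := fun z hz => by
        have := g8 (-z) ⟨by linarith [hz.2], by linarith [hz.1]⟩
        rw [neg_neg] at this
        linarith }

end Pool.Agent.J4.H98.SP
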