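import Pool.Agent.J4.H98.SP.Defs

/-!
# The inverse map
-/

set_option autoImplicit false
set_option linter.unusedSectionVars false

open Filter Set Topology

universe u v

namespace Pool.Agent.J4.H98.SP

open Pool.Agent.J4.H85.IS Pool.Agent.J4.H85.LE

variable {N : Type u} {B : Type v} {ψ : ℝ → N → N} {F : N → N} {ρ : N → ℝ} {π : N → B} {f : B → B}

namespace InvA

theorem theta_surj [TopologicalSpace N] [TopologicalSpace B] (C : Circ ψ F ρ π f) (y : N) :
    Function.Surjective (theta ψ ρ y) := by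
  intro a
  have h1 : ∀ m : ℤ, theta ψ ρ y m = m := fun m => by
    have := C.theta_int y 0 m
    rw [zero_add, Circ.theta_zero, zero_add] at this
    exact this
  have h2 : (⌊a⌋ : ℝ) ≤ a := Int.floor_le a
  have h3 : a ≤ ((⌊a⌋ + 1 : ℤ) : ℝ) := by
    push_cast
    exact (Int.lt_floor_add_one a).le
  have h4 := intermediate_value_Icc (f := theta ψ ρ y) (a := ((⌊a⌋ : ℤ) : ℝ)) (b := ((⌊a⌋ + 1 : ℤ) : ℝ))
    (h2.trans h3) (C.theta_smooth y).continuous.continuousOn
  rw [h1, h1] at h4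
  obtain ⟨t, -, ht⟩ := h4 ⟨h2, h3⟩
  exact ⟨t, ht⟩

end InvA

open InvA in
theorem circ_inv [MetricSpace N] [CompactSpace N] [MetricSpace B] [CompactSpace B]
    (C : Circ ψ F ρ π f) {G : N → N} (h1 : ∀ y, F (G y) = y) (h2 : ∀ y, G (F y) = y) :
    ∃ g : B → B, (∀ b, f (g b) = b) ∧ (∀ b, g (f b) = b) ∧
      Circ ψ G (fun y => (ρ (G y))⁻¹) π g := by
  -- `f` is bijective
  have hinj : Function.Injective f := by
    intro a b hab
    obtain ⟨y, rfl⟩ := C.surj a
    obtain ⟨y', rfl⟩ := C.surj b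
    rw [← C.semi, ← C.semi, C.fib] at hab
    obtain ⟨t, ht⟩ := hab
    obtain ⟨s, hs⟩ := theta_surj C y t
    have h3 : F (ψ s y) = F y' := by
      rw [C.maps, ← ht, ← hs]
      rfl
    have h4 := C.inj h3
    rw [C.fib]
    exact ⟨s, h4⟩
  have hsur : Function.Surjective f := by
    intro b
    obtain ⟨y, rfl⟩ := C.surj b
    exact ⟨π (G y), by rw [← C.semi, h1]⟩
  let ef : B ≃ B := Equiv.ofBijective f ⟨hinj, hsur⟩
  have hef : Continuous ef := C.contf
  let Hf : B ≃ₜ B := hef.homeoOfEquivCompactToT2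
  let eF : N ≃ N := ⟨F, G, h2, h1⟩
  have heF : Continuous eF := C.contF
  let HF : N ≃ₜ N := heF.homeoOfEquivCompactToT2
  have hG : Continuous G := HF.symm.continuous
  have hg1 : ∀ b, f (Hf.symm b) = b := fun b => Hf.apply_symm_apply b
  have hg2 : ∀ b, Hf.symm (f b) = b := fun b => Hf.symm_apply_apply b
  refine ⟨Hf.symm, hg1, hg2, ?_⟩
  have hr : Continuous fun y => (ρ (G y))⁻¹ :=
    (C.contρ.comp hG).inv₀ fun y => (C.pos _).ne'
  refine ⟨C.act, C.cont, C.free, hG, fun a b hab => ?_, hr, fun y => inv_pos.2 (C.pos _), ?_,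
    C.contπ, C.surj, C.fib, Hf.symm.continuous, fun y => ?_⟩
  · rw [← h1 a, ← h1 b, hab]
  · intro t y
    obtain ⟨s, hs⟩ := theta_surj C (G y) t
    have hy : ∀ a, F (ψ a (G y)) = ψ (theta ψ ρ (G y) a) y := fun a => by
      rw [C.maps, h1]
      rfl
    have hy' : ∀ a, G (ψ (theta ψ ρ (G y) a) y) = ψ a (G y) := fun a => by
      rw [← hy, h2]
    have hline : Continuous fun u => (ρ (G (ψ u y)))⁻¹ :=
      hr.comp (C.cont.comp (continuous_id.prodMk continuous_const))
    have hder : ∀ a : ℝ, HasDerivAt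
        (fun a => (∫ u in (0 : ℝ)..(theta ψ ρ (G y) a), (ρ (G (ψ u y)))⁻¹) - a) 0 a := by
      intro a
      have e1 : HasDerivAt (fun b : ℝ => ∫ u in (0 : ℝ)..b, (ρ (G (ψ u y)))⁻¹)
          ((ρ (G (ψ (theta ψ ρ (G y) a) y)))⁻¹) (theta ψ ρ (G y) a) :=
        intervalIntegral.integral_hasDerivAt_right (hline.intervalIntegrable _ _)
          (hline.stronglyMeasurableAtFilter _ _) hline.continuousAt
      have e2 := e1.comp a (C.theta_der (G y) a)
      rw [hy', inv_mul_cancel₀ (C.pos _).ne'] at e2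
      have e3 := e2.sub (hasDerivAt_id a)
      rw [sub_self] at e3
      exact e3
    have hconst := is_const_of_deriv_eq_zero (fun a => (hder a).differentiableAt)
      (fun a => (hder a).deriv) s 0
    simp only [Circ.theta_zero, intervalIntegral.integral_same, sub_self] at hconst
    rw [hs] at hconst
    show G (ψ t y) = ψ (∫ u in (0 : ℝ)..t, (ρ (G (ψ u y)))⁻¹) (G y)
    rw [sub_eq_zero.1 hconst]
    conv_lhs => rw [← hs]
    exact hy' s
  · have : f (π (G y)) = π y := by rw [← C.semi, h1]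
    rw [← this, hg2]

end Pool.Agent.J4.H98.SP
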