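import Pool.Agent.J4.H98.SP.Defs

/-!
# The inverse map: shadowing and expansivity
-/

set_option autoImplicit false
set_option linter.unusedSectionVars false

open Filter Set Topology

universe u v

namespace Pool.Agent.J4.H98.SP

open Pool.Agent.J4.H85.IS Pool.Agent.J4.H85.LE

variable {N : Type u} {B : Type v} {ψ : ℝ → N → N} {F : N → N} {ρ : N → ℝ} {π : N → B} {f : B → B}

namespace Inv2

lemma iter_cancel {X : Type v} {f g : X → X} (h : ∀ b, g (f b) = b) (n : ℕ) (b : X) :
    g^[n] (f^[n] b) = b := Function.LeftInverse.iterate h n b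

lemma per_mul {X : Type v} {z : ℕ → X} {M : ℕ} (h : ∀ i, z (i + M) = z i) (a k : ℕ) :
    z (a + k * M) = z a := by
  induction k with
  | zero => simp
  | succ k ih =>
    rw [show a + (k + 1) * M = (a + k * M) + M by ring, h, ih]

lemma per_same {X : Type v} {f g : X → X} (h1 : ∀ b, f (g b) = b) (h2 : ∀ b, g (f b) = b) :
    {x : X | ∃ k, 1 ≤ k ∧ g^[k] x = x} = {x | ∃ k, 1 ≤ k ∧ f^[k] x = x} := by
  ext x
  constructor
  · rintro ⟨k, hk, h⟩
    refine ⟨k, hk, ?_⟩
    conv_lhs => rw [← h]
    exact iter_cancel h1 k x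
  · rintro ⟨k, hk, h⟩
    refine ⟨k, hk, ?_⟩
    conv_lhs => rw [← h]
    exact iter_cancel h2 k x

end Inv2

open Inv2 in
theorem shadow_inv [MetricSpace B] [CompactSpace B] {f g : B → B} (hf : Continuous f)
    (hg : Continuous g) (h1 : ∀ b, f (g b) = b) (h2 : ∀ b, g (f b) = b)
    (hS : PeriodicShadowing f) : PeriodicShadowing g := by
  intro ε hε
  obtain ⟨η, hη, hsh⟩ := hS ε hε
  have huc := CompactSpace.uniformContinuous_of_continuous hf
  obtain ⟨η', hη', hu⟩ := Metric.uniformContinuous_iff.1 huc η hη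
  refine ⟨η' / 2, by positivity, fun z M hM hz hd => ?_⟩
  obtain ⟨m, rfl⟩ : ∃ m, M = m + 1 := ⟨M - 1, by omega⟩
  obtain ⟨c, hc, hcl⟩ := hsh (fun i => z (i * m)) (m + 1) hM
    (fun i => by
      show z ((i + (m + 1)) * m) = z (i * m)
      rw [show (i + (m + 1)) * m = i * m + m * (m + 1) by ring]
      exact per_mul hz _ _)
    (fun i => by
      show dist (f (z (i * m))) (z ((i + 1) * m)) ≤ η
      have e1 : z (i * m) = z ((i + 1) * m + 1) := by
        rw [show (i + 1) * m + 1 = i * m + (m + 1) by ring, hz]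
      have e2 := hd ((i + 1) * m)
      rw [← e1] at e2
      have e3 := hu (lt_of_le_of_lt e2 (by linarith))
      rw [h1, dist_comm] at e3
      exact e3.le)
  have hgc : g^[m + 1] c = c := by
    conv_lhs => rw [← hc]
    exact iter_cancel h2 _ c
  refine ⟨c, hgc, fun i => ?_⟩
  have e1 : g^[i] c = f^[i * m] c := by
    have e2 : f^[i * (m + 1)] c = c := by
      induction i with
      | zero =>
        rw [zero_mul]
        rfl
      | succ i ih =>
        rw [show (i + 1) * (m + 1) = i * (m + 1) + (m + 1) by ring, Function.iterate_add_apply, hc, ih]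
    have e3 : f^[i * (m + 1)] c = f^[i] (f^[i * m] c) := by
      rw [← Function.iterate_add_apply]
      congr 1
      ring
    rw [e3] at e2
    conv_lhs => rw [← e2]
    exact iter_cancel h2 _ _
  rw [e1]
  have e4 : dist (f^[i * m] c) (z (i * m * m)) ≤ ε := hcl (i * m)
  have e5 : z (i * m * m) = z i := by
    rw [← per_mul hz (i * m * m) i, show i * m * m + i * (m + 1) = i + (i * m) * (m + 1) by ring]
    exact per_mul hz _ _
  rwa [e5] at e4

open Inv2 in
theorem expansive_inv [MetricSpace B] {f g : B → B} (h1 : ∀ b, f (g b) = b)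
    (h2 : ∀ b, g (f b) = b) {e : ℝ} (hX : ExpansiveWith f e) : ExpansiveWith g e := by
  intro z w hz hw hgz hgw hd
  rw [per_same h1 h2] at hz hw
  have h := hX (fun n => z (-n)) (fun n => w (-n)) (fun n => hz _) (fun n => hw _)
    (fun n => by
      show f (z (-n)) = z (-(n + 1))
      have e1 := hgz (-(n + 1))
      rw [show -(n + 1) + 1 = -n by ring] at e1
      rw [← e1, h1])
    (fun n => by
      show f (w (-n)) = w (-(n + 1))
      have e1 := hgw (-(n + 1))
      rw [show -(n + 1) + 1 = -n by ring] at e1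
      rw [← e1, h1])
    (fun n => hd _)
  funext n
  have := congrFun h (-n)
  simpa using this

end Pool.Agent.J4.H98.SP
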