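import Pool.Agent.J4.H98.SP.Defs
import Pool.Agent.J4.H85.IS.Main

/-!
# The inverse map: attracting and repelling periodic points
-/

set_option autoImplicit false
set_option linter.unusedSectionVars false

open Filter Set Topology

universe u v

namespace Pool.Agent.J4.H98.SP

open Pool.Agent.J4.H85.IS Pool.Agent.J4.H85.LE

variable {N : Type u} {B : Type v} {ψ : ℝ → N → N} {F : N → N} {ρ : N → ℝ} {π : N → B} {f : B → B}

namespace Inv3

/-- the product along the backward orbit -/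
lemma prod_rev {X : Type u} {A A' : X → X} (h : ∀ x, A' (A x) = x) (r : X → ℝ) {k : ℕ} {p : X}
    (hp : A^[k] p = p) :
    ∏ i ∈ Finset.range k, r (A'^[i + 1] p) = ∏ i ∈ Finset.range k, r (A^[i] p) := by
  rw [← Finset.prod_range_reflect]
  refine Finset.prod_congr rfl fun i hi => ?_
  rw [Finset.mem_range] at hi
  congr 1
  have e1 : A^[k] p = A^[k - 1 - i + 1] (A^[i] p) := by
    rw [← Function.iterate_add_apply]
    congr 1
    omega
  conv_lhs => rw [← hp, e1]
  exact Function.LeftInverse.iterate h _ _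

lemma per_inv {X : Type u} {A A' : X → X} (h : ∀ x, A' (A x) = x) {k : ℕ} {p : X}
    (hp : A^[k] p = p) : A'^[k] p = p := by
  conv_lhs => rw [← hp]
  exact Function.LeftInverse.iterate h _ _

lemma prod_G {F G : N → N} (h2 : ∀ y, G (F y) = y) (ρ : N → ℝ) {k : ℕ} {p : N}
    (hp : F^[k] p = p) :
    ∏ i ∈ Finset.range k, (ρ (G (G^[i] p)))⁻¹ = (∏ i ∈ Finset.range k, ρ (F^[i] p))⁻¹ := by
  rw [← prod_rev h2 ρ hp, Finset.prod_inv_distrib]
  congr 1
  refine Finset.prod_congr rfl fun i _ => ?_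
  rw [Function.iterate_succ_apply']

end Inv3

open Inv3 in
theorem att_inv [TopologicalSpace N] [TopologicalSpace B] (C : Circ ψ F ρ π f) {G : N → N}
    (h1 : ∀ y, F (G y) = y) (h2 : ∀ y, G (F y) = y) :
    AttPer G (fun y => (ρ (G y))⁻¹) = RepPer F ρ ∧
      RepPer G (fun y => (ρ (G y))⁻¹) = AttPer F ρ := by
  have hpos : ∀ (k : ℕ) (p : N), 0 < ∏ i ∈ Finset.range k, ρ (F^[i] p) := fun k p =>
    Finset.prod_pos fun i _ => C.pos _
  constructor
  · ext p
    constructor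
    · rintro ⟨k, hk, hp, hlt⟩
      have hp' := per_inv h1 hp
      refine ⟨k, hk, hp', ?_⟩
      have e := prod_G h2 ρ hp'
      rw [e] at hlt
      exact (inv_lt_one₀ (hpos k p)).1 hlt
    · rintro ⟨k, hk, hp, hlt⟩
      refine ⟨k, hk, per_inv h2 hp, ?_⟩
      show ∏ i ∈ Finset.range k, (ρ (G (G^[i] p)))⁻¹ < 1
      rw [prod_G h2 ρ hp]
      exact (inv_lt_one₀ (hpos k p)).2 hlt
  · ext p
    constructor
    · rintro ⟨k, hk, hp, hlt⟩
      have hp' := per_inv h1 hp
      refine ⟨k, hk, hp', ?_⟩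
      have e := prod_G h2 ρ hp'
      rw [e] at hlt
      exact (one_lt_inv₀ (hpos k p)).1 hlt
    · rintro ⟨k, hk, hp, hlt⟩
      refine ⟨k, hk, per_inv h2 hp, ?_⟩
      show 1 < ∏ i ∈ Finset.range k, (ρ (G (G^[i] p)))⁻¹
      rw [prod_G h2 ρ hp]
      exact (one_lt_inv₀ (hpos k p)).2 hlt

open Inv3 in
theorem ndn_inv [TopologicalSpace N] [TopologicalSpace B] (C : Circ ψ F ρ π f) {G : N → N}
    (h1 : ∀ y, F (G y) = y) (h2 : ∀ y, G (F y) = y) {δ : ℝ} (h : NDN ψ F ρ δ) :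
    NDN ψ G (fun y => (ρ (G y))⁻¹) δ := by
  intro s hs k p hk hp
  have hz : ∀ y, ψ s (ψ (-s) y) = y := fun y => by
    rw [← C.act.add, add_neg_cancel, C.act.zero]
  have hz' : ∀ y, ψ (-s) (ψ s y) = y := fun y => by
    rw [← C.act.add, neg_add_cancel, C.act.zero]
  have hA : ∀ x, (fun y => ψ s (G y)) ((fun y => F (ψ (-s) y)) x) = x := fun x => by
    show ψ s (G (F (ψ (-s) x))) = x
    rw [h2, hz]
  have hA' : ∀ x, (fun y => F (ψ (-s) y)) ((fun y => ψ s (G y)) x) = x := fun x => by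
    show F (ψ (-s) (ψ s (G x))) = x
    rw [hz', h1]
  have hp' := per_inv (A := fun y => ψ s (G y)) (A' := fun y => F (ψ (-s) y)) hA' hp
  have hconj : ∀ (i : ℕ) (x : N), ψ (-s) ((fun y => F (ψ (-s) y))^[i] x) =
      (fun y => ψ (-s) (F y))^[i] (ψ (-s) x) := by
    intro i
    induction i with
    | zero => intro x; rfl
    | succ i ih =>
      intro x
      rw [Function.iterate_succ_apply, ih, Function.iterate_succ_apply]
  have e1 := h (-s) (by rwa [abs_neg]) k (ψ (-s) p) hk (by rw [← hconj, hp'])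
  have e2 : ∏ i ∈ Finset.range k, (fun y => (ρ (G y))⁻¹) ((fun y => ψ s (G y))^[i] p) =
      (∏ i ∈ Finset.range k, ρ ((fun y => ψ (-s) (F y))^[i] (ψ (-s) p)))⁻¹ := by
    have e3 : ∏ i ∈ Finset.range k, ρ ((fun y => ψ (-s) (F y))^[i] (ψ (-s) p)) =
        ∏ i ∈ Finset.range k, (fun y => ρ (ψ (-s) y)) ((fun y => F (ψ (-s) y))^[i] p) :=
      Finset.prod_congr rfl fun i _ => by
        rw [← hconj]
    rw [e3, ← prod_rev (A := fun y => F (ψ (-s) y)) (A' := fun y => ψ s (G y)) hA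
      (fun y => ρ (ψ (-s) y)) hp', ← Finset.prod_inv_distrib]
    refine Finset.prod_congr rfl fun i _ => ?_
    rw [Function.iterate_succ_apply']
    show (ρ (G _))⁻¹ = (ρ (ψ (-s) (ψ s (G _))))⁻¹
    rw [hz']
  rw [e2]
  intro h3
  exact e1 (inv_eq_one.1 h3)

end Pool.Agent.J4.H98.SP
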