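import Pool.Agent.J4.H98.SP.N1

/-!
# Points of tracks
-/

set_option autoImplicit false
set_option linter.unusedSectionVars false

open Filter Set Topology

universe u v

namespace Pool.Agent.J4.H98.SP

open Pool.Agent.J4.H85.IS Pool.Agent.J4.H85.LE

variable {N : Type u} {B : Type v} {ψ : ℝ → N → N} {F : N → N} {ρ : N → ℝ} {π : N → B} {f : B → B}

section top

variable [TopologicalSpace N] [TopologicalSpace B]

/-- the orbit of a point of a track -/
theorem pt (C : Circ ψ F ρ π f) {x : ℕ → N} {e : ℕ → ℝ} {K : ℕ} {κ : ℝ} (T : Tr ψ F x e K κ)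
    (s t : ℝ) (i : ℕ) :
    (fun y => ψ s (F y))^[i] (ψ t (x 0)) = ψ (orb (fm ψ ρ x e) i t s) (x i) := by
  have h1 := track_iter C (fm_maps C T) s t 0 i
  simp only [zero_add] at h1
  exact h1

theorem pt_fix (C : Circ ψ F ρ π f) {x : ℕ → N} {e : ℕ → ℝ} {K : ℕ} {κ : ℝ} (T : Tr ψ F x e K κ)
    (t : ℝ) : (fun y => ψ (lev (fm ψ ρ x e) K t) (F y))^[K] (ψ t (x 0)) = ψ t (x 0) := by
  have h2 := T.perx 0
  rw [zero_add] at h2
  rw [pt C T, lev_eq (fm_ch C T), h2]

theorem pt_prod (C : Circ ψ F ρ π f) {x : ℕ → N} {e : ℕ → ℝ} {K : ℕ} {κ : ℝ} (T : Tr ψ F x e K κ)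
    (s t : ℝ) (n : ℕ) : ∏ i ∈ Finset.range n, ρ ((fun y => ψ s (F y))^[i] (ψ t (x 0))) =
      dT (fm ψ ρ x e) n t s := by
  unfold dT
  refine Finset.prod_congr rfl fun i _ => ?_
  rw [pt C T, fm_der C]

theorem fam_zero (C : Circ ψ F ρ π f) : (fun y => ψ 0 (F y)) = F := by
  funext y
  exact C.act.zero _

theorem Tr.mono {x : ℕ → N} {e : ℕ → ℝ} {K : ℕ} {κ κ' : ℝ} (T : Tr ψ F x e K κ) (h : κ ≤ κ') :
    Tr ψ F x e K κ' :=
  { T with small := fun i => (T.small i).trans h }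

theorem Tr.x_mul {x : ℕ → N} {e : ℕ → ℝ} {K : ℕ} {κ : ℝ} (T : Tr ψ F x e K κ) (m : ℕ) :
    x (m * K) = x 0 := by
  induction m with
  | zero => rw [Nat.zero_mul]
  | succ m ih => rw [Nat.succ_mul, T.perx, ih]

/-- the images of attracting periodic points -/
theorem att_image (C : Circ ψ F ρ π f) {p : N} (hp : p ∈ AttPer F ρ) : F p ∈ AttPer F ρ := by
  obtain ⟨k, hk, hpk, hp1⟩ := hp
  refine ⟨k, hk, ?_, ?_⟩
  · rw [← Function.iterate_succ_apply, Function.iterate_succ_apply', hpk]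
  · have h1 : ∏ i ∈ Finset.range k, ρ (F^[i] (F p)) = ∏ i ∈ Finset.range k, ρ (F^[i] p) := by
      have h2 := Finset.prod_range_succ (fun i => ρ (F^[i] p)) k
      have h3 := Finset.prod_range_succ' (fun i => ρ (F^[i] p)) k
      rw [h2] at h3
      simp only [Function.iterate_zero, id, hpk] at h3
      exact (mul_right_cancel₀ (C.pos p).ne' h3).symm
    rw [h1]
    exact hp1

theorem att_iterate (C : Circ ψ F ρ π f) {p : N} (hp : p ∈ AttPer F ρ) (n : ℕ) :
    F^[n] p ∈ AttPer F ρ := by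
  induction n with
  | zero => exact hp
  | succ n ih =>
    rw [Function.iterate_succ_apply']
    exact att_image C ih

end top

section top2

variable [TopologicalSpace N] [TopologicalSpace B]

/-- a zero of the level on an increasing branch is an attracting periodic point -/
theorem att_of (C : Circ ψ F ρ π f) {x : ℕ → N} {e : ℕ → ℝ} {K : ℕ} {κ : ℝ} (T : Tr ψ F x e K κ)
    {t : ℝ} (h0 : lev (fm ψ ρ x e) K t = 0) (h1 : 0 < lev' (fm ψ ρ x e) K t) :
    ψ t (x 0) ∈ AttPer F ρ := by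
  have h2 := pt_fix C T t
  have h3 := pt_prod C T 0 t K
  rw [h0, fam_zero C] at h2
  rw [fam_zero C] at h3
  rw [lev'_pos (fm_ch C T), h0, ← h3] at h1
  exact ⟨K, T.one, h2, h1⟩

/-- a zero of the level is a periodic point -/
theorem per_of (C : Circ ψ F ρ π f) {x : ℕ → N} {e : ℕ → ℝ} {K : ℕ} {κ : ℝ} (T : Tr ψ F x e K κ)
    {t : ℝ} (h0 : lev (fm ψ ρ x e) K t = 0) : F^[K] (ψ t (x 0)) = ψ t (x 0) := by
  have h2 := pt_fix C T t
  rw [h0, fam_zero C] at h2
  exact h2

/-- the track of an attracting periodic point -/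
theorem att_track (C : Circ ψ F ρ π f) {P : N} (hP : P ∈ AttPer F ρ) :
    ∃ k : ℕ, Tr ψ F (fun i => F^[i] P) (fun _ => 0) k 0 ∧
      lev (fm ψ ρ (fun i => F^[i] P) (fun _ => 0)) k 0 = 0 ∧
      0 < lev' (fm ψ ρ (fun i => F^[i] P) (fun _ => 0)) k 0 := by
  obtain ⟨k, hk, hPk, hp⟩ := hP
  have T : Tr ψ F (fun i => F^[i] P) (fun _ => 0) k 0 :=
    { one := hk
      perx := fun i => by
        show F^[i + k] P = F^[i] P
        rw [Function.iterate_add_apply, hPk]
      pere := fun _ => rfl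
      step := fun i => by
        show F (F^[i] P) = ψ 0 (F^[i + 1] P)
        rw [C.act.zero, Function.iterate_succ_apply']
      small := fun _ => by rw [abs_zero] }
  have h0 : lev (fm ψ ρ (fun i => F^[i] P) (fun _ => 0)) k 0 = 0 := by
    have := level_small (fm_ch C T) (ε := 0) fun i => by
      rw [fm_zero, abs_zero]
    exact abs_eq_zero.1 (le_antisymm this (abs_nonneg _))
  refine ⟨k, T, h0, ?_⟩
  have h3 := pt_prod C T 0 0 k
  rw [fam_zero C, C.act.zero] at h3
  rw [lev'_pos (fm_ch C T), h0, ← h3]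
  exact hp

end top2

section metric

variable [MetricSpace N] [CompactSpace N] [MetricSpace B] [CompactSpace B]

/-- **Shadowing of periodic pseudo-orbits by tracks.** -/
theorem shadow_tr (C : Circ ψ F ρ π f) (hS : PeriodicShadowing f) {ε : ℝ} (hε : 0 < ε) :
    ∃ η : ℝ, 0 < η ∧ ∀ (y : ℕ → N) (M : ℕ), 1 ≤ M → (∀ i, y (i + M) = y i) →
      (∀ i, dist (F (y i)) (y (i + 1)) < η) → ∃ (x : ℕ → N) (e : ℕ → ℝ), Tr ψ F x e M ε ∧
        ∀ i, dist (x i) (y i) < ε := by
  obtain ⟨η, hη, h⟩ := shadow_chain C hS hε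
  refine ⟨η, hη, fun y M hM hy hd => ?_⟩
  obtain ⟨x, H, HC, hmaps, hxper, hxy, hH0, -⟩ := h y M hM hy hd
  refine ⟨x, fun i => H i 0, ?_, hxy⟩
  exact
    { one := hM
      perx := hxper
      pere := fun i => by
        show H (i + M) 0 = H i 0
        rw [per_fun HC]
      step := fun i => by
        have := hmaps i 0
        rwa [C.act.zero] at this
      small := hH0 }

end metric

end Pool.Agent.J4.H98.SP
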