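import Pool.Agent.J4.H98.SP.Defs

/-!
# Words of closed tracks with small jumps
-/

set_option autoImplicit false
set_option linter.unusedSectionVars false

open Filter Set Topology

universe u v

namespace Pool.Agent.J4.H98.SP

open Pool.Agent.J4.H85.IS Pool.Agent.J4.H85.LE

variable {N : Type u} {B : Type v} {ψ : ℝ → N → N} {F : N → N} {ρ : N → ℝ} {π : N → B} {f : B → B}

namespace W

/-- the flow is uniformly continuous for bounded times -/
theorem flow_unif [MetricSpace N] [CompactSpace N] [MetricSpace B] [CompactSpace B]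
    (C : Circ ψ F ρ π f) {η : ℝ} (hη : 0 < η) : ∃ κ : ℝ, 0 < κ ∧ ∀ s s' : ℝ, |s| ≤ 1 → |s'| ≤ 1 →
      |s - s'| < κ → ∀ y y' : N, dist y y' < κ → dist (ψ s y) (ψ s' y') < η := by
  have h1 : UniformContinuousOn (fun q : ℝ × N => ψ q.1 q.2) (Icc (-1 : ℝ) 1 ×ˢ univ) :=
    (isCompact_Icc.prod isCompact_univ).uniformContinuousOn_of_continuous C.cont.continuousOn
  rw [Metric.uniformContinuousOn_iff] at h1
  obtain ⟨κ, hκ, h⟩ := h1 η hη
  refine ⟨κ, hκ, fun s s' hs hs' hss y y' hy => ?_⟩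
  refine h (s, y) ⟨abs_le.1 hs, mem_univ _⟩ (s', y') ⟨abs_le.1 hs', mem_univ _⟩ ?_
  rw [Prod.dist_eq, max_lt_iff]
  exact ⟨by rwa [Real.dist_eq], hy⟩

/-- the jumps are close if the points are close -/
theorem angle_lim [MetricSpace N] [CompactSpace N] [MetricSpace B] [CompactSpace B]
    (C : Circ ψ F ρ π f) {τ : ℝ} (hτ : 0 < τ) : ∃ κ : ℝ, 0 < κ ∧ ∀ (a b : ℝ) (x x' y y' : N),
      |a| ≤ 1 / 4 → |b| ≤ 1 / 4 → ψ a x' = x → ψ b y' = y → dist x y < κ → dist x' y' < κ →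
      |a - b| ≤ τ := by
  obtain ⟨E, hE1, hE2⟩ := C.exists_angle
  obtain ⟨η, hη, hE⟩ := hE2 (min τ (1 / 2)) (by positivity)
  obtain ⟨κ, hκ, hf⟩ := flow_unif C (η := η / 2) (by positivity)
  refine ⟨min κ (η / 2), by positivity, fun a b x x' y y' ha hb hx hy h1 h2 => ?_⟩
  have h3 : dist (ψ b x') (ψ b y') < η / 2 := hf b b (by linarith) (by linarith)
    (by simpa using hκ) _ _ (lt_of_lt_of_le h2 (min_le_left _ _))
  have h4 : dist (ψ b x') (ψ a x') < η := by
    rw [hx]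
    rw [hy] at h3
    have h5 := dist_triangle (ψ b x') y x
    rw [dist_comm y x] at h5
    have h6 := lt_of_lt_of_le h1 (min_le_right _ _)
    linarith
  have hπ : π (ψ b x') = π (ψ a x') := by rw [C.pi_psi, C.pi_psi]
  have h5 := hE _ _ hπ h4
  have h6 := hE1 _ _ hπ
  set s := E (ψ b x') (ψ a x') with hs
  have h7 : ψ (-b + (s + a)) x' = x' := by
    rw [C.act.add, C.act.add s a, h6, ← C.act.add, neg_add_cancel, C.act.zero]
  obtain ⟨m, hm⟩ := (C.free _ _).1 h7
  have h8 : |s| < τ := lt_of_lt_of_le h5 (min_le_left _ _)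
  have h9 : |s| < 1 / 2 := lt_of_lt_of_le h5 (min_le_right _ _)
  obtain ⟨s1, s2⟩ := abs_lt.1 h9
  obtain ⟨a1, a2⟩ := abs_le.1 ha
  obtain ⟨b1, b2⟩ := abs_le.1 hb
  have hm1 : (-1 : ℝ) < m := by rw [← hm]; linarith
  have hm2 : (m : ℝ) < 1 := by rw [← hm]; linarith
  have hm0 : m = 0 := by
    have h10 : -1 < m := by exact_mod_cast hm1
    have h11 : m < 1 := by exact_mod_cast hm2
    omega
  rw [hm0] at hm
  push_cast at hm
  have h12 : a - b = -s := by linarith
  rw [h12, abs_neg]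
  exact h8.le

/-- the reference sequence of a word -/
def zz (x x' : ℕ → N) (a M i : ℕ) : N :=
  if i % M < a then x (i % M) else x' (i % M - a)

theorem zz_per (x x' : ℕ → N) (a M i : ℕ) : zz x x' a M (i + M) = zz x x' a M i := by
  unfold zz
  rw [Nat.add_mod_right]

theorem zz_one {x x' : ℕ → N} {a M i : ℕ} (h : i < a) (hM : a ≤ M) : zz x x' a M i = x i := by
  unfold zz
  rw [Nat.mod_eq_of_lt (lt_of_lt_of_le h hM), if_pos h]

theorem zz_two {x x' : ℕ → N} {a b i : ℕ} (h : i < b) : zz x x' a (a + b) (a + i) = x' i := by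
  unfold zz
  rw [Nat.mod_eq_of_lt (by omega), if_neg (by omega), Nat.add_sub_cancel_left]

theorem zz_step [MetricSpace N] {x x' : ℕ → N} {a b : ℕ} (ha : 1 ≤ a) (hb : 1 ≤ b)
    (hx : x a = x 0) (hx' : x' b = x' 0) {η : ℝ} (hη : 0 < η)
    (h1 : ∀ i, dist (F (x i)) (x (i + 1)) < η / 2)
    (h2 : ∀ i, dist (F (x' i)) (x' (i + 1)) < η / 2) (h3 : dist (x 0) (x' 0) < η / 2) (i : ℕ) :
    dist (F (zz x x' a (a + b) i)) (zz x x' a (a + b) (i + 1)) < η := by
  have hmod : i % (a + b) < a + b := Nat.mod_lt _ (by omega)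
  have hred : ∀ j, zz x x' a (a + b) j = zz x x' a (a + b) (j % (a + b)) := by
    intro j
    unfold zz
    rw [Nat.mod_mod]
  have hred2 : zz x x' a (a + b) (i + 1) = zz x x' a (a + b) (i % (a + b) + 1) := by
    rw [hred (i + 1), hred (i % (a + b) + 1), Nat.mod_add_mod]
  rw [hred i, hred2]
  set j := i % (a + b)
  rcases lt_or_ge j a with g1 | g1
  · rw [zz_one g1 (by omega)]
    rcases Nat.lt_or_ge (j + 1) a with g2 | g2
    · rw [zz_one g2 (by omega)]
      linarith [h1 j]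
    · have e : j + 1 = a := by omega
      have e2 : zz x x' a (a + b) (j + 1) = x' 0 := by
        have := zz_two (x := x) (x' := x') (a := a) (b := b) (i := 0) (by omega)
        rw [e]
        exact this
      rw [e2]
      have h4 := h1 j
      rw [e, hx] at h4
      linarith [dist_triangle (F (x j)) (x 0) (x' 0)]
  · obtain ⟨k, hk⟩ : ∃ k, j = a + k := ⟨j - a, by omega⟩
    rw [hk, zz_two (by omega)]
    rcases Nat.lt_or_ge (k + 1) b with g2 | g2
    · rw [show a + k + 1 = a + (k + 1) by ring, zz_two g2]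
      linarith [h2 k]
    · have e : k + 1 = b := by omega
      have e2 : zz x x' a (a + b) (a + k + 1) = x 0 := by
        rw [show a + k + 1 = a + b by omega, hred, Nat.mod_self]
        exact zz_one (by omega) (by omega)
      rw [e2]
      have h4 := h2 k
      rw [e, hx'] at h4
      have h5 := dist_triangle (F (x' k)) (x' 0) (x 0)
      rw [dist_comm (x' 0) (x 0)] at h5
      linarith

theorem per_mul {x : ℕ → N} {K : ℕ} (h : ∀ i, x (i + K) = x i) (m i : ℕ) : x (i + m * K) = x i := by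
  induction m with
  | zero => rw [Nat.zero_mul, Nat.add_zero]
  | succ m ih => rw [Nat.succ_mul, ← Nat.add_assoc, h, ih]

theorem tr_iter [TopologicalSpace N] [TopologicalSpace B] (C : Circ ψ F ρ π f) {x : ℕ → N}
    {e : ℕ → ℝ} {K : ℕ} {κ : ℝ} (T : Tr ψ F x e K κ) (k i : ℕ) :
    f^[k] (π (x i)) = π (x (i + k)) := by
  induction k with
  | zero => rfl
  | succ k ih =>
    rw [Function.iterate_succ_apply', ih, ← C.semi, T.step, C.pi_psi]
    rfl

end W

open W in
/-- **Words.** -/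
theorem words [MetricSpace N] [CompactSpace N] [MetricSpace B] [CompactSpace B]
    (C : Circ ψ F ρ π f) {e₀ : ℝ} (he : 0 < e₀) (hX : ExpansiveWith f e₀)
    (hS : PeriodicShadowing f) {ε : ℝ} (hε : 0 < ε) (hε1 : ε ≤ 1 / 4) :
    ∃ κ : ℝ, 0 < κ ∧ ∀ (x : ℕ → N) (e : ℕ → ℝ) (K : ℕ) (x' : ℕ → N) (e' : ℕ → ℝ) (K' : ℕ),
      Tr ψ F x e K κ → Tr ψ F x' e' K' κ → dist (x 0) (x' 0) < κ →
      ∃ (X : ℕ → ℕ → ℕ → N) (E : ℕ → ℕ → ℕ → ℝ),
        (∀ m l, 1 ≤ m → 1 ≤ l → Tr ψ F (X m l) (E m l) (m * K + l * K') ε) ∧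
        (∀ m l, 1 ≤ m → 1 ≤ l → ∀ i < m * K, ∀ t,
          |fm ψ ρ (X m l) (E m l) i t - fm ψ ρ x e i t| ≤ ε) ∧
        (∀ m l, 1 ≤ m → 1 ≤ l → ∀ i < l * K', ∀ t,
          |fm ψ ρ (X m l) (E m l) (m * K + i) t - fm ψ ρ x' e' i t| ≤ ε) ∧
        ∀ τ : ℝ, 0 < τ → ∃ J : ℕ, ∀ m l, 1 ≤ m → 1 ≤ l →
          (∀ i, J ≤ i → i + J ≤ m * K → dist (X m l i) (x i) ≤ τ ∧
            ∀ t, |fm ψ ρ (X m l) (E m l) i t - fm ψ ρ x e i t| ≤ τ) ∧
          (∀ i, J ≤ i → i + J ≤ l * K' → dist (X m l (m * K + i)) (x' i) ≤ τ ∧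
            ∀ t, |fm ψ ρ (X m l) (E m l) (m * K + i) t - fm ψ ρ x' e' i t| ≤ τ) := by
  obtain ⟨lift, hl1, hl2⟩ := C.exists_lift
  obtain ⟨A, hA1, hA2⟩ := C.exists_angle
  obtain ⟨κ₁, hκ₁, hmod⟩ := modulus C hA2 (ε := ε / 2) (by positivity)
  obtain ⟨η4, hη4, hlift⟩ := hl2 κ₁ hκ₁
  obtain ⟨η5, hη5, hsh⟩ := hS (min (η4 / 2) e₀) (by positivity)
  have hπ := CompactSpace.uniformContinuous_of_continuous C.contπ
  rw [Metric.uniformContinuous_iff] at hπ
  obtain ⟨η6, hη6, hπu⟩ := hπ η5 hη5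
  obtain ⟨κ₂, hκ₂, hflow⟩ := flow_unif C (η := min η6 κ₁ / 2) (by positivity)
  set η := min η6 κ₁ with hη
  have hη0 : 0 < η := by positivity
  refine ⟨min (min (κ₂ / 2) (ε / 2)) (η / 2), by positivity,
    fun x e K x' e' K' T T' hd => ?_⟩
  set κ := min (min (κ₂ / 2) (ε / 2)) (η / 2) with hκ
  have hκ1 : κ ≤ κ₂ / 2 := (min_le_left _ _).trans (min_le_left _ _)
  have hκ2 : κ ≤ ε / 2 := (min_le_left _ _).trans (min_le_right _ _)
  have hκ3 : κ ≤ η / 2 := min_le_right _ _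
  have hstep : ∀ (w : ℕ → N) (g : ℕ → ℝ) (L : ℕ), Tr ψ F w g L κ →
      ∀ i, dist (F (w i)) (w (i + 1)) < η / 2 := by
    intro w g L Tw i
    have h1 := hflow (g i) 0 (by linarith [Tw.small i]) (by simp)
      (by rw [sub_zero]; linarith [Tw.small i]) (w (i + 1)) (w (i + 1))
      (by rw [dist_self]; exact hκ₂)
    rw [C.act.zero, ← Tw.step] at h1
    exact h1
  set Z : ℕ → ℕ → ℕ → N := fun m l => zz x x' (m * K) (m * K + l * K') with hZ
  have hmK : ∀ m, 1 ≤ m → 1 ≤ m * K := fun m hm => Nat.mul_pos hm T.one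
  have hlK : ∀ l, 1 ≤ l → 1 ≤ l * K' := fun l hl => Nat.mul_pos hl T'.one
  have hxm : ∀ m, x (m * K) = x 0 := fun m => by
    have := per_mul T.perx m 0
    rwa [Nat.zero_add] at this
  have hxl : ∀ l, x' (l * K') = x' 0 := fun l => by
    have := per_mul T'.perx l 0
    rwa [Nat.zero_add] at this
  have hZstep : ∀ m l, 1 ≤ m → 1 ≤ l → ∀ i, dist (F (Z m l i)) (Z m l (i + 1)) < η :=
    fun m l hm hl i => zz_step (hmK m hm) (hlK l hl) (hxm m) (hxl l) hη0
      (hstep x e K T) (hstep x' e' K' T') (lt_of_lt_of_le hd hκ3) i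
  have hπη : ∀ a b, dist a b < η → dist (π a) (π b) ≤ η5 := fun a b hab =>
    (hπu (lt_of_lt_of_le hab (min_le_left _ _))).le
  -- the shadowing orbits
  have hc : ∀ m l, ∃ c, 1 ≤ m → 1 ≤ l → f^[m * K + l * K'] c = c ∧
      ∀ i, dist (f^[i] c) (π (Z m l i)) ≤ min (η4 / 2) e₀ := by
    intro m l
    by_cases h : 1 ≤ m ∧ 1 ≤ l
    · obtain ⟨c, hc1, hc2⟩ := hsh (fun i => π (Z m l i)) (m * K + l * K')
        (by have := hmK m h.1; omega) (fun i => by
          show π (Z m l (i + (m * K + l * K'))) = π (Z m l i)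
          rw [hZ]
          exact congrArg π (zz_per x x' _ _ i))
        (fun i => by
          show dist (f (π (Z m l i))) (π (Z m l (i + 1))) ≤ η5
          rw [← C.semi]
          exact hπη _ _ (hZstep m l h.1 h.2 i))
      exact ⟨c, fun _ _ => ⟨hc1, hc2⟩⟩
    · exact ⟨π (x 0), fun h1 h2 => absurd ⟨h1, h2⟩ h⟩
  choose c hc using hc
  set X : ℕ → ℕ → ℕ → N := fun m l i => lift (f^[i] (c m l)) (Z m l i) with hXd
  set E : ℕ → ℕ → ℕ → ℝ := fun m l i => A (F (X m l i)) (X m l (i + 1)) with hE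
  have hXπ : ∀ m l i, π (X m l i) = f^[i] (c m l) := fun m l i => hl1 _ _
  have hFX : ∀ m l i, π (F (X m l i)) = π (X m l (i + 1)) := fun m l i => by
    rw [C.semi, hXπ, hXπ, Function.iterate_succ_apply']
  have hXper : ∀ m l, 1 ≤ m → 1 ≤ l → ∀ i, X m l (i + (m * K + l * K')) = X m l i := by
    intro m l hm hl i
    simp only [hXd]
    rw [Function.iterate_add_apply, (hc m l hm hl).1]
    congr 1
    exact zz_per x x' _ _ i
  have hXZ : ∀ m l, 1 ≤ m → 1 ≤ l → ∀ i, dist (X m l i) (Z m l i) < κ₁ := by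
    intro m l hm hl i
    refine hlift _ _ ?_
    have := (hc m l hm hl).2 i
    have h2 := this.trans (min_le_left _ _)
    linarith
  -- closeness in general
  have hgen : ∀ m l, 1 ≤ m → 1 ≤ l → ∀ i t,
      |theta ψ ρ (X m l i) t + E m l i - theta ψ ρ (Z m l i) t| ≤ ε / 2 := by
    intro m l hm hl i t
    exact (hmod _ _ _ _ (hFX m l i) (hXZ m l hm hl i) (hXZ m l hm hl (i + 1))
      (lt_of_lt_of_le (hZstep m l hm hl i) (min_le_right _ _)) t).1
  have hEs : ∀ m l, 1 ≤ m → 1 ≤ l → ∀ i, |E m l i| ≤ ε / 2 := by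
    intro m l hm hl i
    have := hgen m l hm hl i 0
    rw [Circ.theta_zero, Circ.theta_zero, zero_add, sub_zero] at this
    exact this
  have hEstep : ∀ m l i, F (X m l i) = ψ (E m l i) (X m l (i + 1)) := by
    intro m l i
    exact (hA1 _ _ (hFX m l i)).symm
  have hTr : ∀ m l, 1 ≤ m → 1 ≤ l → Tr ψ F (X m l) (E m l) (m * K + l * K') ε := by
    intro m l hm hl
    refine
      { one := by have := hmK m hm; omega
        perx := hXper m l hm hl
        pere := fun i => ?_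
        step := hEstep m l
        small := fun i => by linarith [hEs m l hm hl i] }
    simp only [hE]
    rw [show i + (m * K + l * K') + 1 = (i + 1) + (m * K + l * K') by ring, hXper m l hm hl,
      hXper m l hm hl]
  have hgen2 : ∀ (w : ℕ → N) (g : ℕ → ℝ) (L : ℕ), Tr ψ F w g L κ → ∀ m l, 1 ≤ m → 1 ≤ l →
      ∀ a i, Z m l (a + i) = w i → ∀ t,
      |fm ψ ρ (X m l) (E m l) (a + i) t - fm ψ ρ w g i t| ≤ ε := by
    intro w g L Tw m l hm hl a i hZw t
    have h1 := hgen m l hm hl (a + i) t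
    rw [hZw] at h1
    have h2 := Tw.small i
    have e1 : fm ψ ρ (X m l) (E m l) (a + i) t - fm ψ ρ w g i t =
        (theta ψ ρ (X m l (a + i)) t + E m l (a + i) - theta ψ ρ (w i) t) - g i := by
      unfold fm
      ring
    rw [e1]
    have h3 := abs_sub (theta ψ ρ (X m l (a + i)) t + E m l (a + i) - theta ψ ρ (w i) t) (g i)
    linarith
  -- closeness deep inside
  have hdeep : ∀ τ : ℝ, 0 < τ → ∃ J, ∀ m l, 1 ≤ m → 1 ≤ l → ∀ (w : ℕ → N) (g : ℕ → ℝ) (L : ℕ),
      Tr ψ F w g L κ → ∀ (a n : ℕ), (∀ i < n, Z m l (a + i) = w i) → ∀ i, J ≤ i → i + J ≤ n →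
      dist (X m l (a + i)) (w i) ≤ τ ∧
      ∀ t, |fm ψ ρ (X m l) (E m l) (a + i) t - fm ψ ρ w g i t| ≤ τ := by
    intro τ hτ
    obtain ⟨η1, hη1, hcl⟩ := C.close (ε := τ / 2) (by positivity)
    obtain ⟨κ₃, hκ₃, hang⟩ := angle_lim C (τ := τ / 2) (by positivity)
    have hF := CompactSpace.uniformContinuous_of_continuous C.contF
    rw [Metric.uniformContinuous_iff] at hF
    obtain ⟨η3, hη3, hFu⟩ := hF κ₃ hκ₃
    set κ' := min (min η1 τ) (min κ₃ η3) with hκ'
    have hκ'0 : 0 < κ' := by positivity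
    obtain ⟨η', hη', hlift'⟩ := hl2 κ' hκ'0
    obtain ⟨J', hJ'⟩ := expansive_window C.contf hX hη'
    refine ⟨J' + 2, fun m l hm hl w g L Tw a n hw i hi1 hi2 => ?_⟩
    have key : ∀ j, J' ≤ j → j + J' < n → dist (X m l (a + j)) (w j) < κ' := by
      intro j hj1 hj2
      have hcP : ∃ k, 1 ≤ k ∧ f^[k] (c m l) = c m l :=
        ⟨_, by have := hmK m hm; omega, (hc m l hm hl).1⟩
      have hrP : ∃ k, 1 ≤ k ∧ f^[k] (π (w (j - J'))) = π (w (j - J')) :=
        ⟨L, Tw.one, by rw [tr_iter C Tw, Tw.perx]⟩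
      have h1 := hJ' (f^[a + j - J'] (c m l)) (π (w (j - J'))) (per_iter hcP _)
        hrP (fun k hk => by
        rw [← Function.iterate_add_apply, tr_iter C Tw, ← hw _ (by omega)]
        have h2 := (hc m l hm hl).2 (k + (a + j - J'))
        rw [show a + (j - J' + k) = k + (a + j - J') by omega]
        exact h2.trans (min_le_right _ _))
      rw [← Function.iterate_add_apply, tr_iter C Tw,
        show J' + (a + j - J') = a + j by omega, show j - J' + J' = j by omega] at h1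
      have h3 := hlift' _ _ h1
      simp only [hXd]
      rw [hw j (by omega)]
      exact h3
    have k1 := key i (by omega) (by omega)
    have k2 := key (i + 1) (by omega) (by omega)
    have q1 : κ' ≤ η1 := (min_le_left _ _).trans (min_le_left _ _)
    have q2 : κ' ≤ τ := (min_le_left _ _).trans (min_le_right _ _)
    have q3 : κ' ≤ κ₃ := (min_le_right _ _).trans (min_le_left _ _)
    have q4 : κ' ≤ η3 := (min_le_right _ _).trans (min_le_right _ _)
    have h5 : |E m l (a + i) - g i| ≤ τ / 2 :=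
      hang _ _ (F (X m l (a + i))) (X m l (a + i + 1)) (F (w i)) (w (i + 1))
        (by linarith [hEs m l hm hl (a + i)]) (by linarith [Tw.small i])
        (hEstep m l (a + i)).symm (Tw.step i).symm (hFu (lt_of_lt_of_le k1 q4))
        (lt_of_lt_of_le k2 q3)
    refine ⟨(lt_of_lt_of_le k1 q2).le, fun t => ?_⟩
    have h6 := (hcl _ _ (lt_of_lt_of_le k1 q1) t).2
    have e1 : fm ψ ρ (X m l) (E m l) (a + i) t - fm ψ ρ w g i t =
        (theta ψ ρ (X m l (a + i)) t - theta ψ ρ (w i) t) + (E m l (a + i) - g i) := by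
      unfold fm
      ring
    rw [e1]
    have h7 := abs_add_le (theta ψ ρ (X m l (a + i)) t - theta ψ ρ (w i) t)
      (E m l (a + i) - g i)
    linarith
  have hZ1 : ∀ m l i, i < m * K → Z m l i = x i := fun m l i hi => by
    simp only [hZ]
    exact zz_one hi (Nat.le_add_right _ _)
  have hZ2 : ∀ m l i, i < l * K' → Z m l (m * K + i) = x' i := fun m l i hi => by
    simp only [hZ]
    exact zz_two hi
  refine ⟨X, E, hTr, fun m l hm hl i hi t => ?_, fun m l hm hl i hi t => ?_, fun τ hτ => ?_⟩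
  · have h := hgen2 x e K T m l hm hl 0 i (by rw [Nat.zero_add]; exact hZ1 m l i hi) t
    rwa [Nat.zero_add] at h
  · exact hgen2 x' e' K' T' m l hm hl (m * K) i (hZ2 m l i hi) t
  · obtain ⟨J, hJ⟩ := hdeep τ hτ
    refine ⟨J, fun m l hm hl => ⟨fun i h1 h2 => ?_, fun i h1 h2 => ?_⟩⟩
    · have h := hJ m l hm hl x e K T 0 (m * K)
        (fun j hj => by rw [Nat.zero_add]; exact hZ1 m l j hj) i h1 h2
      rwa [Nat.zero_add] at h
    · exact hJ m l hm hl x' e' K' T' (m * K) (l * K') (fun j hj => hZ2 m l j hj) i h1 h2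

end Pool.Agent.J4.H98.SP
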