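import Pool.Agent.J4.H98.SP.Block
import Pool.Agent.J4.H98.SP.Words
import Pool.Agent.J4.H98.SP.Pt

/-!
# Near attracting periodic points are connected by attracting periodic orbits
-/

set_option autoImplicit false
set_option linter.unusedSectionVars false

open Filter Set Topology

universe u v

namespace Pool.Agent.J4.H98.SP

open Pool.Agent.J4.H85.IS Pool.Agent.J4.H85.LE

variable {N : Type u} {B : Type v} {ψ : ℝ → N → N} {F : N → N} {ρ : N → ℝ} {π : N → B} {f : B → B}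

section metric

variable [MetricSpace N] [CompactSpace N] [MetricSpace B] [CompactSpace B]

/-- no point is on an increasing branch of one track and on a decreasing branch of a near track -/
theorem no_common (C : Circ ψ F ρ π f) {δ η κ : ℝ}
    (hcross : ∀ s s' : ℝ, |s| ≤ δ / 2 → |s'| ≤ δ / 2 → ∀ p q K, 1 ≤ K →
      (fun y => ψ s (F y))^[K] p = p → (fun y => ψ s' (F y))^[K] q = q →
      ∏ i ∈ Finset.range K, ρ ((fun y => ψ s (F y))^[i] p) < 1 →
      1 < ∏ i ∈ Finset.range K, ρ ((fun y => ψ s' (F y))^[i] q) → η ≤ dist p q)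
    {x : ℕ → N} {e : ℕ → ℝ} {K : ℕ} {x' : ℕ → N} {e' : ℕ → ℝ} {K' : ℕ} (T : Tr ψ F x e K κ)
    (T' : Tr ψ F x' e' K' κ) (hflow : ∀ t, dist (ψ t (x 0)) (ψ t (x' 0)) < η) {σ : ℝ}
    (hσ : σ ≤ δ / 2) (t : ℝ) (h1 : |lev (fm ψ ρ x e) K t| ≤ σ)
    (h2 : 0 < lev' (fm ψ ρ x e) K t) (h3 : |lev (fm ψ ρ x' e') K' t| ≤ σ)
    (h4 : lev' (fm ψ ρ x' e') K' t < 0) : False := by
  rw [lev'_pos (fm_ch C T), ← pt_prod C T] at h2
  rw [lev'_neg (fm_ch C T'), ← pt_prod C T'] at h4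
  have f1 := pt_fix C T t
  have f2 := pt_fix C T' t
  have hK := T.one
  have hK' := T'.one
  have h5 := hcross _ _ (h1.trans hσ) (h3.trans hσ) (ψ t (x 0)) (ψ t (x' 0)) (K * K')
    (Nat.mul_pos hK hK') (by rw [Function.iterate_mul]; exact Function.iterate_fixed f1 K')
    (by rw [mul_comm, Function.iterate_mul]; exact Function.iterate_fixed f2 K)
    (by
      rw [prod_mul f1]
      exact pow_lt_one₀ (Finset.prod_nonneg fun i _ => (C.pos _).le) h2 (by omega))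
    (by
      rw [mul_comm, prod_mul f2]
      exact one_lt_pow₀ h4 (by omega))
  have := hflow t
  linarith

/-- **The key theorem.** -/
theorem key (C : Circ ψ F ρ π f) {e₀ : ℝ} (he : 0 < e₀) (hX : ExpansiveWith f e₀)
    (hS : PeriodicShadowing f) {δ : ℝ} (hδ : 0 < δ) (hδ1 : δ ≤ 1) (hnd : NDN ψ F ρ δ) :
    ∃ κ : ℝ, 0 < κ ∧ ∀ (x : ℕ → N) (e : ℕ → ℝ) (K : ℕ) (x' : ℕ → N) (e' : ℕ → ℝ) (K' : ℕ),
      Tr ψ F x e K κ → Tr ψ F x' e' K' κ → dist (x 0) (x' 0) < κ →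
      0 < lev' (fm ψ ρ x e) K 0 → 0 < lev' (fm ψ ρ x' e') K' 0 → ∀ t t' : ℝ,
      lev (fm ψ ρ x e) K t = 0 → (∀ z ∈ uIcc 0 t, |lev (fm ψ ρ x e) K z| < δ) →
      lev (fm ψ ρ x' e') K' t' = 0 → (∀ z ∈ uIcc 0 t', |lev (fm ψ ρ x' e') K' z| < δ) →
      Conn F (AttPer F ρ) (ψ t (x 0)) (ψ t' (x' 0)) := by
  set ε := δ / 16 with hε
  have hε0 : 0 < ε := by positivity
  obtain ⟨κ1, hκ1, hW⟩ := words C he hX hS (ε := ε) hε0 (by rw [hε]; linarith)
  obtain ⟨η, hη, hcross⟩ := cross_levels C he hX hS hδ hδ1 (nd_of_ndn C hnd)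
  obtain ⟨κ2, hκ2, hflow⟩ := flow_unif C hη
  refine ⟨min (min κ1 κ2) ε, by positivity,
    fun x e K x' e' K' T T' hd hp hp' t t' ht hseg ht' hseg' => ?_⟩
  have hk1 : min (min κ1 κ2) ε ≤ κ1 := (min_le_left _ _).trans (min_le_left _ _)
  have hk2 : min (min κ1 κ2) ε ≤ κ2 := (min_le_left _ _).trans (min_le_right _ _)
  have hk3 : min (min κ1 κ2) ε ≤ ε := min_le_right _ _
  have HA := fm_ch C T
  have HB := fm_ch C T'
  have hx0 : x K = x 0 := by simpa using T.perx 0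
  have hx0' : x' K' = x' 0 := by simpa using T'.perx 0
  have nA := nd_of_ndn C hnd x (fm ψ ρ x e) K HA (fm_maps C T) hx0
  have nB := nd_of_ndn C hnd x' (fm ψ ρ x' e') K' HB (fm_maps C T') hx0'
  have DA := reg (fm ψ ρ x e) HA nA
  have DB := reg (fm ψ ρ x' e') HB nB
  have lA : |lev (fm ψ ρ x e) K 0| ≤ ε := level_small HA fun i => by
    rw [fm_zero]
    exact (T.small i).trans hk3
  have lB : |lev (fm ψ ρ x' e') K' 0| ≤ ε := level_small HB fun i => by
    rw [fm_zero]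
    exact (T'.small i).trans hk3
  obtain ⟨pA, cA⟩ := centre_of DA hp lA hε0 (by rw [hε]; linarith) ht hseg
  obtain ⟨pB, cB⟩ := centre_of DB hp' lB hε0 (by rw [hε]; linarith) ht' hseg'
  obtain ⟨a, b, r, q, WA⟩ := exists_hill DA (lev_per HA) (σ := 2 * ε) (by linarith)
    (by rw [hε]; linarith) ht pA
  obtain ⟨a', b', r', q', WB⟩ := exists_hill DB (lev_per HB) (σ := 2 * ε) (by linarith)
    (by rw [hε]; linarith) ht' pB
  have c0 := cA _ _ _ _ WA
  have c0' := cB _ _ _ _ WB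
  have hfl : ∀ t, dist (ψ t (x 0)) (ψ t (x' 0)) < η := fun t => hflow t _ _ (hd.trans_le hk2)
  have hfl' : ∀ t, dist (ψ t (x' 0)) (ψ t (x 0)) < η := fun t => by
    rw [dist_comm]
    exact hfl t
  have hσ : 2 * ε ≤ δ / 2 := by rw [hε]; linarith
  obtain ⟨i1, i2⟩ := interlock WA WB (by linarith) c0 c0' fun t h1 h2 h3 h4 =>
    no_common C hcross T T' hfl hσ t h1 h2 h3 h4
  obtain ⟨i3, i4⟩ := interlock WB WA (by linarith) c0' c0 fun t h1 h2 h3 h4 =>
    no_common C hcross T' T hfl' hσ t h1 h2 h3 h4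
  obtain ⟨X, E, hT, hcl1, hcl2, hdeep⟩ := hW x e K x' e' K' (T.mono hk1) (T'.mono hk1)
    (hd.trans_le hk1)
  intro ε' hε'
  -- continuity of the flow at the two centres
  have hcont : ∀ (t : ℝ) (y : N), ∃ κ3 : ℝ, 0 < κ3 ∧ ∀ (s : ℝ) (z : N), |s - t| ≤ κ3 →
      dist z y ≤ κ3 → dist (ψ s z) (ψ t y) < ε' := by
    intro t y
    have h1 := Metric.continuous_iff.1 C.cont (t, y) ε' hε'
    obtain ⟨κ3, hκ3, h2⟩ := h1
    refine ⟨κ3 / 2, by linarith, fun s z hs hz => h2 (s, z) ?_⟩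
    rw [Prod.dist_eq]
    refine max_lt ?_ ?_
    · show dist s t < κ3
      rw [Real.dist_eq]
      linarith
    · show dist z y < κ3
      linarith
  obtain ⟨κ3, hκ3, hc1⟩ := hcont t (x 0)
  obtain ⟨κ4, hκ4, hc2⟩ := hcont t' (x' 0)
  obtain ⟨τA, hτA, -, mA, hmA⟩ := window_centre HA hε0 WA hκ3
  obtain ⟨τB, hτB, -, mB, hmB⟩ := window_centre HB hε0 WB hκ4
  obtain ⟨J, hJ⟩ := hdeep (min (min τA τB) (min κ3 κ4)) (by positivity)
  obtain ⟨m₀, hm₀⟩ := exists_nat_gt (1 / ε)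
  have hm₀' : 1 < m₀ * ε := by rwa [div_lt_iff₀ hε0] at hm₀
  set j₀ := m₀ + J + 1 with hj₀
  have hj₀' : 1 < (j₀ : ℝ) * ε := by
    have : (m₀ : ℝ) ≤ j₀ := by exact_mod_cast (show m₀ ≤ j₀ by omega)
    exact hm₀'.trans_le (mul_le_mul_of_nonneg_right this hε0.le)
  set m := j₀ + mA + J with hm
  set l := j₀ + mB + J with hl
  have hm1 : 1 ≤ m := by omega
  have hl1 : 1 ≤ l := by omega
  have hmε : 1 < (m : ℝ) * ε := by
    have : (j₀ : ℝ) ≤ m := by exact_mod_cast (show j₀ ≤ m by omega)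
    exact hj₀'.trans_le (mul_le_mul_of_nonneg_right this hε0.le)
  have hlε : 1 < (l : ℝ) * ε := by
    have : (j₀ : ℝ) ≤ l := by exact_mod_cast (show j₀ ≤ l by omega)
    exact hj₀'.trans_le (mul_le_mul_of_nonneg_right this hε0.le)
  have TX := hT m l hm1 hl1
  set H := fm ψ ρ (X m l) (E m l) with hH
  set M := m * K + l * K' with hM
  have HC : Ch H M := fm_ch C TX
  have hX0 : X m l M = X m l 0 := by simpa using TX.perx 0
  have nC := nd_of_ndn C hnd (X m l) H M HC (fm_maps C TX) hX0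
  have DC := reg H HC nC
  have cl1 : ∀ i < m * K, ∀ t, |H i t - fm ψ ρ x e i t| ≤ ε := hcl1 m l hm1 hl1
  have cl2 : ∀ i < l * K', ∀ t, |H (m * K + i) t - fm ψ ρ x' e' i t| ≤ ε := hcl2 m l hm1 hl1
  -- the return map
  have w1 : ∀ z ∈ Icc r q, orb H (m * K) z 0 ∈ Ioo a b := fun z hz =>
    trap_window HA hε0 WA hmε cl1 hz
  have w2 : ∀ z ∈ Icc r' q', orb (fun i => H (m * K + i)) (l * K') z 0 ∈ Ioo a' b' := fun z hz =>
    trap_window HB hε0 WB hlε cl2 hz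
  have w12 : ∀ z ∈ Ioo a b, z ∈ Icc r' q' := fun z hz => ⟨by linarith [hz.1], by linarith [hz.2]⟩
  have w3 : ∀ z ∈ Icc r q, orb H M z 0 ∈ Ioo a' b' := by
    intro z hz
    rw [hM, orb_add]
    exact w2 _ (w12 _ (w1 z hz))
  have hrq : r ≤ q := by linarith [WA.ra, WA.ac, WA.cb, WA.bq]
  have v1 : lev H M r < 0 := lev_lt HC (by
    have := (w3 r ⟨le_rfl, hrq⟩).1
    linarith)
  have v2 : 0 < lev H M q := lt_lev HC (by
    have := (w3 q ⟨hrq, le_rfl⟩).2
    linarith)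
  obtain ⟨t₁, ht₁, ht₁0, ht₁p⟩ := exists_zero DC hδ hrq v1 v2
  have ht₁' : t₁ ∈ Icc r q := ⟨ht₁.1.le, ht₁.2.le⟩
  set R := ψ t₁ (X m l 0) with hR
  have hF0 := fam_zero C
  have hRfix : F^[M] R = R := by
    have := pt_fix C TX t₁
    rw [ht₁0, hF0] at this
    exact this
  have hRA : R ∈ AttPer F ρ := by
    refine ⟨M, TX.one, hRfix, ?_⟩
    have := pt_prod C TX 0 t₁ M
    rw [hF0] at this
    rw [this]
    rw [lev'_pos HC, ht₁0] at ht₁p
    exact ht₁p
  have hpt : ∀ i, F^[i] R = ψ (orb H i t₁ 0) (X m l i) := by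
    intro i
    have := pt C TX 0 t₁ i
    rw [hF0] at this
    exact this
  have hτ := hJ m l hm1 hl1
  have hKm : ∀ k, k ≤ k * K := fun k => Nat.le_mul_of_pos_right k T.one
  have hKm' : ∀ k, k ≤ k * K' := fun k => Nat.le_mul_of_pos_right k T'.one
  have emK : m * K = j₀ * K + mA * K + J * K := by rw [hm]; ring
  have elK : l * K' = j₀ * K' + mB * K' + J * K' := by rw [hl]; ring
  have hJK := hKm J
  have hJK' := hKm' J
  have hjK := hKm j₀
  have hjK' := hKm' j₀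
  -- close to the first centre
  have q1 : dist (F^[(j₀ + mA) * K] R) (ψ t (x 0)) < ε' := by
    have a1 : orb H (j₀ * K) t₁ 0 ∈ Ioo a b :=
      trap_window HA hε0 WA hj₀' (fun i hi => cl1 i (by omega)) ht₁'
    have a2 := hmA (fun i => H (j₀ * K + i)) (fun i hi z => by
      have h1 := (hτ.1 (j₀ * K + i) (by omega) (by omega)).2 z
      rw [per_mul HA] at h1
      exact h1.trans ((min_le_left _ _).trans (min_le_left _ _))) (orb H (j₀ * K) t₁ 0)
      ⟨a1.1.le, a1.2.le⟩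
    rw [← orb_add, ← Nat.add_mul] at a2
    rw [hpt]
    refine hc1 _ _ a2 ?_
    have h1 := (hτ.1 ((j₀ + mA) * K) (by rw [Nat.add_mul]; omega) (by rw [Nat.add_mul]; omega)).1
    rw [T.x_mul] at h1
    exact h1.trans ((min_le_right _ _).trans (min_le_left _ _))
  -- close to the second centre
  have q2 : dist (F^[m * K + (j₀ + mB) * K'] R) (ψ t' (x' 0)) < ε' := by
    have a0 := w12 _ (w1 t₁ ht₁')
    have a1 : orb (fun i => H (m * K + i)) (j₀ * K') (orb H (m * K) t₁ 0) 0 ∈ Ioo a' b' :=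
      trap_window HB hε0 WB hj₀' (fun i hi => cl2 i (by omega)) a0
    have a2 := hmB (fun i => H (m * K + (j₀ * K' + i))) (fun i hi z => by
      have h1 := (hτ.2 (j₀ * K' + i) (by omega) (by omega)).2 z
      rw [per_mul HB] at h1
      exact h1.trans ((min_le_left _ _).trans (min_le_right _ _)))
      (orb (fun i => H (m * K + i)) (j₀ * K') (orb H (m * K) t₁ 0) 0) ⟨a1.1.le, a1.2.le⟩
    have e1 := orb_add (fun i => H (m * K + i)) (j₀ * K') (mB * K') (orb H (m * K) t₁ 0) 0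
    rw [← e1, ← Nat.add_mul] at a2
    rw [← orb_add] at a2
    rw [hpt]
    refine hc2 _ _ a2 ?_
    have h1 := (hτ.2 ((j₀ + mB) * K') (by rw [Nat.add_mul]; omega) (by rw [Nat.add_mul]; omega)).1
    rw [T'.x_mul] at h1
    exact h1.trans ((min_le_right _ _).trans (min_le_right _ _))
  refine ⟨F^[(j₀ + mA) * K] R, att_iterate C hRA _, m * K + (j₀ + mB) * K' - (j₀ + mA) * K, q1, ?_⟩
  rw [← Function.iterate_add_apply, Nat.sub_add_cancel (by rw [Nat.add_mul]; omega)]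
  exact q2

end metric

end Pool.Agent.J4.H98.SP
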