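import Pool.Agent.J4.H98.SP.Dec
/-!
# Definitions for the mixing part of the spectral decomposition
-/
set_option autoImplicit false
set_option linter.unusedSectionVars false
open Filter Set Topology
universe u v
namespace Pool.Agent.J4.H98.SP

variable {N : Type u}

/-- gluing of near periodic points of `A` with periods `K`, `K'` (words with `α` and `β` blocks) -/
def Glue [MetricSpace N] (F : N → N) (A : Set N) (κ : ℝ) : Prop :=
  ∀ P ∈ A, ∀ Q ∈ A, dist P Q < κ → ∀ K K' : ℕ, 1 ≤ K → 1 ≤ K' → F^[K] P = P → F^[K'] Q = Q →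
    ∀ ε : ℝ, 0 < ε → ∃ c : ℕ, ∀ α β : ℕ, c ≤ α → c ≤ β →
      (∃ R ∈ A, F^[α * K + β * K'] R = R ∧ dist R P < ε) ∧
      ∃ R ∈ A, dist R P < ε ∧ dist (F^[α * K + β * K'] R) Q < ε

/-- closing of orbit segments of points of `A` -/
def Closes [MetricSpace N] (F : N → N) (A : Set N) (κ : ℝ) : Prop :=
  ∀ R ∈ A, ∀ t : ℕ, 1 ≤ t → dist (F^[t] R) R < κ → ∃ Q ∈ A, F^[t] Q = Q ∧ Conn F A R Q

/-- `D` is the greatest common divisor of the periods of the points of `A` in `S` -/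
def IsPeriodGcd (F : N → N) (A S : Set N) (D : ℕ) : Prop :=
  1 ≤ D ∧ (∀ Q ∈ A, Q ∈ S → ∀ t : ℕ, F^[t] Q = Q → D ∣ t) ∧
    ∀ d : ℕ, (∀ Q ∈ A, Q ∈ S → ∀ t : ℕ, F^[t] Q = Q → d ∣ t) → d ∣ D

/-- cyclic decomposition of `S` with mixing return map -/
structure CyclicMixing [TopologicalSpace N] (F : N → N) (S : Set N) (m : ℕ) (T : ℕ → Set N) :
    Prop where
  one : 1 ≤ m
  per : ∀ j, T (j + m) = T j
  closed : ∀ j, IsClosed (T j)
  image : ∀ j, F '' T j = T (j + 1)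
  union : (⋃ j, T j) = S
  disjoint : ∀ i j, i < m → j < m → i ≠ j → Disjoint (T i) (T j)
  mixing : ∀ j, ∀ U V : Set N, IsOpen U → IsOpen V → (U ∩ T j).Nonempty → (V ∩ T j).Nonempty →
    ∃ n₀ : ℕ, ∀ n, n₀ ≤ n → ∃ x ∈ U ∩ T j, F^[n * m] x ∈ V

end Pool.Agent.J4.H98.SP
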