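import Pool.Agent.J4.H98.SP.Nc
import Pool.Agent.J4.H98.SP.MixDefs

/-!
# The key theorem with control of the times
-/

set_option autoImplicit false
set_option linter.unusedSectionVars false

open Filter Set Topology

universe u v

namespace Pool.Agent.J4.H98.SP

open Pool.Agent.J4.H85.IS Pool.Agent.J4.H85.LE

variable {N : Type u} {B : Type v} {ψ : ℝ → N → N} {F : N → N} {ρ : N → ℝ} {π : N → B} {f : B → B}

section metric

variable [MetricSpace N] [CompactSpace N] [MetricSpace B] [CompactSpace B]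

/-- **The key theorem with control of the times.** -/
theorem key2 (C : Circ ψ F ρ π f) {e₀ : ℝ} (he : 0 < e₀) (hX : ExpansiveWith f e₀)
    (hS : PeriodicShadowing f) {δ : ℝ} (hδ : 0 < δ) (hδ1 : δ ≤ 1) (hnd : NDN ψ F ρ δ) :
    ∃ κ : ℝ, 0 < κ ∧ ∀ (x : ℕ → N) (e : ℕ → ℝ) (K : ℕ) (x' : ℕ → N) (e' : ℕ → ℝ) (K' : ℕ),
      Tr ψ F x e K κ → Tr ψ F x' e' K' κ → dist (x 0) (x' 0) < κ →
      0 < lev' (fm ψ ρ x e) K 0 → 0 < lev' (fm ψ ρ x' e') K' 0 → ∀ t t' : ℝ,
      lev (fm ψ ρ x e) K t = 0 → (∀ z ∈ uIcc 0 t, |lev (fm ψ ρ x e) K z| < δ) →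
      lev (fm ψ ρ x' e') K' t' = 0 → (∀ z ∈ uIcc 0 t', |lev (fm ψ ρ x' e') K' z| < δ) →
      ∀ ε' : ℝ, 0 < ε' → ∃ a b J' : ℕ, ∀ m l jA jB : ℕ, J' ≤ jA → jA + a + J' ≤ m → J' ≤ jB →
        jB + b + J' ≤ l → ∃ R ∈ AttPer F ρ, F^[m * K + l * K'] R = R ∧
          dist (F^[(jA + a) * K] R) (ψ t (x 0)) < ε' ∧
          dist (F^[m * K + (jB + b) * K'] R) (ψ t' (x' 0)) < ε' := by
  set ε := δ / 16 with hε
  have hε0 : 0 < ε := by positivity
  obtain ⟨κ1, hκ1, hW⟩ := words C he hX hS (ε := ε) hε0 (by rw [hε]; linarith)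
  obtain ⟨η, hη, hcross⟩ := cross_levels C he hX hS hδ hδ1 (nd_of_ndn C hnd)
  obtain ⟨κ2, hκ2, hflow⟩ := flow_unif C hη
  refine ⟨min (min κ1 κ2) ε, by positivity,
    fun x e K x' e' K' T T' hd hp hp' t t' ht hseg ht' hseg' => ?_⟩
  have hk1 : min (min κ1 κ2) ε ≤ κ1 := (min_le_left _ _).trans (min_le_left _ _)
  have hk2 : min (min κ1 κ2) ε ≤ κ2 := (min_le_left _ _).trans (min_le_right _ _)
  have hk3 : min (min κ1 κ2) ε ≤ ε := min_le_right _ _
  have HA := fm_ch C T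
  have HB := fm_ch C T'
  have hx0 : x K = x 0 := by simpa using T.perx 0
  have hx0' : x' K' = x' 0 := by simpa using T'.perx 0
  have nA := nd_of_ndn C hnd x (fm ψ ρ x e) K HA (fm_maps C T) hx0
  have nB := nd_of_ndn C hnd x' (fm ψ ρ x' e') K' HB (fm_maps C T') hx0'
  have DA := reg (fm ψ ρ x e) HA nA
  have DB := reg (fm ψ ρ x' e') HB nB
  have lA : |lev (fm ψ ρ x e) K 0| ≤ ε := level_small HA fun i => by
    rw [fm_zero]
    exact (T.small i).trans hk3
  have lB : |lev (fm ψ ρ x' e') K' 0| ≤ ε := level_small HB fun i => by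
    rw [fm_zero]
    exact (T'.small i).trans hk3
  obtain ⟨pA, cA⟩ := centre_of DA hp lA hε0 (by rw [hε]; linarith) ht hseg
  obtain ⟨pB, cB⟩ := centre_of DB hp' lB hε0 (by rw [hε]; linarith) ht' hseg'
  obtain ⟨a, b, r, q, WA⟩ := exists_hill DA (lev_per HA) (σ := 2 * ε) (by linarith)
    (by rw [hε]; linarith) ht pA
  obtain ⟨a', b', r', q', WB⟩ := exists_hill DB (lev_per HB) (σ := 2 * ε) (by linarith)
    (by rw [hε]; linarith) ht' pB
  have c0 := cA _ _ _ _ WA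
  have c0' := cB _ _ _ _ WB
  have hfl : ∀ t, dist (ψ t (x 0)) (ψ t (x' 0)) < η := fun t => hflow t _ _ (hd.trans_le hk2)
  have hfl' : ∀ t, dist (ψ t (x' 0)) (ψ t (x 0)) < η := fun t => by
    rw [dist_comm]
    exact hfl t
  have hσ : 2 * ε ≤ δ / 2 := by rw [hε]; linarith
  obtain ⟨i1, i2⟩ := interlock WA WB (by linarith) c0 c0' fun t h1 h2 h3 h4 =>
    no_common C hcross T T' hfl hσ t h1 h2 h3 h4
  obtain ⟨i3, i4⟩ := interlock WB WA (by linarith) c0' c0 fun t h1 h2 h3 h4 =>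
    no_common C hcross T' T hfl' hσ t h1 h2 h3 h4
  obtain ⟨X, E, hT, hcl1, hcl2, hdeep⟩ := hW x e K x' e' K' (T.mono hk1) (T'.mono hk1)
    (hd.trans_le hk1)
  intro ε' hε'
  -- continuity of the flow at the two centres
  have hcont : ∀ (t : ℝ) (y : N), ∃ κ3 : ℝ, 0 < κ3 ∧ ∀ (s : ℝ) (z : N), |s - t| ≤ κ3 →
      dist z y ≤ κ3 → dist (ψ s z) (ψ t y) < ε' := by
    intro t y
    have h1 := Metric.continuous_iff.1 C.cont (t, y) ε' hε'
    obtain ⟨κ3, hκ3, h2⟩ := h1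
    refine ⟨κ3 / 2, by linarith, fun s z hs hz => h2 (s, z) ?_⟩
    rw [Prod.dist_eq]
    refine max_lt ?_ ?_
    · show dist s t < κ3
      rw [Real.dist_eq]
      linarith
    · show dist z y < κ3
      linarith
  obtain ⟨κ3, hκ3, hc1⟩ := hcont t (x 0)
  obtain ⟨κ4, hκ4, hc2⟩ := hcont t' (x' 0)
  obtain ⟨τA, hτA, -, mA, hmA⟩ := window_centre HA hε0 WA hκ3
  obtain ⟨τB, hτB, -, mB, hmB⟩ := window_centre HB hε0 WB hκ4
  obtain ⟨J, hJ⟩ := hdeep (min (min τA τB) (min κ3 κ4)) (by positivity)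
  obtain ⟨m₀, hm₀⟩ := exists_nat_gt (1 / ε)
  have hm₀' : 1 < m₀ * ε := by rwa [div_lt_iff₀ hε0] at hm₀
  set j₀ := m₀ + J + 1 with hj₀
  refine ⟨mA, mB, j₀, fun m l jA jB hjA hm hjB hl => ?_⟩
  have hbig : ∀ j : ℕ, j₀ ≤ j → 1 < (j : ℝ) * ε := by
    intro j hj
    have : (m₀ : ℝ) ≤ j := by exact_mod_cast (show m₀ ≤ j by omega)
    exact hm₀'.trans_le (mul_le_mul_of_nonneg_right this hε0.le)
  have hm1 : 1 ≤ m := by omega
  have hl1 : 1 ≤ l := by omega
  have hmε : 1 < (m : ℝ) * ε := hbig m (by omega)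
  have hjAε : 1 < (jA : ℝ) * ε := hbig jA hjA
  have hjBε : 1 < (jB : ℝ) * ε := hbig jB hjB
  have hlε : 1 < (l : ℝ) * ε := hbig l (by omega)
  have TX := hT m l hm1 hl1
  set H := fm ψ ρ (X m l) (E m l) with hH
  set M := m * K + l * K' with hM
  have HC : Ch H M := fm_ch C TX
  have hX0 : X m l M = X m l 0 := by simpa using TX.perx 0
  have nC := nd_of_ndn C hnd (X m l) H M HC (fm_maps C TX) hX0
  have DC := reg H HC nC
  have cl1 : ∀ i < m * K, ∀ t, |H i t - fm ψ ρ x e i t| ≤ ε := hcl1 m l hm1 hl1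
  have cl2 : ∀ i < l * K', ∀ t, |H (m * K + i) t - fm ψ ρ x' e' i t| ≤ ε := hcl2 m l hm1 hl1
  -- the return map
  have w1 : ∀ z ∈ Icc r q, orb H (m * K) z 0 ∈ Ioo a b := fun z hz =>
    trap_window HA hε0 WA hmε cl1 hz
  have w2 : ∀ z ∈ Icc r' q', orb (fun i => H (m * K + i)) (l * K') z 0 ∈ Ioo a' b' := fun z hz =>
    trap_window HB hε0 WB hlε cl2 hz
  have w12 : ∀ z ∈ Ioo a b, z ∈ Icc r' q' := fun z hz => ⟨by linarith [hz.1], by linarith [hz.2]⟩
  have w3 : ∀ z ∈ Icc r q, orb H M z 0 ∈ Ioo a' b' := by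
    intro z hz
    rw [hM, orb_add]
    exact w2 _ (w12 _ (w1 z hz))
  have hrq : r ≤ q := by linarith [WA.ra, WA.ac, WA.cb, WA.bq]
  have v1 : lev H M r < 0 := lev_lt HC (by
    have := (w3 r ⟨le_rfl, hrq⟩).1
    linarith)
  have v2 : 0 < lev H M q := lt_lev HC (by
    have := (w3 q ⟨hrq, le_rfl⟩).2
    linarith)
  obtain ⟨t₁, ht₁, ht₁0, ht₁p⟩ := exists_zero DC hδ hrq v1 v2
  have ht₁' : t₁ ∈ Icc r q := ⟨ht₁.1.le, ht₁.2.le⟩
  set R := ψ t₁ (X m l 0) with hR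
  have hF0 := fam_zero C
  have hRfix : F^[M] R = R := by
    have := pt_fix C TX t₁
    rw [ht₁0, hF0] at this
    exact this
  have hRA : R ∈ AttPer F ρ := by
    refine ⟨M, TX.one, hRfix, ?_⟩
    have := pt_prod C TX 0 t₁ M
    rw [hF0] at this
    rw [this]
    rw [lev'_pos HC, ht₁0] at ht₁p
    exact ht₁p
  have hpt : ∀ i, F^[i] R = ψ (orb H i t₁ 0) (X m l i) := by
    intro i
    have := pt C TX 0 t₁ i
    rw [hF0] at this
    exact this
  have hτ := hJ m l hm1 hl1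
  have hKm : ∀ k, k ≤ k * K := fun k => Nat.le_mul_of_pos_right k T.one
  have hKm' : ∀ k, k ≤ k * K' := fun k => Nat.le_mul_of_pos_right k T'.one
  have emK : jA * K + mA * K + J * K ≤ m * K := by
    rw [← Nat.add_mul, ← Nat.add_mul]
    exact Nat.mul_le_mul_right K (by omega)
  have elK : jB * K' + mB * K' + J * K' ≤ l * K' := by
    rw [← Nat.add_mul, ← Nat.add_mul]
    exact Nat.mul_le_mul_right K' (by omega)
  have hJK := hKm J
  have hJK' := hKm' J
  have hjK := hKm jA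
  have hjK' := hKm' jB
  refine ⟨R, hRA, hRfix, ?_, ?_⟩
  -- close to the first centre
  · have a1 : orb H (jA * K) t₁ 0 ∈ Ioo a b :=
      trap_window HA hε0 WA hjAε (fun i hi => cl1 i (by omega)) ht₁'
    have a2 := hmA (fun i => H (jA * K + i)) (fun i hi z => by
      have h1 := (hτ.1 (jA * K + i) (by omega) (by omega)).2 z
      rw [per_mul HA] at h1
      exact h1.trans ((min_le_left _ _).trans (min_le_left _ _))) (orb H (jA * K) t₁ 0)
      ⟨a1.1.le, a1.2.le⟩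
    rw [← orb_add, ← Nat.add_mul] at a2
    rw [hpt]
    refine hc1 _ _ a2 ?_
    have h1 := (hτ.1 ((jA + mA) * K) (by rw [Nat.add_mul]; omega) (by rw [Nat.add_mul]; omega)).1
    rw [T.x_mul] at h1
    exact h1.trans ((min_le_right _ _).trans (min_le_left _ _))
  -- close to the second centre
  · have a0 := w12 _ (w1 t₁ ht₁')
    have a1 : orb (fun i => H (m * K + i)) (jB * K') (orb H (m * K) t₁ 0) 0 ∈ Ioo a' b' :=
      trap_window HB hε0 WB hjBε (fun i hi => cl2 i (by omega)) a0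
    have a2 := hmB (fun i => H (m * K + (jB * K' + i))) (fun i hi z => by
      have h1 := (hτ.2 (jB * K' + i) (by omega) (by omega)).2 z
      rw [per_mul HB] at h1
      exact h1.trans ((min_le_left _ _).trans (min_le_right _ _)))
      (orb (fun i => H (m * K + i)) (jB * K') (orb H (m * K) t₁ 0) 0) ⟨a1.1.le, a1.2.le⟩
    have e1 := orb_add (fun i => H (m * K + i)) (jB * K') (mB * K') (orb H (m * K) t₁ 0) 0
    rw [← e1, ← Nat.add_mul] at a2
    rw [← orb_add] at a2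
    rw [hpt]
    refine hc2 _ _ a2 ?_
    have h1 := (hτ.2 ((jB + mB) * K') (by rw [Nat.add_mul]; omega) (by rw [Nat.add_mul]; omega)).1
    rw [T'.x_mul] at h1
    exact h1.trans ((min_le_right _ _).trans (min_le_right _ _))

/-- the track of an attracting periodic point, for any period -/
theorem att_track' (C : Circ ψ F ρ π f) {P : N} (hP : P ∈ AttPer F ρ) {K : ℕ} (hK : 1 ≤ K)
    (hPK : F^[K] P = P) : Tr ψ F (fun i => F^[i] P) (fun _ => 0) K 0 ∧
      lev (fm ψ ρ (fun i => F^[i] P) (fun _ => 0)) K 0 = 0 ∧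
      0 < lev' (fm ψ ρ (fun i => F^[i] P) (fun _ => 0)) K 0 := by
  have T : Tr ψ F (fun i => F^[i] P) (fun _ => 0) K 0 :=
    { one := hK
      perx := fun i => by
        show F^[i + K] P = F^[i] P
        rw [Function.iterate_add_apply, hPK]
      pere := fun _ => rfl
      step := fun i => by
        show F (F^[i] P) = ψ 0 (F^[i + 1] P)
        rw [C.act.zero, Function.iterate_succ_apply']
      small := fun _ => by rw [abs_zero] }
  have h0 : lev (fm ψ ρ (fun i => F^[i] P) (fun _ => 0)) K 0 = 0 := by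
    have := level_small (fm_ch C T) (ε := 0) fun i => by
      rw [fm_zero, abs_zero]
    exact abs_eq_zero.1 (le_antisymm this (abs_nonneg _))
  refine ⟨T, h0, ?_⟩
  obtain ⟨k, hk, hPk, hp⟩ := hP
  have h3 := pt_prod C T 0 0 K
  rw [fam_zero C, C.act.zero] at h3
  rw [lev'_pos (fm_ch C T), h0, ← h3]
  by_contra hcon
  push Not at hcon
  have h4 := prod_mul (ρ := ρ) hPK k
  have h5 := prod_mul (ρ := ρ) hPk K
  rw [mul_comm K k, h5] at h4
  have h6 : (∏ i ∈ Finset.range k, ρ (F^[i] P)) ^ K < 1 :=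
    pow_lt_one₀ (Finset.prod_nonneg fun i _ => (C.pos _).le) hp (by omega)
  have h7 : 1 ≤ (∏ i ∈ Finset.range K, ρ (F^[i] P)) ^ k := one_le_pow₀ hcon
  rw [← h4] at h7
  linarith

/-- **Gluing.** -/
theorem glue (C : Circ ψ F ρ π f) {e₀ : ℝ} (he : 0 < e₀) (hX : ExpansiveWith f e₀)
    (hS : PeriodicShadowing f) {δ : ℝ} (hδ : 0 < δ) (hδ1 : δ ≤ 1) (hnd : NDN ψ F ρ δ) :
    ∃ κ : ℝ, 0 < κ ∧ Glue F (AttPer F ρ) κ := by
  obtain ⟨κ, hκ, hkey⟩ := key2 C he hX hS hδ hδ1 hnd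
  refine ⟨κ, hκ, fun P hP Q hQ hd K K' hK hK' hPK hQK ε hε => ?_⟩
  obtain ⟨T, l0, l1⟩ := att_track' C hP hK hPK
  obtain ⟨T', l0', l1'⟩ := att_track' C hQ hK' hQK
  obtain ⟨a, b, J, h⟩ := hkey _ _ K _ _ K' (T.mono hκ.le) (T'.mono hκ.le) hd l1 l1' 0 0 l0
    (fun z hz => by
      rw [uIcc_self, mem_singleton_iff] at hz
      rw [hz, l0, abs_zero]
      exact hδ) l0' (fun z hz => by
      rw [uIcc_self, mem_singleton_iff] at hz
      rw [hz, l0', abs_zero]
      exact hδ) ε hε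
  refine ⟨J + a + J + b + J, fun α β hα hβ => ⟨?_, ?_⟩⟩
  · obtain ⟨R, hR, hfix, h1, -⟩ := h α β J J le_rfl (by omega) le_rfl (by omega)
    rw [C.act.zero] at h1
    refine ⟨F^[(J + a) * K] R, att_iterate C hR _, ?_, h1⟩
    rw [← Function.iterate_add_apply, Nat.add_comm, Function.iterate_add_apply, hfix]
  · obtain ⟨R, hR, -, h1, h2⟩ := h (J + a + α) (β + J) J (β - b) le_rfl (by omega) (by omega)
      (by omega)
    rw [C.act.zero] at h1 h2
    refine ⟨F^[(J + a) * K] R, att_iterate C hR _, h1, ?_⟩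
    have e : (J + a + α) * K + (β - b + b) * K' = α * K + β * K' + (J + a) * K := by
      rw [Nat.sub_add_cancel (by omega)]
      ring
    rw [e, Function.iterate_add_apply] at h2
    exact h2

end metric

end Pool.Agent.J4.H98.SP
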