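import Pool.Agent.J4.H98.SP.Spec
import Pool.Agent.J4.H98.SP.Filt
import Pool.Agent.J4.H98.FibL

/-!
# Spectral decomposition: from the manifold to the metric version
-/

set_option autoImplicit false
set_option linter.unusedSectionVars false

open scoped Manifold ContDiff Topology
open Filter Set

universe u v

namespace Pool.Agent.J4.H98.SP

open Pool.Agent.J4.H85.IS Pool.Agent.J4.H85.LE
open Pool.Agent.TH80.OMS
open Pool.Agent.H718R2.G
open Pool.Agent.TH290.CL (IsFlow)
open Pool.Agent.R774.OS (CR mem_CR)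
open Pool.Agent.J4.H98.Fib (ChainTo diag_dist)

section chains

variable {N : Type u} [MetricSpace N] [CompactSpace N] {G : N → N}

theorem chainTo_iff {x y : N} : ChainTo G x y ↔ ∀ ε : ℝ, 0 < ε → EC G ε x y := by
  constructor
  · intro h ε hε
    obtain ⟨l, X, h1, h2, h3, h4⟩ := h {q | dist q.1 q.2 < ε}
      (isOpen_lt continuous_dist continuous_const) (fun z => by
        show dist z z < ε
        rwa [dist_self])
    exact ⟨X, l, h1, h2, h3, h4⟩
  · intro h W hW hd
    obtain ⟨δ, hδ, hW⟩ := diag_dist hW hd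
    obtain ⟨X, l, h1, h2, h3, h4⟩ := h δ hδ
    exact ⟨l, X, h1, h2, h3, fun i hi => hW _ _ (h4 i hi)⟩

theorem cr_iff {x : N} : x ∈ CR G ↔ ∀ ε : ℝ, 0 < ε → EC G ε x x := by
  rw [mem_CR]
  constructor
  · intro h ε hε
    obtain ⟨m, X, hm, h0, h1, h2⟩ := h ε hε
    refine ⟨X, m, hm, h0, ?_, fun i _ => h2 i⟩
    have := h1 0
    rw [zero_add] at this
    rw [this, h0]
  · intro h ε hε
    obtain ⟨X, m, hm, h0, h1, h2⟩ := h ε hε
    exact Pool.Agent.R774.OS.Ch.of hm h0 h1 h2

end chains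

section fam

variable {N : Type u} {B : Type v} [TopologicalSpace N] [TopologicalSpace B] {ψ : ℝ → N → N}
  {F : N → N} {ρ : N → ℝ} {π : N → B} {f : B → B}

theorem ndn_fam (C : Circ ψ F ρ π f) {δ : ℝ} (h : NDN ψ F ρ δ) {s : ℝ} (hs : |s| < δ / 2) :
    NDN ψ (fun y => ψ s (F y)) ρ (δ / 2) := by
  intro s' hs' k p hk hp
  have e : (fun y => ψ s' (ψ s (F y))) = fun y => ψ (s' + s) (F y) := by
    funext y
    rw [C.act.add]
  have h1 : |s' + s| < δ := by
    have := abs_add_le s' s
    linarith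
  have h2 : (fun y => ψ s' ((fun y => ψ s (F y)) y)) = fun y => ψ (s' + s) (F y) := e
  rw [h2] at hp ⊢
  exact h (s' + s) h1 k p hk hp

end fam

/-- A filtration adapted to the sets `Λ a`, in some order: open sets `∅ = U 0 ⊆ U 1 ⊆ ... ⊆ U k = N` with
`G (closure (U j)) ⊆ U j`, such that `U (j + 1) \ U j` contains exactly one chain recurrence class of `G`,
the one of `Λ (σ j)`. -/
def Filtered {N : Type u} [TopologicalSpace N] (G : N → N) {k : ℕ} (Λ : Fin k → Set N) : Prop :=
  ∃ (σ : Fin k ≃ Fin k) (U : ℕ → Set N), U 0 = ∅ ∧ U k = univ ∧ (∀ j, IsOpen (U j)) ∧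
    (∀ j, ∀ x ∈ closure (U j), G x ∈ U j) ∧ (∀ j, U j ⊆ U (j + 1)) ∧
    ∀ (j : Fin k), ∀ x ∈ CR G,
      (x ∈ U (j + 1) ∧ x ∉ U j ↔ ∀ y ∈ Λ (σ j), ChainTo G x y ∧ ChainTo G y x)

/-- Smale's spectral decomposition of the nonwandering set of `G`, and absence of cycles: `Ω(G)` is the
disjoint union of the sets `Λ a`, which are closed, invariant and topologically transitive; each of them
is the closure of its periodic points which are attracting along the fibres, or of its periodic points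
which are repelling along the fibres; each `Λ a` is the disjoint union of finitely many closed sets which
`G` permutes cyclically, and on which the return map of `G` is topologically mixing; every chain
recurrence class of `G` contains exactly one `Λ a`, and `G` has a filtration adapted to the `Λ a`. -/
structure SpectralNoCycles {N : Type u} [TopologicalSpace N] (G : N → N) (ρ : N → ℝ) {k : ℕ}
    (Λ : Fin k → Set N) : Prop where
  basic : ∀ a, Basic G (Λ a)
  disjoint : ∀ a b, a ≠ b → Disjoint (Λ a) (Λ b)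
  union : (⋃ a, Λ a) = Omega G
  types : ∀ a, Λ a = closure (Λ a ∩ AttPer G ρ) ∨ Λ a = closure (Λ a ∩ RepPer G ρ)
  mixing : ∀ a, ∃ (m : ℕ) (T : ℕ → Set N), CyclicMixing G (Λ a) m T
  chains : ∀ a, ∀ x ∈ Λ a, ∀ y ∈ Λ a, ChainTo G x y
  classes : ∀ x ∈ CR G, ∃! a, ∀ y ∈ Λ a, ChainTo G x y ∧ ChainTo G y x
  filtration : Filtered G Λ

variable {n : ℕ} {N : Type u} [TopologicalSpace N] [T2Space N] [CompactSpace N]
  [ChartedSpace (V n) N] [IsManifold (𝓡 n) ∞ N]

theorem ndn_of {B : Type v} [TopologicalSpace B] {ψ : ℝ → N → N} (hψ : IsFlow n N ψ)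
    {F : N → N} {ρ : N → ℝ} {π : N → B} {f : B → B} (C : Circ ψ F ρ π f) {δ : ℝ}
    (hh : ∀ s, |s| < δ → ∀ p, p ∈ Per (fun y => ψ s (F y)) →
        Pool.Agent.Y504.CO.IsHyperbolicPer n (fun y => ψ s (F y)) p) : NDN ψ F ρ δ := by
  intro s hs k p hk hp h1
  have T : Tr ψ F (fun i => (fun y => ψ s (F y))^[i] p) (fun _ => -s) k |s| :=
    { one := hk
      perx := fun i => by
        show (fun y => ψ s (F y))^[i + k] p = (fun y => ψ s (F y))^[i] p
        rw [Function.iterate_add_apply, hp]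
      pere := fun _ => rfl
      step := fun i => by
        show F ((fun y => ψ s (F y))^[i] p) = ψ (-s) ((fun y => ψ s (F y))^[i + 1] p)
        rw [Function.iterate_succ_apply']
        show _ = ψ (-s) (ψ s (F ((fun y => ψ s (F y))^[i] p)))
        rw [← C.act.add, neg_add_cancel, C.act.zero]
      small := fun _ => by rw [abs_neg] }
  have hn := track_nondeg hψ C.free hh (fm_ch C T) (fm_maps C T) hp
  have h0 : ∀ i, orb (fm ψ ρ (fun i => (fun y => ψ s (F y))^[i] p) (fun _ => -s)) i 0 s = 0 := by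
    intro i
    induction i with
    | zero => rfl
    | succ i ih =>
      show fm ψ ρ (fun i => (fun y => ψ s (F y))^[i] p) (fun _ => -s) i _ + s = 0
      rw [ih, fm_zero, neg_add_cancel]
  refine hn 0 s hs ?_ ?_
  · show orb (fm ψ ρ (fun i => (fun y => ψ s (F y))^[i] p) (fun _ => -s)) k 0 s - 0 - 0 = 0
    rw [h0]
    ring
  · show dT (fm ψ ρ (fun i => (fun y => ψ s (F y))^[i] p) (fun _ => -s)) k 0 s - 1 = 0
    have h2 := pt_prod C T s 0 k
    rw [C.act.zero] at h2
    rw [← h2]
    show ∏ i ∈ Finset.range k, ρ ((fun y => ψ s (F y))^[i] p) - 1 = 0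
    rw [h1, sub_self]

/-- the decomposition for one map of the family -/
theorem spectral_of {B : Type v} [MetricSpace B] [CompactSpace B] {ψ : ℝ → N → N}
    (_ : IsFlow n N ψ) {F G : N → N} {ρ : N → ℝ} {π : N → B} {f : B → B} (C : Circ ψ F ρ π f) (g1 : ∀ y, F (G y) = y)
    (g2 : ∀ y, G (F y) = y) (hX : ExpansiveOnPer f) (hS : PeriodicShadowing f) {δ : ℝ}
    (hδ : 0 < δ) (hnd : NDN ψ F ρ δ) (hO : Omega F = closure (Per F)) :
    ∃ (k : ℕ) (Λ : Fin k → Set N), SpectralNoCycles F ρ Λ := by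
  have : SecondCountableTopology N := ChartedSpace.secondCountable_of_sigmaCompact (V n) N
  let _ : MetricSpace N := TopologicalSpace.metrizableSpaceMetric N
  obtain ⟨e, he, hX⟩ := hX
  obtain ⟨k, Λ, h1, h2, h3, h4, h4', h5, h6⟩ := spectral C g1 g2 he hX hS (δ := min δ 1)
    (by positivity) (min_le_right _ _) (hnd.mono (min_le_left _ _))
  refine ⟨k, Λ, ?_⟩
  exact
    { basic := h1
      disjoint := h2
      union := by
        rw [hO]
        exact h3
      types := h4
      mixing := h4'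
      chains := fun a x hx y hy => chainTo_iff.2 (h5 a x hx y hy)
      classes := fun x hx => by
        obtain ⟨a, ha, hu⟩ := h6 x (cr_iff.1 hx)
        refine ⟨a, fun y hy => ⟨chainTo_iff.2 fun ε hε => (ha y hy ε hε).1,
          chainTo_iff.2 fun ε hε => (ha y hy ε hε).2⟩, fun b hb => hu b fun y hy ε hε =>
          ⟨chainTo_iff.1 (hb y hy).1 ε hε, chainTo_iff.1 (hb y hy).2 ε hε⟩⟩
      filtration := by
        obtain ⟨σ, U, u1, u2, u3, u4, u5, u6⟩ := filtration C.contF (fun a => (h1 a).nonempty) h5 h6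
        refine ⟨σ, U, u1, u2, u3, u4, u5, fun j x hx => ?_⟩
        rw [u6 j x (cr_iff.1 hx)]
        exact ⟨fun h y hy => ⟨chainTo_iff.2 fun ε hε => (h y hy ε hε).1,
          chainTo_iff.2 fun ε hε => (h y hy ε hε).2⟩, fun h y hy ε hε =>
          ⟨chainTo_iff.1 (h y hy).1 ε hε, chainTo_iff.1 (h y hy).2 ε hε⟩⟩ }

end Pool.Agent.J4.H98.SP
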