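import Pool.Agent.J4.H98.SP.MixDefs

/-!
# Project SP (helper98), piece MIXA (helper30): all large times in the right residue class occur
-/

set_option autoImplicit false
set_option linter.unusedSectionVars false

open Filter Set Topology

universe u v

namespace Pool.Agent.J4.H98.SP

namespace MA

/-! ### number theory -/

/-- a natural number `≥ c` in the residue class of the integer `x` modulo `a` -/
theorem exists_nat_modEq {a : ℕ} (ha : 1 ≤ a) (c : ℕ) (x : ℤ) :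
    ∃ α : ℕ, c ≤ α ∧ (α : ℤ) ≡ x [ZMOD a] := by
  refine ⟨(x % a).toNat + a * c, ?_, ?_⟩
  · calc c = 1 * c := (one_mul c).symm
      _ ≤ a * c := Nat.mul_le_mul_right c ha
      _ ≤ _ := Nat.le_add_left _ _
  · have h0 : 0 ≤ x % (a : ℤ) := Int.emod_nonneg _ (by omega)
    push_cast
    rw [Int.toNat_of_nonneg h0]
    unfold Int.ModEq
    rw [Int.add_mul_emod_self_left, Int.emod_emod_of_dvd _ (dvd_refl _)]

/-- number theory for step (2) -/
theorem exists_gcd {a : ℕ} (ha : 1 ≤ a) (K1 K2 c : ℕ) :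
    ∃ α β : ℕ, c ≤ α ∧ c ≤ β ∧ Nat.gcd a (α * K1 + β * K2) = Nat.gcd a (Nat.gcd K1 K2) := by
  obtain ⟨α, hα, hα2⟩ := exists_nat_modEq ha c (Nat.gcdA K1 K2)
  obtain ⟨β, hβ, hβ2⟩ := exists_nat_modEq ha c (Nat.gcdB K1 K2)
  refine ⟨α, β, hα, hβ, ?_⟩
  have h1 : ((α * K1 + β * K2 : ℕ) : ℤ) ≡ ((Nat.gcd K1 K2 : ℕ) : ℤ) [ZMOD a] := by
    rw [Nat.gcd_eq_gcd_ab K1 K2]
    push_cast
    rw [mul_comm (K1 : ℤ), mul_comm (K2 : ℤ)]
    exact (hα2.mul_right _).add (hβ2.mul_right _)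
  have h2 : α * K1 + β * K2 ≡ Nat.gcd K1 K2 [MOD a] := (Int.natCast_modEq_iff).1 h1
  rw [Nat.gcd_comm a, Nat.gcd_comm a]
  exact h2.gcd_eq

/-- number theory for step (3) -/
theorem exists_large {K1 K2 : ℕ} (c : ℕ) :
    ∃ m₀ : ℕ, ∀ m, m₀ ≤ m → Nat.gcd K1 K2 ∣ m →
      ∃ α β : ℕ, c ≤ α ∧ c ≤ β ∧ α * K1 + β * K2 = m := by
  refine ⟨K1.pred * K2.pred + (c * K1 + c * K2), fun m hm hd => ?_⟩
  have h1 : Nat.gcd K1 K2 ∣ c * K1 + c * K2 :=
    dvd_add ((Nat.gcd_dvd_left _ _).mul_left _) ((Nat.gcd_dvd_right _ _).mul_left _)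
  obtain ⟨a, b, hab⟩ := Nat.exists_add_mul_eq_of_gcd_dvd_of_mul_pred_le K1 K2
    (m - (c * K1 + c * K2)) (Nat.dvd_sub hd h1) (by omega)
  refine ⟨a + c, b + c, Nat.le_add_left _ _, Nat.le_add_left _ _, ?_⟩
  have h2 : (a + c) * K1 + (b + c) * K2 = a * K1 + b * K2 + (c * K1 + c * K2) := by ring
  rw [h2, hab]
  omega

variable {N : Type u} {F : N → N}

/-! ### the periods of the points near `P` -/

/-- points of `A` which are `κ`-near are connected -/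
theorem conn_of_glue [MetricSpace N] {A : Set N}
    (hper : ∀ p ∈ A, ∃ k, 1 ≤ k ∧ F^[k] p = p) {κ : ℝ} (hG : Glue F A κ) {P Q : N} (hP : P ∈ A)
    (hQ : Q ∈ A) (h : dist P Q < κ) : Conn F A P Q := by
  intro ε hε
  obtain ⟨K, hK, hKP⟩ := hper P hP
  obtain ⟨K', hK', hKQ⟩ := hper Q hQ
  obtain ⟨c, hc⟩ := hG P hP Q hQ h K K' hK hK' hKP hKQ ε hε
  obtain ⟨R, hR, h1, h2⟩ := (hc c c le_rfl le_rfl).2
  exact ⟨R, hR, _, h1, h2⟩

/-- step (1): a common divisor of the periods of the points of `A` near `P` divides all periods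
of the points of the class -/
theorem dvd_period [MetricSpace N] (hc : Continuous F) {A : Set N}
    (hper : ∀ p ∈ A, ∃ k, 1 ≤ k ∧ F^[k] p = p) (hinv : ∀ p ∈ A, F p ∈ A) {κ : ℝ} (hκ : 0 < κ)
    (hG : Glue F A κ) {P Q : N} (hQ : Q ∈ A) (hPQ : Conn F A P Q) {δ : ℝ} (hδ : 0 < δ) {g : ℕ}
    (hg : ∀ W ∈ A, dist W P < δ → ∀ t : ℕ, 1 ≤ t → F^[t] W = W → g ∣ t) {t : ℕ}
    (ht : F^[t] Q = Q) : g ∣ t := by
  rcases Nat.eq_zero_or_pos t with rfl | ht1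
  · exact dvd_zero g
  obtain ⟨R, hR, n, hR1, hR2⟩ := hPQ (min (δ / 2) κ) (by positivity)
  have hR3 : dist R P < δ / 2 := hR1.trans_le (min_le_left _ _)
  have hR4 : dist (F^[n] R) Q < κ := hR2.trans_le (min_le_right _ _)
  obtain ⟨K, hK, hKR⟩ := hper R hR
  have hRA := D.iter_mem hinv hR n
  have e : n * (K - 1) + n = n * K := by
    obtain ⟨K, rfl⟩ : ∃ l, K = l + 1 := ⟨K - 1, by omega⟩
    rw [Nat.add_sub_cancel]
    ring
  have hRk : F^[n * (K - 1)] (F^[n] R) = R := by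
    rw [← Function.iterate_add_apply, e, D.iter_per hKR]
  have hKR' : F^[K] (F^[n] R) = F^[n] R := by
    rw [← Function.iterate_add_apply, Nat.add_comm, Function.iterate_add_apply, hKR]
  obtain ⟨η, hη, hη2⟩ := Metric.continuous_iff.1 (hc.iterate (n * (K - 1))) (F^[n] R) (δ / 2)
    (half_pos hδ)
  obtain ⟨c, hcc⟩ := hG _ hRA Q hQ hR4 K t hK ht1 hKR' ht η hη
  have key : ∀ α β : ℕ, c ≤ α → c ≤ β → 1 ≤ α → g ∣ α * K + β * t := by
    intro α β hα hβ hα1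
    obtain ⟨W, hW, hW1, hW2⟩ := (hcc α β hα hβ).1
    refine hg (F^[n * (K - 1)] W) (D.iter_mem hinv hW _) ?_ _ ?_ ?_
    · have h3 := hη2 W hW2
      rw [hRk] at h3
      have := dist_triangle (F^[n * (K - 1)] W) R P
      linarith
    · have : 1 * 1 ≤ α * K := Nat.mul_le_mul hα1 hK
      omega
    · rw [← Function.iterate_add_apply, Nat.add_comm, Function.iterate_add_apply, hW1]
  have k1 := key (c + 1) c (Nat.le_succ c) le_rfl (Nat.le_add_left _ _)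
  have k2 := key (c + 1) (c + 1) (Nat.le_succ c) (Nat.le_succ c) (Nat.le_add_left _ _)
  have e2 : (c + 1) * K + (c + 1) * t = ((c + 1) * K + c * t) + t := by ring
  rw [e2] at k2
  exact (Nat.dvd_add_right k1).1 k2

/-- step (2): a point near `P` whose period has with `a` a greatest common divisor which divides
all periods of the points near `P` -/
theorem exists_min [MetricSpace N] {A : Set N}
    (hper : ∀ p ∈ A, ∃ k, 1 ≤ k ∧ F^[k] p = p) {κ : ℝ}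
    (hG : Glue F A κ) {P : N} (hP : P ∈ A) {δ : ℝ} (hδ : 0 < δ) (hδκ : 2 * δ ≤ κ) {a : ℕ}
    (ha : 1 ≤ a) :
    ∃ W ∈ A, dist W P < δ ∧ ∃ K : ℕ, 1 ≤ K ∧ F^[K] W = W ∧
      ∀ T ∈ A, dist T P < δ → ∀ t : ℕ, 1 ≤ t → F^[t] T = T → Nat.gcd a K ∣ t := by
  classical
  have hex : ∃ g : ℕ, ∃ W ∈ A, dist W P < δ ∧ ∃ K : ℕ, 1 ≤ K ∧ F^[K] W = W ∧ Nat.gcd a K = g := by
    obtain ⟨K, hK, hKP⟩ := hper P hP
    exact ⟨_, P, hP, by rwa [dist_self], K, hK, hKP, rfl⟩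
  obtain ⟨W, hW, hWP, K, hK, hKW, hg⟩ := Nat.find_spec hex
  refine ⟨W, hW, hWP, K, hK, hKW, fun T hT hTP t ht htT => ?_⟩
  have hd : dist W T < κ := by
    have := dist_triangle W P T
    rw [dist_comm P T] at this
    linarith
  obtain ⟨c, hc⟩ := hG W hW T hT hd K t hK ht hKW htT (δ - dist W P) (by linarith)
  obtain ⟨α, β, hα, hβ, hgcd⟩ := exists_gcd ha K t (max c 1)
  obtain ⟨U, hU, hU1, hU2⟩ := (hc α β ((le_max_left _ _).trans hα) ((le_max_left _ _).trans hβ)).1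
  have hUP : dist U P < δ := by
    have := dist_triangle U W P
    linarith
  have h1 : 1 ≤ α * K + β * t := by
    have : 1 * 1 ≤ α * K := Nat.mul_le_mul ((le_max_right _ _).trans hα) hK
    omega
  have h2 : Nat.find hex ≤ Nat.gcd a (α * K + β * t) :=
    Nat.find_min' hex ⟨U, hU, hUP, _, h1, hU1, rfl⟩
  rw [hgcd, ← hg] at h2
  have h3 : Nat.gcd a (Nat.gcd K t) ∣ Nat.gcd a K :=
    Nat.gcd_dvd_gcd_of_dvd_right a (Nat.gcd_dvd_left K t)
  have h4 : 0 < Nat.gcd a K := Nat.gcd_pos_of_pos_left _ ha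
  have h5 : Nat.gcd a (Nat.gcd K t) = Nat.gcd a K := le_antisymm (Nat.le_of_dvd h4 h3) h2
  rw [← h5]
  exact (Nat.gcd_dvd_right a _).trans (Nat.gcd_dvd_right K t)

end MA

variable {N : Type u}

theorem large_times [MetricSpace N] [CompactSpace N] {F : N → N} (hc : Continuous F) {A : Set N}
    (hper : ∀ p ∈ A, ∃ k, 1 ≤ k ∧ F^[k] p = p) (hinv : ∀ p ∈ A, F p ∈ A) {κ : ℝ} (hκ : 0 < κ)
    (hG : Glue F A κ) {S : Set N}
    (hcl : ∀ P ∈ A, ∀ Q ∈ A, P ∈ S → (Conn F A P Q ↔ Q ∈ S)) {D : ℕ}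
    (hD : IsPeriodGcd F A S D) {P Q : N} (hP : P ∈ A) (hQ : Q ∈ A) (hPS : P ∈ S) (hQS : Q ∈ S)
    {ε : ℝ} (hε : 0 < ε) {R : N} {n₁ : ℕ} (hR : R ∈ A) (hRP : dist R P < min ε κ / 4)
    (hRQ : dist (F^[n₁] R) Q < min ε κ / 4) :
    ∃ n₀ : ℕ, ∀ n, n₀ ≤ n → n ≡ n₁ [MOD D] →
      ∃ W ∈ A, dist W P < ε ∧ dist (F^[n] W) Q < ε := by
  obtain ⟨δ, hδ⟩ : ∃ δ, δ = min ε κ / 4 := ⟨_, rfl⟩
  rw [← hδ] at hRP hRQ
  have hδ0 : 0 < δ := by
    rw [hδ]
    positivity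
  have hδε : 4 * δ ≤ ε := by
    rw [hδ]
    linarith [min_le_left ε κ]
  have hδκ : 4 * δ ≤ κ := by
    rw [hδ]
    linarith [min_le_right ε κ]
  obtain ⟨KR, hKR, hKR2⟩ := hper R hR
  obtain ⟨W, hW, hWP, K, hK, hKW, hmin⟩ := MA.exists_min hper hG hP hδ0 (by linarith) hKR
  -- the gcd of the two periods divides `D`
  have hgD : Nat.gcd KR K ∣ D := by
    refine hD.2.2 _ fun Q' hQ' hQS' t ht => ?_
    exact MA.dvd_period hc hper hinv hκ hG hQ' ((hcl P hP Q' hQ' hPS).2 hQS') hδ0 hmin ht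
  -- gluing
  have hd : dist W R < κ := by
    have := dist_triangle W P R
    rw [dist_comm P R] at this
    linarith
  obtain ⟨η, hη, hη2⟩ := Metric.continuous_iff.1 (hc.iterate n₁) R δ hδ0
  obtain ⟨c, hcc⟩ := hG W hW R hR hd K KR hK hKR hKW hKR2 (min δ η) (lt_min hδ0 hη)
  obtain ⟨m₀, hm₀⟩ := MA.exists_large (K1 := K) (K2 := KR) c
  refine ⟨n₁ + m₀, fun n hn hnD => ?_⟩
  have h1 : Nat.gcd K KR ∣ n - n₁ := by
    rw [Nat.gcd_comm]
    exact hgD.trans ((Nat.modEq_iff_dvd' (by omega)).1 hnD.symm)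
  obtain ⟨α, β, hα, hβ, hαβ⟩ := hm₀ (n - n₁) (by omega) h1
  obtain ⟨U, hU, hU1, hU2⟩ := (hcc α β hα hβ).2
  refine ⟨U, hU, ?_, ?_⟩
  · have := dist_triangle U W P
    have := hU1.trans_le (min_le_left _ _)
    linarith
  · have e : n = n₁ + (α * K + β * KR) := by omega
    rw [e, Function.iterate_add_apply]
    have h3 := hη2 _ (hU2.trans_le (min_le_right _ _))
    have := dist_triangle (F^[n₁] (F^[α * K + β * KR] U)) (F^[n₁] R) Q
    linarith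

end Pool.Agent.J4.H98.SP
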