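import Pool.Agent.J4.H98.SP.MixA

/-!
# The cyclic decomposition of a basic piece, with mixing return map
-/

set_option autoImplicit false
set_option linter.unusedSectionVars false

open Filter Set Topology

universe u v

namespace Pool.Agent.J4.H98.SP

variable {N : Type u}

namespace MIXB

theorem iter_mem {F : N → N} {A : Set N} (hinv : ∀ p ∈ A, F p ∈ A) {p : N} (hp : p ∈ A) (n : ℕ) :
    F^[n] p ∈ A := by
  induction n with
  | zero => exact hp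
  | succ n ih =>
    rw [Function.iterate_succ_apply']
    exact hinv _ ih

theorem iter_per {F : N → N} {p : N} {K : ℕ} (h : F^[K] p = p) (j : ℕ) : F^[j * K] p = p := by
  induction j with
  | zero => simp
  | succ j ih => rw [add_mul, one_mul, Function.iterate_add_apply, h, ih]

theorem per_iter {F : N → N} {p : N} {K : ℕ} (h : F^[K] p = p) (n : ℕ) :
    F^[K] (F^[n] p) = F^[n] p := by
  rw [← Function.iterate_add_apply, add_comm, Function.iterate_add_apply, h]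

section
variable [MetricSpace N] {F : N → N} {A S : Set N}

/-- gluing of two orbit segments -/
theorem glue2 (hc : Continuous F)
    (hinv : ∀ p ∈ A, F p ∈ A) {κ : ℝ}
    (hG : Glue F A κ) {P Z Q R T : N} {e : ℝ} (he : 0 < e) (he2 : 2 * e ≤ κ) {n m K K' : ℕ}
    (hK : 1 ≤ K) (hK' : 1 ≤ K')
    (hR : R ∈ A) (hT : T ∈ A) (hKR : F^[K] R = R) (hKT : F^[K'] T = T) (h1 : dist R P < e)
    (h2 : dist (F^[n] R) Z < e) (h3 : dist T Z < e) (h4 : dist (F^[m] T) Q < e) :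
    ∃ c : ℕ, ∀ α β : ℕ, c ≤ α → c ≤ β →
      ∃ W ∈ A, dist W P < 2 * e ∧ dist (F^[n + m + α * K + β * K'] W) Q < 2 * e := by
  have hab : dist (F^[n] R) T < κ := by
    have := dist_triangle_right (F^[n] R) T Z
    linarith
  have hc1 : ContinuousAt (F^[n * K - n]) (F^[n] R) := (hc.iterate _).continuousAt
  have hc2 : ContinuousAt (F^[m]) T := (hc.iterate _).continuousAt
  obtain ⟨d1, hd1, hd1'⟩ := Metric.continuousAt_iff.mp hc1 e he
  obtain ⟨d2, hd2, hd2'⟩ := Metric.continuousAt_iff.mp hc2 e he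
  obtain ⟨c, hc'⟩ := hG _ (iter_mem hinv hR n) T hT hab K K' hK hK' (per_iter hKR n) hKT
    (min d1 d2) (lt_min hd1 hd2)
  refine ⟨c, fun α β hα hβ => ?_⟩
  obtain ⟨-, R', hR', hR1, hR2⟩ := hc' (α + n) β (hα.trans (Nat.le_add_right _ _)) hβ
  have hnK : n ≤ n * K := Nat.le_mul_of_pos_right n hK
  refine ⟨F^[n * K - n] R', iter_mem hinv hR' _, ?_, ?_⟩
  · have h5 := hd1' (lt_of_lt_of_le hR1 (min_le_left _ _))
    have h6 : F^[n * K - n] (F^[n] R) = R := by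
      rw [← Function.iterate_add_apply, Nat.sub_add_cancel hnK]
      exact iter_per hKR n
    rw [h6] at h5
    have := dist_triangle (F^[n * K - n] R') R P
    linarith
  · rw [← Function.iterate_add_apply]
    have h7 : n + m + α * K + β * K' + (n * K - n) = m + ((α + n) * K + β * K') := by
      have : n + m + α * K + β * K' + (n * K - n) + n = m + ((α + n) * K + β * K') + n := by
        rw [add_assoc _ (n * K - n) n, Nat.sub_add_cancel hnK]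
        ring
      omega
    rw [h7, Function.iterate_add_apply]
    have h8 := hd2' (lt_of_lt_of_le hR2 (min_le_right _ _))
    have := dist_triangle (F^[m] (F^[(α + n) * K + β * K'] R')) (F^[m] T) Q
    linarith

/-- the standing hypotheses -/
structure Hyp (F : N → N) (A S : Set N) (κ : ℝ) (D : ℕ) : Prop where
  cont : Continuous F
  per : ∀ p ∈ A, ∃ k, 1 ≤ k ∧ F^[k] p = p
  inv : ∀ p ∈ A, F p ∈ A
  pos : 0 < κ
  glue : Glue F A κ
  closes : Closes F A κ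
  cl : ∀ P ∈ A, ∀ Q ∈ A, P ∈ S → (Conn F A P Q ↔ Q ∈ S)
  gcd : IsPeriodGcd F A S D

variable {κ : ℝ} {D : ℕ}

theorem Hyp.near (H : Hyp F A S κ D) {P W : N} (hP : P ∈ A) (hW : W ∈ A) (hPS : P ∈ S)
    (hd : dist P W < κ) : W ∈ S := by
  rw [← H.cl P hP W hW hPS]
  intro ε hε
  obtain ⟨K, hK, hKP⟩ := H.per P hP
  obtain ⟨K', hK', hKW⟩ := H.per W hW
  obtain ⟨c, hc⟩ := H.glue P hP W hW hd K K' hK hK' hKP hKW ε hε
  obtain ⟨-, R, hR, h1, h2⟩ := hc c c le_rfl le_rfl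
  exact ⟨R, hR, _, h1, h2⟩

theorem Hyp.stepS (H : Hyp F A S κ D) {P : N} (hP : P ∈ A) (hPS : P ∈ S) : F P ∈ S := by
  rw [← H.cl P hP _ (H.inv P hP) hPS]
  intro ε hε
  exact ⟨P, hP, 1, by rw [dist_self]; exact hε, by rw [Function.iterate_one, dist_self]; exact hε⟩

theorem Hyp.iterS (H : Hyp F A S κ D) {P : N} (hP : P ∈ A) (hPS : P ∈ S) (n : ℕ) :
    F^[n] P ∈ S := by
  induction n with
  | zero => exact hPS
  | succ n ih =>
    rw [Function.iterate_succ_apply']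
    exact H.stepS (iter_mem H.inv hP n) ih

/-- the orbit of a point of `A` leads from near `P` to near `Q` in `j` steps modulo `D` -/
def tau (F : N → N) (A : Set N) (κ : ℝ) (D : ℕ) (j : ℕ) (P Q : N) : Prop :=
  ∃ R ∈ A, ∃ n : ℕ, dist R P < κ / 4 ∧ dist (F^[n] R) Q < κ / 4 ∧ n ≡ j [MOD D]

theorem Hyp.unique (H : Hyp F A S κ D) {P Q : N} (hP : P ∈ A) (hQ : Q ∈ A) (hPS : P ∈ S)
    (hQS : Q ∈ S) {i j : ℕ} (hi : tau F A κ D i P Q) (hj : tau F A κ D j P Q) : i ≡ j [MOD D] := by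
  have hκ := H.pos
  have h4 : 0 < κ / 4 := by linarith
  obtain ⟨T, hT, q, hT1, hT2⟩ := (H.cl Q hQ P hP hQS).mpr hPS (κ / 4) h4
  obtain ⟨K', hK', hKT⟩ := H.per T hT
  have hTS : T ∈ S := H.near hQ hT hQS (by rw [dist_comm]; linarith)
  have key : ∀ {i : ℕ}, tau F A κ D i P Q → D ∣ i + q := by
    intro i hi
    obtain ⟨R, hR, n, hR1, hR2, hni⟩ := hi
    obtain ⟨K, hK, hKR⟩ := H.per R hR
    have hRS : R ∈ S := H.near hP hR hPS (by rw [dist_comm]; linarith)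
    obtain ⟨c, hc⟩ := glue2 H.cont H.inv H.glue h4 (by linarith) hK hK' hR hT hKR hKT hR1 hR2
      hT1 hT2
    obtain ⟨W, hW, hW1, hW2⟩ := hc (c + 1) (c + 1) (Nat.le_succ _) (Nat.le_succ _)
    have ht : 1 ≤ n + q + (c + 1) * K + (c + 1) * K' := by
      have : 1 ≤ (c + 1) * K := Nat.mul_pos (Nat.succ_pos c) hK
      omega
    have hWW : dist (F^[n + q + (c + 1) * K + (c + 1) * K'] W) W < κ := by
      have := dist_triangle_right (F^[n + q + (c + 1) * K + (c + 1) * K'] W) W P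
      linarith
    obtain ⟨Q1, hQ1, hQ1p, hQ1c⟩ := H.closes W hW _ ht hWW
    have hWS : W ∈ S := H.near hP hW hPS (by rw [dist_comm]; linarith)
    have hQ1S : Q1 ∈ S := (H.cl W hW Q1 hQ1 hWS).mp hQ1c
    have hd1 := H.gcd.2.1 Q1 hQ1 hQ1S _ hQ1p
    have hd2 := H.gcd.2.1 R hR hRS _ hKR
    have hd3 := H.gcd.2.1 T hT hTS _ hKT
    have hd4 : D ∣ (c + 1) * K := hd2.mul_left _
    have hd5 : D ∣ (c + 1) * K' := hd3.mul_left _
    have hd6 : D ∣ n + q + (c + 1) * K := (Nat.dvd_add_left hd5).mp hd1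
    have hd7 : D ∣ n + q := (Nat.dvd_add_left hd4).mp hd6
    have h8 : n + q ≡ i + q [MOD D] := Nat.ModEq.add_right q hni
    exact (Nat.modEq_zero_iff_dvd.mp (h8.symm.trans (Nat.modEq_zero_iff_dvd.mpr hd7)))
  have h1 := key hi
  have h2 := key hj
  have h3 : i + q ≡ j + q [MOD D] :=
    (Nat.modEq_zero_iff_dvd.mpr h1).trans (Nat.modEq_zero_iff_dvd.mpr h2).symm
  exact Nat.ModEq.add_right_cancel' q h3

theorem Hyp.exists_tau (H : Hyp F A S κ D) {P Q : N} (hP : P ∈ A) (hQ : Q ∈ A) (hPS : P ∈ S)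
    (hQS : Q ∈ S) : ∃ j, tau F A κ D j P Q := by
  have hκ := H.pos
  obtain ⟨R, hR, n, h1, h2⟩ := (H.cl P hP Q hQ hPS).mpr hQS (κ / 4) (by linarith)
  exact ⟨n, R, hR, n, h1, h2, Nat.ModEq.refl n⟩

theorem tau_congr {i j : ℕ} {P Q : N} (h : i ≡ j [MOD D]) (hi : tau F A κ D i P Q) :
    tau F A κ D j P Q := by
  obtain ⟨R, hR, n, h1, h2, h3⟩ := hi
  exact ⟨R, hR, n, h1, h2, h3.trans h⟩

theorem Hyp.add (H : Hyp F A S κ D) {P Q Z : N} (hP : P ∈ A) (hQ : Q ∈ A) (hZ : Z ∈ A)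
    (hPS : P ∈ S) (hQS : Q ∈ S) (hZS : Z ∈ S) {i j : ℕ} (hi : tau F A κ D i P Q)
    (hj : tau F A κ D j Q Z) : tau F A κ D (i + j) P Z := by
  have hκ := H.pos
  have h8 : 0 < κ / 8 := by linarith
  obtain ⟨R, hR, n, hR1, hR2⟩ := (H.cl P hP Q hQ hPS).mpr hQS (κ / 8) h8
  obtain ⟨T, hT, m, hT1, hT2⟩ := (H.cl Q hQ Z hZ hQS).mpr hZS (κ / 8) h8
  have hn : tau F A κ D n P Q := ⟨R, hR, n, by linarith, by linarith, Nat.ModEq.refl n⟩
  have hm : tau F A κ D m Q Z := ⟨T, hT, m, by linarith, by linarith, Nat.ModEq.refl m⟩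
  have h1 := H.unique hP hQ hPS hQS hn hi
  have h2 := H.unique hQ hZ hQS hZS hm hj
  obtain ⟨K, hK, hKR⟩ := H.per R hR
  obtain ⟨K', hK', hKT⟩ := H.per T hT
  have hRS : R ∈ S := H.near hP hR hPS (by rw [dist_comm]; linarith)
  have hTS : T ∈ S := H.near hQ hT hQS (by rw [dist_comm]; linarith)
  obtain ⟨c, hc⟩ := glue2 H.cont H.inv H.glue h8 (by linarith) hK hK' hR hT hKR hKT hR1 hR2
    hT1 hT2
  obtain ⟨W, hW, hW1, hW2⟩ := hc c c le_rfl le_rfl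
  refine ⟨W, hW, _, by linarith, lt_of_lt_of_le hW2 (by linarith), ?_⟩
  have hd4 : c * K ≡ 0 [MOD D] :=
    Nat.modEq_zero_iff_dvd.mpr ((H.gcd.2.1 R hR hRS _ hKR).mul_left _)
  have hd5 : c * K' ≡ 0 [MOD D] :=
    Nat.modEq_zero_iff_dvd.mpr ((H.gcd.2.1 T hT hTS _ hKT).mul_left _)
  have := ((h1.add h2).add hd4).add hd5
  simpa using this

theorem Hyp.near_tau (H : Hyp F A S κ D) {P Q : N} (hP : P ∈ A) (hQ : Q ∈ A) (hPS : P ∈ S)
    (hd : dist P Q < κ) : tau F A κ D 0 P Q := by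
  have hκ := H.pos
  have hQS := H.near hP hQ hPS hd
  obtain ⟨K, hK, hKP⟩ := H.per P hP
  obtain ⟨K', hK', hKQ⟩ := H.per Q hQ
  obtain ⟨c, hc⟩ := H.glue P hP Q hQ hd K K' hK hK' hKP hKQ (κ / 4) (by linarith)
  obtain ⟨-, R, hR, h1, h2⟩ := hc c c le_rfl le_rfl
  refine ⟨R, hR, _, h1, h2, ?_⟩
  have hd4 : c * K ≡ 0 [MOD D] :=
    Nat.modEq_zero_iff_dvd.mpr ((H.gcd.2.1 P hP hPS _ hKP).mul_left _)
  have hd5 : c * K' ≡ 0 [MOD D] :=
    Nat.modEq_zero_iff_dvd.mpr ((H.gcd.2.1 Q hQ hQS _ hKQ).mul_left _)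
  have := hd4.add hd5
  simpa using this

theorem Hyp.step (H : Hyp F A S κ D) {P : N} (hP : P ∈ A) : tau F A κ D 1 P (F P) := by
  have hκ := H.pos
  refine ⟨P, hP, 1, by rw [dist_self]; linarith, ?_, Nat.ModEq.refl 1⟩
  rw [Function.iterate_one, dist_self]
  linarith

/-- the classes -/
def Cl (F : N → N) (A S : Set N) (κ : ℝ) (D : ℕ) (P₀ : N) (j : ℕ) : Set N :=
  {Q | Q ∈ A ∧ Q ∈ S ∧ tau F A κ D j P₀ Q}

theorem Hyp.image_cl (H : Hyp F A S κ D) {P₀ : N} (hP : P₀ ∈ A) (hPS : P₀ ∈ S) (j : ℕ) :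
    F '' Cl F A S κ D P₀ j = Cl F A S κ D P₀ (j + 1) := by
  apply Subset.antisymm
  · rintro _ ⟨Q, ⟨hQ, hQS, hQt⟩, rfl⟩
    exact ⟨H.inv Q hQ, H.stepS hQ hQS,
      H.add hP hQ (H.inv Q hQ) hPS hQS (H.stepS hQ hQS) hQt (H.step hQ)⟩
  · rintro Q ⟨hQ, hQS, hQt⟩
    obtain ⟨K, hK, hKQ⟩ := H.per Q hQ
    have h1 : F (F^[K - 1] Q) = Q := by
      rw [← Function.iterate_succ_apply' F, Nat.succ_eq_add_one, Nat.sub_add_cancel hK]
      exact hKQ
    have hA' := iter_mem H.inv hQ (K - 1)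
    have hS' := H.iterS hQ hQS (K - 1)
    obtain ⟨i, hi⟩ := H.exists_tau hP hA' hPS hS'
    have h2 := H.step hA'
    rw [h1] at h2
    have h3 := H.add hP hA' hQ hPS hS' hQS hi h2
    have h4 := H.unique hP hQ hPS hQS h3 hQt
    have h5 : i ≡ j [MOD D] := Nat.ModEq.add_right_cancel' 1 h4
    exact ⟨_, ⟨hA', hS', tau_congr h5 hi⟩, h1⟩

end

theorem exists_gcd [MetricSpace N] {F : N → N} {A S : Set N}
    (hper : ∀ p ∈ A, ∃ k, 1 ≤ k ∧ F^[k] p = p) (hne : (S ∩ A).Nonempty) :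
    ∃ D, IsPeriodGcd F A S D := by
  classical
  obtain ⟨Q0, hQ0S, hQ0⟩ := hne
  obtain ⟨t0, ht0, hQt⟩ := hper Q0 hQ0
  set E : Finset ℕ := t0.divisors.filter
    (fun d => ∀ Q ∈ A, Q ∈ S → ∀ t : ℕ, F^[t] Q = Q → d ∣ t) with hE
  refine ⟨E.lcm id, ?_, ?_, ?_⟩
  · have h1 : E.lcm id ∣ t0 := by
      apply Finset.lcm_dvd
      intro d hd
      rw [hE, Finset.mem_filter] at hd
      exact hd.2 Q0 hQ0 hQ0S t0 hQt
    exact Nat.pos_of_dvd_of_pos h1 ht0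
  · intro Q hQ hQS t ht
    apply Finset.lcm_dvd
    intro d hd
    rw [hE, Finset.mem_filter] at hd
    exact hd.2 Q hQ hQS t ht
  · intro d hd
    have : d ∈ E := by
      rw [hE, Finset.mem_filter, Nat.mem_divisors]
      exact ⟨⟨hd Q0 hQ0 hQ0S t0 hQt, by omega⟩, hd⟩
    exact Finset.dvd_lcm (f := id) this

end MIXB

open MIXB in
theorem cyclic_mixing [MetricSpace N] [CompactSpace N] {F : N → N} (hc : Continuous F) {A : Set N}
    (hper : ∀ p ∈ A, ∃ k, 1 ≤ k ∧ F^[k] p = p) (hinv : ∀ p ∈ A, F p ∈ A) {κ : ℝ} (hκ : 0 < κ)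
    (hG : Glue F A κ) (hC : Closes F A κ) {S : Set N} (hne : (S ∩ A).Nonempty)
    (hS : S = closure (S ∩ A)) (hcl : ∀ P ∈ A, ∀ Q ∈ A, P ∈ S → (Conn F A P Q ↔ Q ∈ S)) :
    ∃ (m : ℕ) (T : ℕ → Set N), CyclicMixing F S m T := by
  obtain ⟨D, hD⟩ := exists_gcd hper hne
  have H : Hyp F A S κ D := ⟨hc, hper, hinv, hκ, hG, hC, hcl, hD⟩
  obtain ⟨P₀, hP₀S, hP₀⟩ := hne
  have hSc : IsClosed S := by
    rw [hS]
    exact isClosed_closure
  have hD1 : 1 ≤ D := hD.1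
  have hT : ∀ j, Cl F A S κ D P₀ (j + D) = Cl F A S κ D P₀ j := by
    intro j
    have h1 : j + D ≡ j [MOD D] := by
      simp [Nat.ModEq]
    ext Q
    exact ⟨fun h => ⟨h.1, h.2.1, tau_congr h1 h.2.2⟩, fun h => ⟨h.1, h.2.1, tau_congr h1.symm h.2.2⟩⟩
  refine ⟨D, fun j => closure (Cl F A S κ D P₀ j), hD1, ?_, fun j => isClosed_closure, ?_, ?_, ?_, ?_⟩
  · intro j
    show closure (Cl F A S κ D P₀ (j + D)) = closure (Cl F A S κ D P₀ j)
    rw [hT j]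
  · intro j
    show F '' closure (Cl F A S κ D P₀ j) = closure (Cl F A S κ D P₀ (j + 1))
    rw [← H.image_cl hP₀ hP₀S j]
    exact (hc.isClosedMap.closure_image_eq_of_continuous hc _).symm
  · apply Subset.antisymm
    · refine iUnion_subset fun j => ?_
      exact closure_minimal (fun Q hQ => hQ.2.1) hSc
    · have h1 : S ∩ A ⊆ ⋃ j ∈ Finset.range D, Cl F A S κ D P₀ j := by
        rintro Q ⟨hQS, hQ⟩
        obtain ⟨j, hj⟩ := H.exists_tau hP₀ hQ hP₀S hQS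
        refine mem_iUnion₂.mpr ⟨j % D, Finset.mem_range.mpr (Nat.mod_lt _ hD1), hQ, hQS, ?_⟩
        exact tau_congr (Nat.mod_modEq j D).symm hj
      intro x hx
      rw [hS] at hx
      have h2 := closure_mono h1 hx
      rw [Finset.closure_biUnion] at h2
      obtain ⟨j, _, hj⟩ := mem_iUnion₂.mp h2
      exact mem_iUnion.mpr ⟨j, hj⟩
  · intro i j hi hj hij
    rw [Set.disjoint_left]
    intro x hx hx'
    rw [Metric.mem_closure_iff] at hx hx'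
    obtain ⟨Q, hQ, hQd⟩ := hx (κ / 2) (by linarith)
    obtain ⟨Q', hQ', hQd'⟩ := hx' (κ / 2) (by linarith)
    have h1 : dist Q Q' < κ := by
      have := dist_triangle_left Q Q' x
      linarith
    have h2 := H.near_tau hQ.1 hQ'.1 hQ.2.1 h1
    have h3 := H.add hP₀ hQ.1 hQ'.1 hP₀S hQ.2.1 hQ'.2.1 hQ.2.2 h2
    have h4 := H.unique hP₀ hQ'.1 hP₀S hQ'.2.1 h3 hQ'.2.2
    rw [add_zero] at h4
    exact hij (Nat.ModEq.eq_of_lt_of_lt h4 hi hj)
  · intro j U V hU hV hUj hVj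
    obtain ⟨x, hxU, hx⟩ := hUj
    obtain ⟨P, hPU, hP⟩ := mem_closure_iff.mp hx U hU hxU
    obtain ⟨y, hyV, hy⟩ := hVj
    obtain ⟨Q, hQV, hQ⟩ := mem_closure_iff.mp hy V hV hyV
    obtain ⟨e1, he1, hb1⟩ := Metric.isOpen_iff.mp hU P hPU
    obtain ⟨e2, he2, hb2⟩ := Metric.isOpen_iff.mp hV Q hQV
    set ε : ℝ := min (min e1 e2) κ with hε
    have hε0 : 0 < ε := lt_min (lt_min he1 he2) hκ
    have hεκ : ε ≤ κ := min_le_right _ _
    have hm : min ε κ = ε := min_eq_left hεκ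
    obtain ⟨R, hR, n₁, hR1, hR2⟩ := (hcl P hP.1 Q hQ.1 hP.2.1).mpr hQ.2.1 (min ε κ / 4)
      (by rw [hm]; linarith)
    have h1 : tau F A κ D n₁ P Q := by
      refine ⟨R, hR, n₁, lt_of_lt_of_le hR1 ?_, lt_of_lt_of_le hR2 ?_, Nat.ModEq.refl _⟩
      · rw [hm]; linarith
      · rw [hm]; linarith
    have h2 := H.add hP₀ hP.1 hQ.1 hP₀S hP.2.1 hQ.2.1 hP.2.2 h1
    have h3 := H.unique hP₀ hQ.1 hP₀S hQ.2.1 h2 hQ.2.2
    have h4 : n₁ ≡ 0 [MOD D] := Nat.ModEq.add_left_cancel' j (by rw [add_zero]; exact h3)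
    obtain ⟨n₀, hn₀⟩ := large_times hc hper hinv hκ hG hcl hD hP.1 hQ.1 hP.2.1 hQ.2.1 hε0 hR hR1 hR2
    refine ⟨n₀, fun n hn => ?_⟩
    have h5 : n₀ ≤ n * D := hn.trans (Nat.le_mul_of_pos_right n hD1)
    have h6 : n * D ≡ n₁ [MOD D] :=
      (Nat.modEq_zero_iff_dvd.mpr (Dvd.intro_left n rfl)).trans h4.symm
    obtain ⟨W, hW, hW1, hW2⟩ := hn₀ (n * D) h5 h6
    have hPW : dist P W < κ := by
      rw [dist_comm]
      exact lt_of_lt_of_le hW1 hεκ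
    have hWS := H.near hP.1 hW hP.2.1 hPW
    have h7 := H.near_tau hP.1 hW hP.2.1 hPW
    have h8 := H.add hP₀ hP.1 hW hP₀S hP.2.1 hWS hP.2.2 h7
    rw [add_zero] at h8
    refine ⟨W, ⟨hb1 ?_, subset_closure ⟨hW, hWS, h8⟩⟩, hb2 ?_⟩
    · rw [Metric.mem_ball]
      exact lt_of_lt_of_le hW1 ((min_le_left _ _).trans (min_le_left _ _))
    · rw [Metric.mem_ball]
      exact lt_of_lt_of_le hW2 ((min_le_left _ _).trans (min_le_right _ _))

end Pool.Agent.J4.H98.SP
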