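import Pool.Agent.J4.H98.SP.Defs

/-!
# Spectral decomposition for maps with circle fibres: several periods
-/

set_option autoImplicit false
set_option linter.unusedSectionVars false

open Filter Set Topology

universe u v

namespace Pool.Agent.J4.H98.SP

open Pool.Agent.J4.H85.IS Pool.Agent.J4.H85.LE

namespace M

theorem ch_mul {P : ℕ → ℝ → ℝ} {K : ℕ} (H : Ch P K) {a : ℕ} (ha : 1 ≤ a) : Ch P (a * K) where
  smooth := H.smooth
  incr := H.incr
  pos := H.pos
  perT := H.perT
  one := Nat.mul_pos ha H.one
  perk _ := rfl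
  shift i t := by
    have h := congrFun (per_mul H a i) t
    rw [add_comm (a * K) i] at h
    show P (i + a * K) (t + 0) = P i t + 0
    rw [add_zero, add_zero, h]

end M

theorem lev_mul {P : ℕ → ℝ → ℝ} {K : ℕ} (H : Ch P K) {a : ℕ} (ha : 1 ≤ a) :
    lev P (a * K) = lev P K ∧ ∀ t, (0 < lev' P (a * K) t ↔ 0 < lev' P K t) := by
  have H' := M.ch_mul H ha
  have h1 : lev P (a * K) = lev P K := by
    funext t
    refine lev_unique H' ?_
    rw [orb_mul H]
    have h2 : g P K (lev P K t) t = t := lev_eq H t
    exact Function.iterate_fixed h2 a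
  refine ⟨h1, fun t => ?_⟩
  have h3 := lev_der H' t
  rw [h1] at h3
  rw [h3.unique (lev_der H t)]

end Pool.Agent.J4.H98.SP
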