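import Pool.Agent.J4.H98.SP.Defs

/-! Project SP (helper98), piece N1 (helper40). -/

set_option autoImplicit false
set_option linter.unusedSectionVars false

open Filter Set Topology

universe u v

namespace Pool.Agent.J4.H98.SP

open Pool.Agent.J4.H85.IS Pool.Agent.J4.H85.LE

variable {N : Type u} {B : Type v} {ψ : ℝ → N → N} {F : N → N} {ρ : N → ℝ} {π : N → B} {f : B → B}

namespace N1aux

theorem eq_zero_of_int {k : ℝ → ℝ} (hc : Continuous k) (h0 : k 0 = 0) (hi : ∀ t, ∃ m : ℤ, k t = m) (t : ℝ) :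
    k t = 0 := by
  obtain ⟨m, hm⟩ := hi t
  rcases lt_trichotomy m 0 with h | h | h
  · exfalso
    have h1 : (m : ℝ) ≤ -1 := by exact_mod_cast (by omega : m ≤ -1)
    obtain ⟨u, hu⟩ := mem_range_of_exists_le_of_exists_ge hc (c := -(1 / 2)) ⟨t, by rw [hm]; linarith⟩
      ⟨0, by rw [h0]; norm_num⟩
    obtain ⟨l, hl⟩ := hi u
    rw [hu] at hl
    have h2 : (2 * l : ℤ) = -1 := by
      have : (2 * l : ℝ) = -1 := by rw [← hl]; norm_num
      exact_mod_cast this
    omega
  · rw [hm, h, Int.cast_zero]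
  · exfalso
    have h1 : (1 : ℝ) ≤ m := by exact_mod_cast (by omega : 1 ≤ m)
    obtain ⟨u, hu⟩ := mem_range_of_exists_le_of_exists_ge hc (c := 1 / 2) ⟨0, by rw [h0]; norm_num⟩
      ⟨t, by rw [hm]; linarith⟩
    obtain ⟨l, hl⟩ := hi u
    rw [hu] at hl
    have h2 : (2 * l : ℤ) = 1 := by
      have : (2 * l : ℝ) = 1 := by rw [← hl]; norm_num
      exact_mod_cast this
    omega

theorem eq_theta [TopologicalSpace N] [TopologicalSpace B] (C : Circ ψ F ρ π f) {x y : N} {h : ℝ → ℝ}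
    (hc : Continuous h) (hm : ∀ t, F (ψ t x) = ψ (h t) y) (t : ℝ) : h t = theta ψ ρ x t + h 0 := by
  have h1 : ∀ t, ∃ m : ℤ, h t - theta ψ ρ x t - h 0 = m := by
    intro t
    have e0 := hm 0
    rw [C.act.zero] at e0
    have e1 : ψ (h t) y = ψ (theta ψ ρ x t) (ψ (h 0) y) := by
      rw [← hm t, C.maps, e0]
      rfl
    have e2 : ψ (h t - theta ψ ρ x t - h 0) y = y := by
      rw [show h t - theta ψ ρ x t - h 0 = -(theta ψ ρ x t + h 0) + h t by ring, C.act.add, e1, ← C.act.add,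
        ← C.act.add, show -(theta ψ ρ x t + h 0) + theta ψ ρ x t + h 0 = 0 by ring, C.act.zero]
    exact (C.free _ _).1 e2
  have h2 : h t - theta ψ ρ x t - h 0 = 0 :=
    eq_zero_of_int (k := fun t => h t - theta ψ ρ x t - h 0)
      ((hc.sub (C.theta_smooth x).continuous).sub continuous_const) (by
      show h 0 - theta ψ ρ x 0 - h 0 = 0
      rw [Circ.theta_zero]
      ring) h1 t
  linarith

end N1aux

theorem nd_of_ndn [TopologicalSpace N] [TopologicalSpace B] (C : Circ ψ F ρ π f) {δ : ℝ}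
    (h : NDN ψ F ρ δ) : ∀ (x : ℕ → N) (h : ℕ → ℝ → ℝ) (M : ℕ), Ch h M →
      (∀ i t, F (ψ t (x i)) = ψ (h i t) (x (i + 1))) → x M = x 0 → ND h M δ := by
  intro x H M HC hmaps hx t s hs h0 h1
  have hder : ∀ i t, deriv (H i) t = ρ (ψ t (x i)) := by
    intro i t
    have e : H i = fun t => theta ψ ρ (x i) t + H i 0 :=
      funext fun t => N1aux.eq_theta C (HC.smooth i).continuous (hmaps i) t
    rw [e]
    exact ((C.theta_der _ t).add_const _).deriv
  have e0 : orb H M t s = t := by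
    have : orb H M t s - t - 0 = 0 := h0
    linarith
  have hiter : ∀ i : ℕ, (fun y => ψ s (F y))^[i] (ψ t (x 0)) = ψ (orb H i t s) (x i) := by
    intro i
    have h2 := track_iter C hmaps s t 0 i
    have e : (fun i => H (0 + i)) = H := by
      funext i
      rw [zero_add]
    rw [e, zero_add] at h2
    exact h2
  have hp : (fun y => ψ s (F y))^[M] (ψ t (x 0)) = ψ t (x 0) := by
    rw [hiter, hx, e0]
  refine h s hs M _ HC.one hp ?_
  have h2 : ∏ i ∈ Finset.range M, ρ ((fun y => ψ s (F y))^[i] (ψ t (x 0))) = dT H M t s := by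
    unfold dT
    refine Finset.prod_congr rfl fun i _ => ?_
    rw [hiter, hder]
  rw [h2]
  have : dT H M t s - 1 = 0 := h1
  linarith

end Pool.Agent.J4.H98.SP
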