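import Pool.Agent.J4.H98.SP.Defs

/-!
# The level zero and the small levels of the next phase
-/

set_option autoImplicit false
set_option linter.unusedSectionVars false

open Filter Set Topology

universe u v

namespace Pool.Agent.J4.H98.SP

open Pool.Agent.J4.H85.IS Pool.Agent.J4.H85.LE

variable {N : Type u} {B : Type v} {ψ : ℝ → N → N} {F : N → N} {ρ : N → ℝ} {π : N → B} {f : B → B}

namespace Ph

/-- the level at the image in the next phase -/
theorem next_lev {H : ℕ → ℝ → ℝ} {M : ℕ} (HC : Ch H M) (z : ℝ) :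
    lev (fun i => H (1 + i)) M (H 0 z + lev H M z) = lev H M z := by
  refine lev_unique (shift_chain HC 1) ?_
  set s := lev H M z with hs
  have h : orb H M z s = z := lev_eq HC z
  have h1 : orb H (M + 1) z s = H 0 z + s := by
    show H M (orb H M z s) + s = _
    have := per_fun HC 0
    rw [zero_add] at this
    rw [h, this]
  have h2 := orb_add H 1 M z s
  rw [add_comm 1 M, h1] at h2
  exact h2.symm

/-- the values between `0` and a point of small level -/
theorem between {H : ℕ → ℝ → ℝ} {M : ℕ} (HC : Ch H M) {κ w : ℝ} (h0 : |lev H M 0| ≤ κ)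
    (hw : |lev H M w| ≤ κ) (hw1 : |w| ≤ 2 * κ) {z : ℝ} (hz : z ∈ uIcc 0 w) :
    |lev H M z| ≤ 4 * κ := by
  obtain ⟨a1, a2⟩ := abs_le.1 h0
  obtain ⟨b1, b2⟩ := abs_le.1 hw
  obtain ⟨c1, c2⟩ := abs_le.1 hw1
  rcases le_total 0 w with h | h
  · rw [uIcc_of_le h] at hz
    have h1 := lev_slope HC hz.1
    have h2 := lev_slope HC hz.2
    rw [abs_le]
    constructor <;> linarith [hz.1, hz.2]
  · rw [uIcc_of_ge h] at hz
    have h1 := lev_slope HC hz.1
    have h2 := lev_slope HC hz.2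
    rw [abs_le]
    constructor <;> linarith [hz.1, hz.2]

/-- the next phase of a chain -/
theorem step {H : ℕ → ℝ → ℝ} {M : ℕ} (HC : Ch H M) {κ δ : ℝ} (h : ∀ i, |H i 0| ≤ κ)
    (hκ : 4 * κ < δ) {t : ℝ} (h0 : lev H M t = 0) (h1 : ∀ z ∈ uIcc 0 t, |lev H M z| < δ) :
    lev (fun i => H (1 + i)) M (H 0 t) = 0 ∧
      ∀ z ∈ uIcc 0 (H 0 t), |lev (fun i => H (1 + i)) M z| < δ := by
  have HC1 := shift_chain HC 1
  set ζ : ℝ → ℝ := fun z => H 0 z + lev H M z with hζ
  have hζt : ζ t = H 0 t := by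
    show H 0 t + lev H M t = H 0 t
    rw [h0, add_zero]
  have hn : ∀ z, lev (fun i => H (1 + i)) M (ζ z) = lev H M z := next_lev HC
  have hζc : Continuous ζ := (HC.smooth 0).continuous.add (lev_cont HC)
  have hs := level_small HC h
  have hs1 := level_small HC1 fun i => h (1 + i)
  have hζ0 : |ζ 0| ≤ 2 * κ := by
    have h3 := abs_add_le (H 0 0) (lev H M 0)
    have h4 := h 0
    show |H 0 0 + lev H M 0| ≤ 2 * κ
    linarith
  refine ⟨by rw [← hζt, hn, h0], fun z hz => ?_⟩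
  rw [← hζt] at hz
  rcases uIcc_subset_uIcc_union_uIcc (b := ζ 0) hz with h2 | h2
  · exact lt_of_le_of_lt (between HC1 hs1 (by rw [hn]; exact hs) hζ0 h2) hκ
  · obtain ⟨w, hw, rfl⟩ := intermediate_value_uIcc hζc.continuousOn h2
    rw [hn]
    exact h1 w hw

end Ph

open Ph in
theorem phase [TopologicalSpace N] [TopologicalSpace B] (C : Circ ψ F ρ π f) {x : ℕ → N}
    {e : ℕ → ℝ} {M : ℕ} {κ δ : ℝ} (T : Tr ψ F x e M κ) (hκ : 4 * κ < δ) (j : ℕ) {t : ℝ}
    (h0 : lev (fun i => fm ψ ρ x e (j + i)) M t = 0)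
    (h1 : ∀ z ∈ uIcc 0 t, |lev (fun i => fm ψ ρ x e (j + i)) M z| < δ) :
    ∃ t', ψ t' (x (j + 1)) = F (ψ t (x j)) ∧
      lev (fun i => fm ψ ρ x e (j + 1 + i)) M t' = 0 ∧
      ∀ z ∈ uIcc 0 t', |lev (fun i => fm ψ ρ x e (j + 1 + i)) M z| < δ := by
  have HC : Ch (fun i => fm ψ ρ x e (j + i)) M := shift_chain (fm_ch C T) j
  have h := step HC (κ := κ) (fun i => by
    show |fm ψ ρ x e (j + i) 0| ≤ κ
    rw [fm_zero]
    exact T.small _) hκ h0 h1
  have he : (fun i => fm ψ ρ x e (j + (1 + i))) = fun i => fm ψ ρ x e (j + 1 + i) := by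
    funext i
    rw [add_assoc]
  obtain ⟨h2, h3⟩ := h
  simp only [add_zero] at h2 h3
  rw [he] at h2 h3
  exact ⟨fm ψ ρ x e j t, (fm_maps C T j t).symm, h2, h3⟩

end Pool.Agent.J4.H98.SP
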