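import Pool.Agent.J4.H98.SP.Key
import Pool.Agent.J4.H98.SP.Br
import Pool.Agent.J4.H98.SP.Ph
import Pool.Agent.J4.H98.SP.Dec

/-!
# Pseudo-orbits between attracting periodic points
-/

set_option autoImplicit false
set_option linter.unusedSectionVars false

open Filter Set Topology

universe u v

namespace Pool.Agent.J4.H98.SP

open Pool.Agent.J4.H85.IS Pool.Agent.J4.H85.LE

variable {N : Type u} {B : Type v} {ψ : ℝ → N → N} {F : N → N} {ρ : N → ℝ} {π : N → B} {f : B → B}

theorem NDN.mono {δ δ' : ℝ} (h : NDN ψ F ρ δ) (hle : δ' ≤ δ) : NDN ψ F ρ δ' :=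
  fun s hs k p hk hp => h s (lt_of_lt_of_le hs hle) k p hk hp

theorem att_per {p : N} (hp : p ∈ AttPer F ρ) : ∃ k, 1 ≤ k ∧ F^[k] p = p := by
  obtain ⟨k, hk, h, -⟩ := hp
  exact ⟨k, hk, h⟩

section metric

variable [MetricSpace N] [CompactSpace N] [MetricSpace B] [CompactSpace B]

theorem conn_self {A : Set N} {P : N} (hP : P ∈ A) (n : ℕ) : Conn F A P (F^[n] P) := by
  intro ε hε
  exact ⟨P, hP, n, by rwa [dist_self], by rwa [dist_self]⟩

/-- near attracting periodic points of `F` -/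
theorem conn_near (C : Circ ψ F ρ π f) {e₀ : ℝ} (he : 0 < e₀) (hX : ExpansiveWith f e₀)
    (hS : PeriodicShadowing f) {δ : ℝ} (hδ : 0 < δ) (hδ1 : δ ≤ 1) (hnd : NDN ψ F ρ δ) :
    ∃ κ : ℝ, 0 < κ ∧ ∀ P ∈ AttPer F ρ, ∀ Q ∈ AttPer F ρ, dist P Q < κ →
      Conn F (AttPer F ρ) P Q := by
  obtain ⟨κ, hκ, hkey⟩ := key C he hX hS hδ hδ1 hnd
  refine ⟨κ, hκ, fun P hP Q hQ hd => ?_⟩
  obtain ⟨k, T, l0, l1⟩ := att_track C hP
  obtain ⟨k', T', l0', l1'⟩ := att_track C hQ
  have h1 := hkey _ _ k _ _ k' (T.mono hκ.le) (T'.mono hκ.le) hd l1 l1' 0 0 l0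
    (fun z hz => by
      rw [uIcc_self, mem_singleton_iff] at hz
      rw [hz, l0, abs_zero]
      exact hδ) l0' (fun z hz => by
      rw [uIcc_self, mem_singleton_iff] at hz
      rw [hz, l0', abs_zero]
      exact hδ)
  rw [C.act.zero, C.act.zero] at h1
  exact h1

/-- the continuation through the phases -/
theorem phases (C : Circ ψ F ρ π f) {x : ℕ → N} {e : ℕ → ℝ} {M : ℕ} {κ δ : ℝ}
    (T : Tr ψ F x e M κ) (hκ : 4 * κ < δ) (j : ℕ) {t : ℝ}
    (h0 : lev (fun i => fm ψ ρ x e (j + i)) M t = 0)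
    (h1 : ∀ z ∈ uIcc 0 t, |lev (fun i => fm ψ ρ x e (j + i)) M z| < δ) (n : ℕ) :
    ∃ t', ψ t' (x (j + n)) = F^[n] (ψ t (x j)) ∧
      lev (fun i => fm ψ ρ x e (j + n + i)) M t' = 0 ∧
      ∀ z ∈ uIcc 0 t', |lev (fun i => fm ψ ρ x e (j + n + i)) M z| < δ := by
  induction n with
  | zero => exact ⟨t, rfl, h0, h1⟩
  | succ n ih =>
    obtain ⟨t', h2, h3, h4⟩ := ih
    obtain ⟨t'', h5, h6, h7⟩ := phase C T hκ (j + n) h3 h4
    refine ⟨t'', ?_, h6, h7⟩
    rw [Function.iterate_succ_apply', ← h2]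
    exact h5

/-- **No pseudo-orbits between different pieces.** -/
theorem nc_att (C : Circ ψ F ρ π f) {e₀ : ℝ} (he : 0 < e₀) (hX : ExpansiveWith f e₀)
    (hS : PeriodicShadowing f) {δ : ℝ} (hδ : 0 < δ) (hδ1 : δ ≤ 1) (hnd : NDN ψ F ρ δ) :
    ∃ η : ℝ, 0 < η ∧ ∀ (y : ℕ → N) (M : ℕ), 1 ≤ M → (∀ i, y (i + M) = y i) →
      (∀ i, dist (F (y i)) (y (i + 1)) < η) → ∀ i j, ∀ P ∈ AttPer F ρ, ∀ Q ∈ AttPer F ρ,
        dist (y i) P < η → dist (y j) Q < η → Conn F (AttPer F ρ) P Q := by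
  obtain ⟨κ, hκ, hkey⟩ := key C he hX hS hδ hδ1 hnd
  obtain ⟨κ0, hκ0, hnear⟩ := conn_near C he hX hS hδ hδ1 hnd
  obtain ⟨η1, hη1, hcross⟩ := cross_levels C he hX hS hδ hδ1 (nd_of_ndn C hnd)
  obtain ⟨η2, hη2, hflow⟩ := flow_unif C hη1
  obtain ⟨hsymm, htrans, -⟩ := decompose C.contF (A := AttPer F ρ) (fun p hp => att_per hp)
    (fun p hp => att_image C hp) hκ0 hnear
  set ε := min (min (κ / 2) (η2 / 2)) (δ / 8) with hε
  have hε0 : 0 < ε := by positivity
  have hε1 : ε ≤ κ / 2 := (min_le_left _ _).trans (min_le_left _ _)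
  have hε2 : ε ≤ η2 / 2 := (min_le_left _ _).trans (min_le_right _ _)
  have hε3 : ε ≤ δ / 8 := min_le_right _ _
  obtain ⟨η3, hη3, hsh⟩ := shadow_tr C hS hε0
  refine ⟨min η3 ε, by positivity, fun y M hM hy hd i j P hP Q hQ hyP hyQ => ?_⟩
  obtain ⟨x, e, T, hxy⟩ := hsh y M hM hy fun i => (hd i).trans_le (min_le_left _ _)
  -- the type near an attracting point
  have htype : ∀ (k : ℕ) (P : N), P ∈ AttPer F ρ → dist P (x k) < 2 * ε →
      0 < lev' (fm ψ ρ (fun i => x (k + i)) (fun i => e (k + i))) M 0 := by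
    intro k P hP hd
    obtain ⟨a, TP, l0, l1⟩ := att_track C hP
    have Tk := T.shift k
    have HB := fm_ch C Tk
    have hx0 : x (k + M) = x (k + 0) := by rw [T.perx, add_zero]
    have nB := nd_of_ndn C hnd _ _ M HB (fm_maps C Tk) hx0
    have DB := reg _ HB nB
    have lB : |lev (fm ψ ρ (fun i => x (k + i)) (fun i => e (k + i))) M 0| ≤ ε :=
      level_small HB fun i => by
        rw [fm_zero]
        exact T.small _
    have hne := DB.ne 0 (by linarith)
    rcases lt_or_gt_of_ne hne with h | h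
    · exfalso
      refine no_common C hcross (TP.mono hε0.le) Tk (fun t => ?_) (σ := ε) (by linarith) 0 ?_ l1 lB h
      · refine hflow t _ _ ?_
        show dist P (x (k + 0)) < η2
        rw [add_zero]
        linarith
      · rw [l0, abs_zero]
        exact hε0.le
    · exact h
  -- the points of the track are near `P` and `Q`
  have hPi : dist P (x i) < 2 * ε := by
    have h1 := dist_triangle P (y i) (x i)
    rw [dist_comm P (y i), dist_comm (y i) (x i)] at h1
    have h2 := hxy i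
    have h3 := hyP.trans_le (min_le_right _ _)
    linarith
  have hQj : dist Q (x j) < 2 * ε := by
    have h1 := dist_triangle Q (y j) (x j)
    rw [dist_comm Q (y j), dist_comm (y j) (x j)] at h1
    have h2 := hxy j
    have h3 := hyQ.trans_le (min_le_right _ _)
    linarith
  -- the continuation at the phase `i`
  have Ti := T.shift i
  have HB := fm_ch C Ti
  have nB := nd_of_ndn C hnd _ _ M HB (fm_maps C Ti) (by
    show x (i + M) = x (i + 0)
    rw [T.perx, add_zero])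
  have DB := reg _ HB nB
  have lB : |lev (fm ψ ρ (fun k => x (i + k)) (fun k => e (i + k))) M 0| ≤ ε :=
    level_small HB fun i => by
      rw [fm_zero]
      exact T.small _
  obtain ⟨t, ht0, hts⟩ := branch DB (lev_per HB) (by linarith)
  have hseg : ∀ z ∈ uIcc 0 t, |lev (fm ψ ρ (fun k => x (i + k)) (fun k => e (i + k))) M z| < δ :=
    fun z hz => by linarith [hts z hz]
  have htp := (centre_of DB (htype i P hP hPi) lB hε0 (by linarith) ht0 hseg).1
  -- the continuation at a phase congruent to `j`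
  obtain ⟨n, hn⟩ : ∃ n, i + n = i * M + j := ⟨i * M + j - i, by
    have : i * 1 ≤ i * M := Nat.mul_le_mul_left i hM
    omega⟩
  obtain ⟨t', hq1, hq2, hq3⟩ := phases C T (δ := δ) (by linarith) i ht0 hseg n
  have hxn : x (i + n) = x j := by
    have : ∀ a, x (a * M + j) = x j := by
      intro a
      induction a with
      | zero => rw [Nat.zero_mul, Nat.zero_add]
      | succ a ih => rw [show (a + 1) * M + j = a * M + j + M by ring, T.perx, ih]
    rw [hn]
    exact this i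
  have hQn : dist Q (x (i + n)) < 2 * ε := by rw [hxn]; exact hQj
  -- the two connections
  obtain ⟨a, TP, l0, l1⟩ := att_track C hP
  obtain ⟨b, TQ, m0, m1⟩ := att_track C hQ
  have c1 := hkey _ _ a _ _ M (TP.mono hκ.le) (Ti.mono (by linarith)) (by
    show dist P (x (i + 0)) < κ
    rw [add_zero]
    linarith) l1 (htype i P hP hPi) 0 t l0 (fun z hz => by
      rw [uIcc_self, mem_singleton_iff] at hz
      rw [hz, l0, abs_zero]
      exact hδ) ht0 hseg
  have c2 := hkey _ _ b _ _ M (TQ.mono hκ.le) ((T.shift (i + n)).mono (by linarith)) (by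
    show dist Q (x (i + n + 0)) < κ
    rw [add_zero]
    linarith) m1 (htype (i + n) Q hQ hQn) 0 t' m0 (fun z hz => by
      rw [uIcc_self, mem_singleton_iff] at hz
      rw [hz, m0, abs_zero]
      exact hδ) hq2 hq3
  rw [C.act.zero] at c1 c2
  have hA1 : ψ t (x (i + 0)) ∈ AttPer F ρ := att_of C Ti ht0 htp
  rw [add_zero] at hA1
  have c1' : Conn F (AttPer F ρ) P (ψ t (x i)) := c1
  have c2' : Conn F (AttPer F ρ) Q (ψ t' (x (i + n))) := c2
  rw [hq1] at c2'
  have hA2 := att_iterate C hA1 n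
  exact htrans P hP _ hA1 Q hQ c1' (htrans _ hA1 _ hA2 Q hQ (conn_self hA1 n)
    (hsymm Q hQ _ hA2 c2'))

end metric

end Pool.Agent.J4.H98.SP
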