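import Pool.Agent.J4.H98.SP.Final
import Pool.Agent.J4.H98.SP.Cover

/-!
# The projections of the pieces
-/

set_option autoImplicit false
set_option linter.unusedSectionVars false

open scoped Manifold ContDiff Topology
open Filter Set

universe u v

namespace Pool.Agent.J4.H98.SP

open Pool.Agent.J4.H85.IS Pool.Agent.J4.H85.LE
open Pool.Agent.TH80.OMS Pool.Agent.TH80.CLX
open Pool.Agent.H718R2.G
open Pool.Agent.TH290.CL (IsFlow)
open Pool.Agent.J4.H98.Fib

/-- Over every transitive piece `S` of `f` there are a piece of attracting type and a piece of repelling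
type which project onto sets containing `S`. -/
def ProjectOnto {N : Type u} [TopologicalSpace N] {B : Type v} [TopologicalSpace B] (F : N → N)
    (ρ : N → ℝ) (π : N → B) (f : B → B) {k : ℕ} (Λ : Fin k → Set N) : Prop :=
  ∀ S : Set B, Basic f S → S ⊆ closure (Per f) →
    (∃ a, Λ a = closure (Λ a ∩ AttPer F ρ) ∧ S ⊆ π '' Λ a) ∧
      ∃ a, Λ a = closure (Λ a ∩ RepPer F ρ) ∧ S ⊆ π '' Λ a

theorem cover_type {N : Type u} [TopologicalSpace N] [T2Space N] [CompactSpace N] {B : Type v}
    [TopologicalSpace B] [T2Space B] {F : N → N} {ρ : N → ℝ} {π : N → B} (hπ : Continuous π) {f : B → B}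
    (hsemi : ∀ y, π (F y) = f (π y)) {k : ℕ} {Λ : Fin k → Set N} (h : SpectralNoCycles F ρ Λ)
    {A A' : Set N} (hA : A ⊆ Per F) (hdis : Disjoint (closure A) (closure A'))
    (htype : ∀ a, Λ a = closure (Λ a ∩ A) ∨ Λ a = closure (Λ a ∩ A'))
    (himg : closure (Per f) ⊆ π '' closure A) {S : Set B} (hS : Basic f S)
    (hSP : S ⊆ closure (Per f)) : ∃ a, Λ a = closure (Λ a ∩ A) ∧ S ⊆ π '' Λ a := by
  have hsub : closure A ⊆ ⋃ a : {a // Λ a = closure (Λ a ∩ A)}, Λ a := by
    refine closure_minimal ?_ (isClosed_iUnion_of_finite fun a => (h.basic a).closed)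
    intro P hP
    have hPO : P ∈ Omega F := closure_per_sub (subset_closure (hA hP))
    rw [← h.union, mem_iUnion] at hPO
    obtain ⟨a, ha⟩ := hPO
    rcases htype a with h1 | h1
    · exact mem_iUnion.2 ⟨⟨a, h1⟩, ha⟩
    · exfalso
      rw [h1] at ha
      exact Set.disjoint_left.1 hdis (subset_closure hP) (closure_mono inter_subset_right ha)
  obtain ⟨⟨a, ha⟩, haS⟩ := cover_piece (ι := {a // Λ a = closure (Λ a ∩ A)}) hS
    (D := fun a => π '' Λ a)
    (fun a => (((h.basic a).closed.isCompact).image hπ).isClosed) (fun a x hx => by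
      obtain ⟨z, hz, rfl⟩ := hx
      refine ⟨F z, ?_, hsemi z⟩
      rw [← (h.basic a).inv]
      exact ⟨z, hz, rfl⟩) (fun x hx => by
      obtain ⟨z, hz, rfl⟩ := himg (hSP hx)
      obtain ⟨a, ha⟩ := mem_iUnion.1 (hsub hz)
      exact mem_iUnion.2 ⟨a, z, ha, rfl⟩)
  exact ⟨a, ha, haS⟩

variable {n : ℕ} {N : Type u} [TopologicalSpace N] [T2Space N] [CompactSpace N]
  [ChartedSpace (V n) N] [IsManifold (𝓡 n) ∞ N]

theorem project {B : Type v} [MetricSpace B] [CompactSpace B] {r : ℕ∞} (hr : 1 ≤ r)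
    {F : DiffM n N r} (hF : OmegaStable n N r F) {ψ : ℝ → N → N} (hψ : IsFlow n N ψ)
    {ρ : N → ℝ} {π : N → B} {f : B → B} (C : Circ ψ (F : N → N) ρ π f)
    (hX : ExpansiveOnPer f) (hS : PeriodicShadowing f) {k : ℕ} {Λ : Fin k → Set N}
    (h : SpectralNoCycles (F : N → N) ρ Λ) : ProjectOnto (F : N → N) ρ π f Λ := by
  intro S hSB hSP
  have hdis := index_separation hr hF hψ C hX hS
  obtain ⟨i1, i2⟩ := images hr F hF hψ C
  exact ⟨cover_type C.contπ C.semi h att_sub_per hdis h.types i1.symm.subset hSB hSP,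
    cover_type C.contπ C.semi h rep_sub_per hdis.symm (fun a => (h.types a).symm)
      i2.symm.subset hSB hSP⟩

end Pool.Agent.J4.H98.SP
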