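import Mathlib
import Pool.Agent.J4.H98.SP.Defs

set_option autoImplicit false
set_option linter.unusedSectionVars false

open Filter Set Topology

universe u v

namespace Pool.Agent.J4.H98.SP

variable {N : Type u} {F : N → N}

theorem basic_inv [TopologicalSpace N] {G : N → N} (h1 : ∀ y, F (G y) = y)
    (h2 : ∀ y, G (F y) = y) {S : Set N} (h : Basic G S) : Basic F S := by
  have hS : ∀ n : ℕ, ∀ z ∈ S, G^[n] z ∈ S := by
    intro n
    induction n with
    | zero => exact fun z hz => hz
    | succ n ih =>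
      intro z hz
      rw [Function.iterate_succ_apply']
      rw [← h.inv]
      exact mem_image_of_mem G (ih z hz)
  refine ⟨h.closed, h.nonempty, ?_, ?_⟩
  · ext x
    constructor
    · rintro ⟨y, hy, rfl⟩
      rw [← h.inv] at hy
      obtain ⟨z, hz, rfl⟩ := hy
      rwa [h1]
    · intro hx
      refine ⟨G x, ?_, h1 x⟩
      rw [← h.inv]
      exact mem_image_of_mem G hx
  · intro U V hU hV hUS hVS
    obtain ⟨z, hz, n, hn⟩ := h.trans V U hV hU hVS hUS
    refine ⟨G^[n] z, ⟨hn, hS n z hz.2⟩, n, ?_⟩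
    have h3 : Function.LeftInverse F^[n] G^[n] := Function.LeftInverse.iterate h1 n
    rw [h3 z]
    exact hz.1

theorem rev_chain [MetricSpace N] [CompactSpace N] {G : N → N} (hF : Continuous F)
    (hG : Continuous G) (h1 : ∀ y, F (G y) = y) (h2 : ∀ y, G (F y) = y) {η : ℝ} (hη : 0 < η) :
    ∃ η' : ℝ, 0 < η' ∧ ∀ (y : ℕ → N) (M : ℕ), 1 ≤ M → (∀ i, y (i + M) = y i) →
      (∀ i, dist (F (y i)) (y (i + 1)) < η') → ∃ z : ℕ → N, (∀ i, z (i + M) = z i) ∧
        (∀ i, dist (G (z i)) (z (i + 1)) < η) ∧ ∀ i, ∃ j, z j = y i := by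
  have hu := CompactSpace.uniformContinuous_of_continuous hG
  obtain ⟨η', hη', hu⟩ := Metric.uniformContinuous_iff.1 hu η hη
  refine ⟨η', hη', fun y M hM hper hst => ?_⟩
  have hmul : ∀ j k, y (k + M * j) = y k := by
    intro j
    induction j with
    | zero => intro k; rw [mul_zero, add_zero]
    | succ j ih =>
      intro k
      rw [Nat.mul_succ, ← add_assoc, hper, ih]
  obtain ⟨q, rfl⟩ : ∃ q, M = q + 1 := ⟨M - 1, by omega⟩
  refine ⟨fun i => y (q * i), fun i => ?_, fun i => ?_, fun i => ⟨q * i, ?_⟩⟩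
  · simp only
    have e : q * (i + (q + 1)) = q * i + (q + 1) * q := by ring
    rw [e, hmul]
  · simp only
    have e1 : y (q * i) = y (q * (i + 1) + 1) := by
      have e : q * (i + 1) + 1 = q * i + (q + 1) * 1 := by ring
      rw [e, hmul]
    have h3 := hst (q * (i + 1))
    have h4 := hu h3
    rw [h2, ← e1] at h4
    rwa [dist_comm]
  · simp only
    have e : q * (q * i) + (q + 1) * i = i + (q + 1) * (q * i) := by ring
    calc y (q * (q * i)) = y (q * (q * i) + (q + 1) * i) := (hmul _ _).symm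
      _ = y (i + (q + 1) * (q * i)) := by rw [e]
      _ = y i := hmul _ _

end Pool.Agent.J4.H98.SP
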