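import Pool.Agent.J4.H98.SP.Nc
import Pool.Agent.J4.H98.SP.Cls
import Pool.Agent.J4.H98.SP.Rev
import Pool.Agent.J4.H98.SP.Inv
import Pool.Agent.J4.H98.SP.Inv2
import Pool.Agent.J4.H98.SP.Inv3
import Pool.Agent.J4.H98.SP.Crp
import Pool.Agent.J4.H98.SP.Closes
import Pool.Agent.J4.H98.SP.MixB
import Pool.Agent.J4.H98.SP.CycInv

/-!
# Spectral decomposition: metric version
-/

set_option autoImplicit false
set_option linter.unusedSectionVars false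

open Filter Set Topology

universe u v

namespace Pool.Agent.J4.H98.SP

open Pool.Agent.J4.H85.IS Pool.Agent.J4.H85.LE

variable {N : Type u} {B : Type v} {ψ : ℝ → N → N} {F : N → N} {ρ : N → ℝ} {π : N → B} {f : B → B}

theorem per_types [TopologicalSpace N] [TopologicalSpace B] (C : Circ ψ F ρ π f) {δ : ℝ}
    (hδ : 0 < δ) (hnd : NDN ψ F ρ δ) :
    {p | ∃ k, 1 ≤ k ∧ F^[k] p = p} = AttPer F ρ ∪ RepPer F ρ := by
  apply Subset.antisymm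
  · rintro p ⟨k, hk, hp⟩
    have h1 := hnd 0 (by rwa [abs_zero]) k p hk (by rw [fam_zero C]; exact hp)
    rw [fam_zero C] at h1
    rcases lt_or_gt_of_ne h1 with h2 | h2
    · exact Or.inl ⟨k, hk, hp, h2⟩
    · exact Or.inr ⟨k, hk, hp, h2⟩
  · rintro p (⟨k, hk, hp, -⟩ | ⟨k, hk, hp, -⟩)
    · exact ⟨k, hk, hp⟩
    · exact ⟨k, hk, hp⟩

section metric

variable [MetricSpace N] [CompactSpace N] [MetricSpace B] [CompactSpace B]

/-- the pieces of one type -/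
theorem half (C : Circ ψ F ρ π f) {e₀ : ℝ} (he : 0 < e₀) (hX : ExpansiveWith f e₀)
    (hS : PeriodicShadowing f) {δ : ℝ} (hδ : 0 < δ) (hδ1 : δ ≤ 1) (hnd : NDN ψ F ρ δ) :
    ∃ (k : ℕ) (Λ : Fin k → Set N), (∀ a, Basic F (Λ a)) ∧ (⋃ a, Λ a) = closure (AttPer F ρ) ∧
      (∀ a, Λ a = closure (Λ a ∩ AttPer F ρ)) ∧
      (∀ a, ∃ (m : ℕ) (T : ℕ → Set N), CyclicMixing F (Λ a) m T) ∧
      ∃ η : ℝ, 0 < η ∧ ∀ (y : ℕ → N) (M : ℕ), 1 ≤ M → (∀ i, y (i + M) = y i) →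
        (∀ i, dist (F (y i)) (y (i + 1)) < η) → ∀ i j a b, y i ∈ Λ a → y j ∈ Λ b → a = b := by
  obtain ⟨κ0, hκ0, hnear⟩ := conn_near C he hX hS hδ hδ1 hnd
  obtain ⟨η, hη, hnc⟩ := nc_att C he hX hS hδ hδ1 hnd
  obtain ⟨-, -, k, Λ, h1, h2, h3, h4, h5⟩ := decompose C.contF (A := AttPer F ρ)
    (fun p hp => att_per hp) (fun p hp => att_image C hp) hκ0 hnear
  obtain ⟨κ1, hκ1, hglue⟩ := glue C he hX hS hδ hδ1 hnd
  obtain ⟨κ2, hκ2, hcl⟩ := closes C he hX hS hδ hδ1 hnd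
  have hmix : ∀ a, ∃ (m : ℕ) (T : ℕ → Set N), CyclicMixing F (Λ a) m T := by
    intro a
    refine cyclic_mixing C.contF (fun p hp => att_per hp) (fun p hp => att_image C hp)
      (κ := min κ1 κ2) (by positivity)
      (fun P hP Q hQ hd => hglue P hP Q hQ (hd.trans_le (min_le_left _ _)))
      (fun R hR t ht hd => hcl R hR t ht (hd.trans_le (min_le_right _ _))) ?_ (h4 a)
      fun P hP Q hQ hPa => h5 a P hP Q hQ hPa
    have hne := (h1 a).nonempty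
    rw [h4 a] at hne
    exact closure_nonempty_iff.1 hne
  refine ⟨k, Λ, h1, h3, h4, hmix, η, hη, fun y M hM hy hd i j a b hi hj => ?_⟩
  have hex : ∀ (z : N) (a : Fin k), z ∈ Λ a → ∃ P ∈ AttPer F ρ, P ∈ Λ a ∧ dist z P < η := by
    intro z a hz
    rw [h4] at hz
    obtain ⟨P, ⟨hP1, hP2⟩, hP3⟩ := Metric.mem_closure_iff.1 hz η hη
    exact ⟨P, hP2, hP1, hP3⟩
  obtain ⟨P, hP, hPa, hPd⟩ := hex _ a hi
  obtain ⟨Q, hQ, hQb, hQd⟩ := hex _ b hj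
  have h6 := hnc y M hM hy hd i j P hP Q hQ hPd hQd
  have h7 : Q ∈ Λ a := (h5 a P hP Q hQ hPa).1 h6
  by_contra hab
  have := h2 a b hab Q h7 Q hQb
  rw [dist_self] at this
  linarith

/-- **Spectral decomposition and absence of cycles, metric version.** -/
theorem spectral (C : Circ ψ F ρ π f) {G : N → N} (g1 : ∀ y, F (G y) = y) (g2 : ∀ y, G (F y) = y)
    {e₀ : ℝ} (he : 0 < e₀) (hX : ExpansiveWith f e₀) (hS : PeriodicShadowing f) {δ : ℝ}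
    (hδ : 0 < δ) (hδ1 : δ ≤ 1) (hnd : NDN ψ F ρ δ) :
    ∃ (k : ℕ) (Λ : Fin k → Set N), (∀ a, Basic F (Λ a)) ∧
      (∀ a b, a ≠ b → Disjoint (Λ a) (Λ b)) ∧
      (⋃ a, Λ a) = closure {p | ∃ k, 1 ≤ k ∧ F^[k] p = p} ∧
      (∀ a, Λ a = closure (Λ a ∩ AttPer F ρ) ∨ Λ a = closure (Λ a ∩ RepPer F ρ)) ∧
      (∀ a, ∃ (m : ℕ) (T : ℕ → Set N), CyclicMixing F (Λ a) m T) ∧
      (∀ a, ∀ x ∈ Λ a, ∀ y ∈ Λ a, ∀ ε : ℝ, 0 < ε → EC F ε x y) ∧
      ∀ x, (∀ ε : ℝ, 0 < ε → EC F ε x x) →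
        ∃! a, ∀ y ∈ Λ a, ∀ ε : ℝ, 0 < ε → EC F ε x y ∧ EC F ε y x := by
  obtain ⟨g, gf1, gf2, C'⟩ := circ_inv C g1 g2
  obtain ⟨ha1, ha2⟩ := att_inv C g1 g2
  obtain ⟨k1, Λ1, a1, a2, a3, am, η1, hη1, a4⟩ := half C he hX hS hδ hδ1 hnd
  obtain ⟨k2, Λ2, b1, b2, b3, bm, η2, hη2, b4⟩ := half C' he (expansive_inv gf1 gf2 hX)
    (shadow_inv C.contf C'.contf gf1 gf2 hS) hδ hδ1 (ndn_inv C g1 g2 hnd)
  rw [ha1] at b2
  simp only [ha1] at b3
  obtain ⟨η3, hη3, b5⟩ := rev_chain C.contF C'.contF g1 g2 hη2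
  obtain ⟨η4, hη4, hmix⟩ := no_index_cycle C he hX hS hδ (nd_of_ndn C hnd)
  set Λ : Fin k1 ⊕ Fin k2 → Set N := Sum.elim Λ1 Λ2 with hΛ
  have hB : ∀ a, Basic F (Λ a) := by
    rintro (a | a)
    · exact a1 a
    · exact basic_inv g1 g2 (b1 a)
  have hex1 : ∀ (z : N) (a : Fin k1), z ∈ Λ1 a → ∃ P ∈ AttPer F ρ, dist z P < η4 := by
    intro z a hz
    rw [a3] at hz
    obtain ⟨P, ⟨-, hP2⟩, hP3⟩ := Metric.mem_closure_iff.1 hz η4 hη4
    exact ⟨P, hP2, hP3⟩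
  have hex2 : ∀ (z : N) (a : Fin k2), z ∈ Λ2 a → ∃ P ∈ RepPer F ρ, dist z P < η4 := by
    intro z a hz
    rw [b3] at hz
    obtain ⟨P, ⟨-, hP2⟩, hP3⟩ := Metric.mem_closure_iff.1 hz η4 hη4
    exact ⟨P, hP2, hP3⟩
  have hno : ∃ η : ℝ, 0 < η ∧ ∀ (y : ℕ → N) (M : ℕ), 1 ≤ M → (∀ i, y (i + M) = y i) →
      (∀ i, dist (F (y i)) (y (i + 1)) < η) → ∀ i j a b, y i ∈ Λ a → y j ∈ Λ b → a = b := by
    refine ⟨min η1 (min η3 η4), by positivity, fun y M hM hy hd i j a b hi hj => ?_⟩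
    have d1 : ∀ i, dist (F (y i)) (y (i + 1)) < η1 := fun i => (hd i).trans_le (min_le_left _ _)
    have d3 : ∀ i, dist (F (y i)) (y (i + 1)) < η3 := fun i =>
      (hd i).trans_le ((min_le_right _ _).trans (min_le_left _ _))
    have d4 : ∀ i, dist (F (y i)) (y (i + 1)) < η4 := fun i =>
      (hd i).trans_le ((min_le_right _ _).trans (min_le_right _ _))
    rcases a with a | a <;> rcases b with b | b
    · exact congrArg Sum.inl (a4 y M hM hy d1 i j a b hi hj)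
    · exfalso
      obtain ⟨P, hP, hPd⟩ := hex1 _ a hi
      obtain ⟨Q, hQ, hQd⟩ := hex2 _ b hj
      exact hmix y M hM hy d4 i j P hP Q hQ hPd hQd
    · exfalso
      obtain ⟨Q, hQ, hQd⟩ := hex2 _ a hi
      obtain ⟨P, hP, hPd⟩ := hex1 _ b hj
      exact hmix y M hM hy d4 j i P hP Q hQ hPd hQd
    · obtain ⟨z, hz, hzd, hzy⟩ := b5 y M hM hy d3
      obtain ⟨i', hi'⟩ := hzy i
      obtain ⟨j', hj'⟩ := hzy j
      exact congrArg Sum.inr (b4 z M hM hz hzd i' j' a b (by rw [hi']; exact hi)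
        (by rw [hj']; exact hj))
  have hU : (⋃ a, Λ a) = closure {p | ∃ k, 1 ≤ k ∧ F^[k] p = p} := by
    rw [per_types C hδ hnd, closure_union, ← a2, ← b2]
    ext x
    simp only [mem_iUnion, mem_union, Sum.exists, hΛ, Sum.elim_inl, Sum.elim_inr]
  obtain ⟨c1, c2⟩ := classes C.contF hB hno fun x hx => by
    obtain ⟨Q, hQ, h⟩ := cr_per C hS hδ hnd hx
    rw [← hU] at hQ
    exact ⟨Q, hQ, h⟩
  have hdis : ∀ a b, a ≠ b → Disjoint (Λ a) (Λ b) := by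
    intro a b hab
    rw [Set.disjoint_left]
    intro x hxa hxb
    obtain ⟨c, -, hc⟩ := c2 x fun ε hε => c1 a x hxa x hxa ε hε
    have e1 := hc a fun y hy ε hε => ⟨c1 a x hxa y hy ε hε, c1 a y hy x hxa ε hε⟩
    have e2 := hc b fun y hy ε hε => ⟨c1 b x hxb y hy ε hε, c1 b y hy x hxb ε hε⟩
    exact hab (e1.trans e2.symm)
  refine ⟨k1 + k2, fun i => Λ (finSumFinEquiv.symm i), fun i => hB _, fun i j hij => hdis _ _
    fun h => hij (finSumFinEquiv.symm.injective h), ?_, fun i => ?_, fun i => ?_, fun i => c1 _,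
    fun x hx => ?_⟩
  · rw [← hU]
    exact finSumFinEquiv.symm.surjective.iUnion_comp Λ
  · have h : ∀ c, Λ c = closure (Λ c ∩ AttPer F ρ) ∨ Λ c = closure (Λ c ∩ RepPer F ρ) := by
      rintro (a | a)
      · exact Or.inl (a3 a)
      · exact Or.inr (b3 a)
    exact h (finSumFinEquiv.symm i)
  · have h : ∀ c, ∃ (m : ℕ) (T : ℕ → Set N), CyclicMixing F (Λ c) m T := by
      rintro (a | a)
      · exact am a
      · obtain ⟨m, T, hT⟩ := bm a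
        obtain ⟨T', hT'⟩ := cyclic_inv g1 g2 hT
        exact ⟨m, T', hT'⟩
    exact h (finSumFinEquiv.symm i)
  · obtain ⟨a, h3, h4⟩ := c2 x hx
    refine ⟨finSumFinEquiv a, ?_, fun b hb => ?_⟩
    · simp only [Equiv.symm_apply_apply]
      exact h3
    · have := h4 _ hb
      rw [← this, Equiv.apply_symm_apply]

end metric

end Pool.Agent.J4.H98.SP
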